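import Pool.Agent.Helper877.QI.Base

set_option autoImplicit false

namespace Pool.Agent.Helper877.QI



theorem K_cm_mem {A : Type*} [Group A] (a b : A) : cm a b ∈ commutator A := by
  rw [commutator_eq_closure]
  exact Subgroup.subset_closure (commutator_mem_commutatorSet a b)

theorem K_induct {A : Type*} [Group A] {p : A → Prop} (h1 : p 1) (hm : ∀ c d, p (cm c d))
    (hmul : ∀ u v, p u → p v → p (u * v)) (hinv : ∀ u, p u → p u⁻¹) {u : A}
    (hu : u ∈ commutator A) : p u := by
  rw [commutator_eq_closure] at hu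
  induction hu using Subgroup.closure_induction with
  | mem x hx =>
    rw [mem_commutatorSet_iff] at hx
    obtain ⟨c, d, rfl⟩ := hx
    exact hm c d
  | one => exact h1
  | mul x y _ _ hx hy => exact hmul x y hx hy
  | inv x _ hx => exact hinv x hx

theorem K_i {A : Type*} [Group A] (hc : ∀ a b c d : A, cm a (cm b (cm c d)) = 1) {u : A}
    (hu : u ∈ commutator A) : ∀ a, cm a u ∈ Subgroup.center A := by
  refine K_induct (p := fun u => ∀ a, cm a u ∈ Subgroup.center A) ?_ ?_ ?_ ?_ hu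
  · intro a
    have : cm a 1 = 1 := by simp [cm]
    rw [this]
    exact Subgroup.one_mem _
  · intro c d a
    rw [Subgroup.mem_center_iff]
    intro b
    have h := hc b a c d
    have h2 : b * cm a (cm c d) = (cm b (cm a (cm c d))) * (cm a (cm c d) * b) := by
      simp only [cm]; group
    rw [h2, h, one_mul]
  · intro u v hu hv a
    have h : cm a (u * v) = cm a u * (u * cm a v * u⁻¹) := by simp only [cm]; group
    rw [h]
    exact Subgroup.mul_mem _ (hu a)
      (Subgroup.Normal.conj_mem inferInstance _ (hv a) _)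
  · intro u hu a
    have h : cm a u⁻¹ = u⁻¹ * (cm a u)⁻¹ * u⁻¹⁻¹ := by simp only [cm]; group
    rw [h]
    exact Subgroup.Normal.conj_mem inferInstance _ (Subgroup.inv_mem _ (hu a)) _

theorem K_ii {A : Type*} [Group A] (hc : ∀ a b c d : A, cm a (cm b (cm c d)) = 1) {u v : A}
    (hu : u ∈ commutator A) (hv : v ∈ commutator A) : Commute u v := by
  refine K_induct (p := fun v => Commute u v) (Commute.one_right u) ?_
    (fun _ _ h1 h2 => h1.mul_right h2) (fun _ h => h.inv_right) hv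
  intro c d
  have hk := Subgroup.mem_center_iff.1 (K_i hc hu c⁻¹)
  have hl := Subgroup.mem_center_iff.1 (K_i hc hu d⁻¹)
  obtain ⟨k, hk'⟩ : ∃ k, k = cm c⁻¹ u := ⟨_, rfl⟩
  obtain ⟨l, hl'⟩ : ∃ l, l = cm d⁻¹ u := ⟨_, rfl⟩
  rw [← hk'] at hk
  rw [← hl'] at hl
  have e1 : u * c * u⁻¹ = c * k := by rw [hk']; simp only [cm]; group
  have e2 : u * d * u⁻¹ = d * l := by rw [hl']; simp only [cm]; group
  have e3 : ∀ x, cm (c * k) x = cm c x := by
    intro x
    calc cm (c * k) x = c * (k * x) * k⁻¹ * c⁻¹ * x⁻¹ := by simp only [cm]; group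
      _ = c * (x * k) * k⁻¹ * c⁻¹ * x⁻¹ := by rw [hk x]
      _ = cm c x := by simp only [cm]; group
  have e4 : ∀ x, cm x (d * l) = cm x d := by
    intro x
    calc cm x (d * l) = x * d * (l * x⁻¹) * l⁻¹ * d⁻¹ := by simp only [cm]; group
      _ = x * d * (x⁻¹ * l) * l⁻¹ * d⁻¹ := by rw [hl x⁻¹]
      _ = cm x d := by simp only [cm]; group
  have e5 : u * cm c d * u⁻¹ = cm (u * c * u⁻¹) (u * d * u⁻¹) := by simp only [cm]; group
  rw [e1, e2, e3, e4] at e5
  show u * cm c d = cm c d * u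
  exact mul_inv_eq_iff_eq_mul.1 e5

theorem K_pow {A : Type*} [Group A] (hc : ∀ a b c d : A, cm a (cm b (cm c d)) = 1) (a w : A)
    (k : ℕ) : ∃ z ∈ Subgroup.center A, cm a (w ^ k) = (cm a w) ^ k * z := by
  induction k with
  | zero => exact ⟨1, Subgroup.one_mem _, by simp [cm]⟩
  | succ k ih =>
    obtain ⟨z, hz, hzk⟩ := ih
    have hy := K_i hc (K_cm_mem a (w ^ k)) w
    refine ⟨cm w (cm a (w ^ k)) * z, Subgroup.mul_mem _ hy hz, ?_⟩
    have h1 : cm a (w ^ (k + 1)) = cm a w * (w * cm a (w ^ k) * w⁻¹) := by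
      rw [pow_succ']; simp only [cm]; group
    have h2 : w * cm a (w ^ k) * w⁻¹ = cm w (cm a (w ^ k)) * cm a (w ^ k) := by
      simp only [cm]; group
    rw [h1, h2]
    rw [Subgroup.mem_center_iff] at hy
    obtain ⟨y, hy'⟩ : ∃ y, y = cm w (cm a (w ^ k)) := ⟨_, rfl⟩
    rw [← hy'] at hy ⊢
    rw [hzk, pow_succ', ← mul_assoc y, ← hy ((cm a w) ^ k), mul_assoc ((cm a w) ^ k), mul_assoc]

theorem K_conj {A : Type*} [Group A] {b g y : A} (hy : ∀ x, x * y = y * x)
    (h : b * g * b⁻¹ = y * g) (m : ℕ) : b * g ^ m * b⁻¹ = y ^ m * g ^ m := by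
  have hcm : Commute y g := (hy g).symm
  rw [← conj_pow, h, hcm.mul_pow]


theorem K_left {A : Type*} [Group A] {x y : A} (h : x = y * x) : y = 1 := by
  have h2 : 1 * x = y * x := by rw [one_mul]; exact h
  exact (mul_right_cancel h2).symm

/-- Some positive power of an element of `A2 A` is a product of commutators. -/
theorem A2.exists_pow_mem {A : Type*} [Group A] {w : A} (hw : w ∈ A2 A) :
    ∃ m : ℕ, 0 < m ∧ w ^ m ∈ commutator A := by
  by_contra hcon
  push Not at hcon
  let wb : Additive (Abelianization A) := Additive.ofMul (Abelianization.of w)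
  have hinj : Function.Injective (zmultiplesHom (Additive (Abelianization A)) wb) := by
    rw [injective_iff_map_eq_zero]
    intro n hn
    by_contra hn0
    have h1 : (Abelianization.of w) ^ n = 1 := by
      have : Additive.ofMul ((Abelianization.of w) ^ n) = 0 := by
        rw [ofMul_zpow]
        exact hn
      exact this
    have h2 : (Abelianization.of w) ^ n.natAbs = 1 := by
      rcases Int.natAbs_eq n with h | h
      · rw [h, zpow_natCast] at h1; exact h1
      · rw [h, zpow_neg, zpow_natCast, inv_eq_one] at h1; exact h1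
    apply hcon n.natAbs (Int.natAbs_pos.2 hn0)
    rw [← map_pow] at h2
    exact (QuotientGroup.eq_one_iff _).1 h2
  obtain ⟨h, hh⟩ := (Module.Baer.of_divisible ℚ).extension_property_addMonoidHom
    (zmultiplesHom (Additive (Abelianization A)) wb) hinj (Int.castAddHom ℚ)
  have h1 : h wb = 1 := by
    have := DFunLike.congr_fun hh 1
    simpa using this
  have h2 := hw (fun a => h (Additive.ofMul (Abelianization.of a))) (by
    intro a b
    show h (Additive.ofMul (Abelianization.of (a * b))) = _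
    rw [map_mul, ofMul_mul, map_add])
  have h3 : h wb = 0 := h2
  rw [h1] at h3
  exact one_ne_zero h3

/-- Commutators with elements of `A2 A` are central. -/
theorem A2.comm_central {A : Type*} [Group A] (ht : TorsionFree A)
    (hc : ∀ a b c d : A, cm a (cm b (cm c d)) = 1) {w : A} (hw : w ∈ A2 A) (a b : A) :
    b * cm a w = cm a w * b := by
  obtain ⟨m, hm, hwm⟩ := A2.exists_pow_mem hw
  obtain ⟨z, hz, hzm⟩ := K_pow hc a w m
  have h1 := K_i hc hwm a
  have hy := Subgroup.mem_center_iff.1 (K_i hc (K_cm_mem a w) b)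
  have h2 : (cm a w) ^ m ∈ Subgroup.center A := by
    have : (cm a w) ^ m = cm a (w ^ m) * z⁻¹ := by rw [hzm]; group
    rw [this]
    exact Subgroup.mul_mem _ h1 (Subgroup.inv_mem _ hz)
  obtain ⟨g, hg⟩ : ∃ g, g = cm a w := ⟨_, rfl⟩
  rw [← hg] at hy h2 ⊢
  have h3 : b * g * b⁻¹ = cm b g * g := by simp only [cm]; group
  have h4 := K_conj hy h3 m
  have h5 : b * g ^ m * b⁻¹ = g ^ m := by
    rw [Subgroup.mem_center_iff.1 h2 b, mul_inv_cancel_right]
  rw [h5] at h4
  have h6 : (cm b g) ^ m = 1 := by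
    exact (K_left h4)
  have h7 := ht _ m hm h6
  rw [h7, one_mul] at h3
  exact mul_inv_eq_iff_eq_mul.1 h3

/-- `A2 A` is abelian. -/
theorem A2.comm {A : Type*} [Group A] (ht : TorsionFree A)
    (hc : ∀ a b c d : A, cm a (cm b (cm c d)) = 1) {w w' : A} (hw : w ∈ A2 A) (hw' : w' ∈ A2 A) :
    w * w' = w' * w := by
  obtain ⟨m, hm, hwm⟩ := A2.exists_pow_mem hw
  obtain ⟨m', hm', hwm'⟩ := A2.exists_pow_mem hw'
  have hy : ∀ x, x * cm w w' = cm w w' * x := fun x => A2.comm_central ht hc hw' w x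
  obtain ⟨y, hy'⟩ : ∃ y, y = cm w w' := ⟨_, rfl⟩
  rw [← hy'] at hy
  have h1 : w * w' * w⁻¹ = y * w' := by rw [hy']; simp only [cm]; group
  have h2 := K_conj hy h1 m'
  -- now `w' ^ m'` conjugates `w` to `(y ^ m')⁻¹ * w`
  have hyp : ∀ x, x * y ^ m' = y ^ m' * x := by
    intro x
    exact ((show Commute x y from hy x).pow_right m')
  have hyp2 : ∀ x, x * (y ^ m')⁻¹ = (y ^ m')⁻¹ * x := by
    intro x
    exact ((show Commute x (y ^ m') from hyp x).inv_right)
  obtain ⟨v, hv⟩ : ∃ v, v = w' ^ m' := ⟨_, rfl⟩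
  obtain ⟨t, htt⟩ : ∃ t, t = y ^ m' := ⟨_, rfl⟩
  rw [← hv, ← htt] at h2
  rw [← htt] at hyp hyp2
  have h3 : v * w * v⁻¹ = t⁻¹ * w := by
    have : w * v = t * v * w := by
      have := mul_inv_eq_iff_eq_mul.1 h2
      rw [this]
    have h4 : v * w = t⁻¹ * (w * v) := by rw [this]; group
    rw [h4]; group
  have h4 := K_conj hyp2 h3 m
  have hcv : Commute v (w ^ m) := by rw [hv]; exact K_ii hc hwm' hwm
  have h5 : v * w ^ m * v⁻¹ = w ^ m := by
    rw [hcv.eq, mul_inv_cancel_right]
  rw [h5] at h4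
  have h6 : (t⁻¹) ^ m = 1 := by
    exact (K_left h4)
  have h7 : t = 1 := by
    have := ht _ m hm h6
    exact inv_eq_one.1 this
  rw [htt] at h7
  have h8 := ht _ m' hm' h7
  rw [h8, one_mul] at h1
  exact mul_inv_eq_iff_eq_mul.1 h1

end Pool.Agent.Helper877.QI
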