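import Pool.Agent.Helper877.QI.Base
import Pool.Agent.Helper877.QI.ATwo

set_option autoImplicit false

namespace Pool.Agent.Helper877.QI





theorem add_gen {A : Type*} [Group A] {S : Set A} (hS : Subgroup.closure S = ⊤) (f : A → ℚ)
    (hf : IsAdd f) (h0 : ∀ s ∈ S, f s = 0) (a : A) : f a = 0 := by
  have ha : a ∈ Subgroup.closure S := by rw [hS]; exact Subgroup.mem_top a
  induction ha using Subgroup.closure_induction with
  | mem x hx => exact h0 x hx
  | one => exact hf.one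
  | mul x y _ _ hx hy => rw [hf, hx, hy, add_zero]
  | inv x _ hx => rw [hf.inv, hx, neg_zero]

theorem cm_mem_A2 {A : Type*} [Group A] (a b : A) : cm a b ∈ A2 A := by
  intro φ hφ
  unfold cm
  rw [hφ, hφ, hφ, hφ.inv, hφ.inv]
  ring

theorem cm_mul_left {A : Type*} [Group A] (a b u : A) :
    cm (a * b) u = cm a (cm b u) * cm b u * cm a u := by
  unfold cm; group

theorem cm_mul_right {A : Type*} [Group A] (a u v : A) :
    cm a (u * v) = cm a u * cm u (cm a v) * cm a v := by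
  unfold cm; group

theorem cm_eq_one {A : Type*} [Group A] {z : A} (a : A) (hz : ∀ b : A, b * z = z * b) :
    cm a z = 1 := by
  unfold cm
  rw [hz a, mul_assoc z a a⁻¹, mul_inv_cancel, mul_one, mul_inv_cancel]

theorem A2_kill {A : Type*} [Group A] (ht : TorsionFree A)
    (hc : ∀ a b c d : A, cm a (cm b (cm c d)) = 1) {S : Set A} (hS : Subgroup.closure S = ⊤)
    (q : A → ℚ) (hq : ∀ w ∈ A2 A, ∀ w' ∈ A2 A, q (w * w') = q w + q w')
    (h2 : ∀ a ∈ S, ∀ b ∈ S, q (cm a b) = 0)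
    (h3 : ∀ a ∈ S, ∀ b ∈ S, ∀ c ∈ S, q (cm a (cm b c)) = 0) {w : A} (hw : w ∈ A2 A) : q w = 0 := by
  have q1 : q 1 = 0 := by
    have h := hq 1 (one_mem _) 1 (one_mem _)
    rw [mul_one] at h
    exact left_eq_add.mp h
  have cl : ∀ a b u, u ∈ A2 A → cm (a * b) u = cm b u * cm a u := by
    intro a b u hu
    rw [cm_mul_left, cm_eq_one a (fun c => A2.comm_central ht hc hu b c), one_mul]
  have cr : ∀ a u v, v ∈ A2 A → cm a (u * v) = cm a u * cm a v := by
    intro a u v hv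
    rw [cm_mul_right, cm_eq_one u (fun c => A2.comm_central ht hc hv a c), mul_one]
  have hqc : ∀ a b c d, q (cm a b * cm c d) = q (cm a b) + q (cm c d) := fun a b c d =>
    hq _ (cm_mem_A2 a b) _ (cm_mem_A2 c d)
  have g1 : ∀ b c, IsAdd (fun a => q (cm a (cm b c))) := by
    intro b c a a'
    show q (cm (a * a') (cm b c)) = q (cm a (cm b c)) + q (cm a' (cm b c))
    rw [cl _ _ _ (cm_mem_A2 b c), hqc, add_comm]
  have g2 : ∀ a c, IsAdd (fun b => q (cm a (cm b c))) := by
    intro a c b b'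
    show q (cm a (cm (b * b') c)) = q (cm a (cm b c)) + q (cm a (cm b' c))
    rw [cm_mul_left, cr _ _ _ (cm_mem_A2 b c), cr _ _ _ (cm_mem_A2 b' c), hc, one_mul, hqc, add_comm]
  have g3 : ∀ a b, IsAdd (fun c => q (cm a (cm b c))) := by
    intro a b c c'
    show q (cm a (cm b (c * c'))) = q (cm a (cm b c)) + q (cm a (cm b c'))
    rw [cm_mul_right, cr _ _ _ (cm_mem_A2 b c'), cr _ _ _ (cm_mem_A2 c _), hc, mul_one, hqc]
  have z1 : ∀ a, ∀ b ∈ S, ∀ c ∈ S, q (cm a (cm b c)) = 0 := fun a b hb c hc' =>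
    add_gen hS _ (g1 b c) (fun a' ha' => h3 a' ha' b hb c hc') a
  have z2 : ∀ a b, ∀ c ∈ S, q (cm a (cm b c)) = 0 := fun a b c hc' =>
    add_gen hS _ (g2 a c) (fun b' hb' => z1 a b' hb' c hc') b
  have z3 : ∀ a b c, q (cm a (cm b c)) = 0 := fun a b c =>
    add_gen hS _ (g3 a b) (fun c' hc' => z2 a b c' hc') c
  have d1 : ∀ c, IsAdd (fun b => q (cm b c)) := by
    intro c b b'
    show q (cm (b * b') c) = q (cm b c) + q (cm b' c)
    rw [cm_mul_left, hq _ (mul_mem (cm_mem_A2 _ _) (cm_mem_A2 _ _)) _ (cm_mem_A2 _ _), hqc, z3,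
      zero_add, add_comm]
  have d2 : ∀ b, IsAdd (fun c => q (cm b c)) := by
    intro b c c'
    show q (cm b (c * c')) = q (cm b c) + q (cm b c')
    rw [cm_mul_right, hq _ (mul_mem (cm_mem_A2 _ _) (cm_mem_A2 _ _)) _ (cm_mem_A2 _ _), hqc, z3,
      add_zero]
  have e1 : ∀ b, ∀ c ∈ S, q (cm b c) = 0 := fun b c hc' =>
    add_gen hS _ (d1 c) (fun b' hb' => h2 b' hb' c hc') b
  have e2 : ∀ b c, q (cm b c) = 0 := fun b c => add_gen hS _ (d2 b) (fun c' hc' => e1 b c' hc') c
  have hcomm : ∀ z ∈ commutator A, z ∈ A2 A ∧ q z = 0 := by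
    intro z hz
    rw [commutator_eq_closure] at hz
    induction hz using Subgroup.closure_induction with
    | mem x hx =>
      obtain ⟨a, b, hab⟩ := hx
      have h4 : cm a b = x := hab
      rw [← h4]
      exact ⟨cm_mem_A2 a b, e2 a b⟩
    | one => exact ⟨one_mem _, q1⟩
    | mul x y _ _ hx hy => exact ⟨mul_mem hx.1 hy.1, by rw [hq _ hx.1 _ hy.1, hx.2, hy.2, add_zero]⟩
    | inv x _ hx =>
      refine ⟨inv_mem hx.1, ?_⟩
      have h4 := hq _ (inv_mem hx.1) _ hx.1
      rw [inv_mul_cancel, q1, hx.2, add_zero] at h4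
      exact h4.symm
  have hpow : ∀ n : ℕ, q (w ^ n) = n * q w := by
    intro n
    induction n with
    | zero => rw [pow_zero, q1]; simp
    | succ n ih => rw [pow_succ, hq _ (pow_mem hw n) _ hw, ih]; push_cast; ring
  obtain ⟨m, hm, hwm⟩ := A2.exists_pow_mem hw
  have h5 := (hcomm _ hwm).2
  rw [hpow] at h5
  rcases mul_eq_zero.1 h5 with h6 | h6
  · have : m = 0 := by exact_mod_cast h6
    omega
  · exact h6

theorem sep_comm {G : Type*} [CommGroup G] (ht : TorsionFree G) {w : G} (hw : w ≠ 1) :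
    ∃ f : G → ℚ, (∀ a b, f (a * b) = f a + f b) ∧ f w ≠ 0 := by
  have hinj : Function.Injective (zmultiplesHom (Additive G) (Additive.ofMul w)) := by
    rw [injective_iff_map_eq_zero]
    intro n hn
    have h1 : w ^ n = 1 := hn
    by_contra hne
    rcases lt_or_gt_of_ne hne with h | h
    · obtain ⟨k, hk⟩ := Int.eq_ofNat_of_zero_le (neg_nonneg.2 h.le)
      have h2 : w ^ k = 1 := by
        rw [← zpow_natCast, ← hk, zpow_neg, h1, inv_one]
      exact hw (ht w k (by omega) h2)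
    · obtain ⟨k, hk⟩ := Int.eq_ofNat_of_zero_le h.le
      have h2 : w ^ k = 1 := by
        rw [← zpow_natCast, ← hk, h1]
      exact hw (ht w k (by omega) h2)
  obtain ⟨h, hh⟩ := (Module.Baer.of_divisible ℚ).extension_property_addMonoidHom
    (zmultiplesHom (Additive G) (Additive.ofMul w)) hinj (Int.castAddHom ℚ)
  refine ⟨fun g => h (Additive.ofMul g), fun a b => ?_, ?_⟩
  · show h (Additive.ofMul (a * b)) = h (Additive.ofMul a) + h (Additive.ofMul b)
    rw [ofMul_mul, map_add]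
  · have h1 := DFunLike.congr_fun hh 1
    rw [AddMonoidHom.comp_apply, zmultiplesHom_apply, one_zsmul] at h1
    show h (Additive.ofMul w) ≠ 0
    rw [h1]
    simp

/-- additive functions on a group as a subspace -/
def addSub (G : Type*) [Group G] : Submodule ℚ (G → ℚ) where
  carrier := {f | ∀ a b, f (a * b) = f a + f b}
  add_mem' := by
    intro f g hf hg a b
    rw [Pi.add_apply, Pi.add_apply, Pi.add_apply, hf, hg]
    ring
  zero_mem' := by
    intro a b
    simp
  smul_mem' := by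
    intro c f hf a b
    rw [Pi.smul_apply, Pi.smul_apply, Pi.smul_apply, hf, smul_add]

open Classical in
/-- extension by zero -/
noncomputable def extZ {A : Type*} [Group A] (f : A2 A → ℚ) : A → ℚ :=
  fun w => if h : w ∈ A2 A then f ⟨w, h⟩ else 0

theorem extZ_mem {A : Type*} [Group A] (f : A2 A → ℚ) {w : A} (hw : w ∈ A2 A) :
    extZ f w = f ⟨w, hw⟩ := by
  unfold extZ
  rw [dif_pos hw]

theorem extZ_add {A : Type*} [Group A] {f : A2 A → ℚ} (hf : f ∈ addSub (A2 A)) :
    ∀ w ∈ A2 A, ∀ w' ∈ A2 A, extZ f (w * w') = extZ f w + extZ f w' := by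
  intro w hw w' hw'
  rw [extZ_mem f hw, extZ_mem f hw', extZ_mem f (mul_mem hw hw')]
  exact hf ⟨w, hw⟩ ⟨w', hw'⟩

/-- Finitely many additive functions on `A2 A` separate its points. -/
theorem A2.exists_sep {A : Type*} [Group A] [Group.FG A] (ht : TorsionFree A)
    (hc : ∀ a b c d : A, cm a (cm b (cm c d)) = 1) :
    ∃ (m : ℕ) (p : Fin m → A → ℚ), (∀ j, ∀ w ∈ A2 A, ∀ w' ∈ A2 A, p j (w * w') = p j w + p j w') ∧
      ∀ w ∈ A2 A, w ≠ 1 → ∃ j, p j w ≠ 0 := by
  classical
  obtain ⟨S, hS⟩ := (Group.FG.out : (⊤ : Subgroup A).FG)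
  let e : (S × S) ⊕ (S × S × S) → A2 A := fun i => match i with
    | Sum.inl (a, b) => ⟨cm a.1 b.1, cm_mem_A2 _ _⟩
    | Sum.inr (a, b, c) => ⟨cm a.1 (cm b.1 c.1), cm_mem_A2 _ _⟩
  have hinj : Function.Injective ((LinearMap.funLeft ℚ ℚ e).comp (addSub (A2 A)).subtype) := by
    rw [← LinearMap.ker_eq_bot, LinearMap.ker_eq_bot']
    rintro ⟨f, hf⟩ h0
    have h1 : ∀ i, f (e i) = 0 := fun i => congrFun h0 i
    have h4 : ∀ w ∈ A2 A, extZ f w = 0 := by
      intro w hw
      refine A2_kill ht hc hS (extZ f) (extZ_add hf) ?_ ?_ hw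
      · intro a ha b hb
        rw [extZ_mem f (cm_mem_A2 a b)]
        exact h1 (Sum.inl (⟨a, ha⟩, ⟨b, hb⟩))
      · intro a ha b hb c hc'
        rw [extZ_mem f (cm_mem_A2 a (cm b c))]
        exact h1 (Sum.inr (⟨a, ha⟩, ⟨b, hb⟩, ⟨c, hc'⟩))
    apply Subtype.ext
    funext w
    have h5 := h4 w.1 w.2
    rw [extZ_mem f w.2] at h5
    exact h5
  haveI hfin : Module.Finite ℚ (addSub (A2 A)) := Module.Finite.of_injective _ hinj
  let B := Module.finBasis ℚ (addSub (A2 A))
  refine ⟨_, fun j => extZ (B j).1, fun j => extZ_add (B j).2, ?_⟩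
  intro w hw hw1
  by_contra hcon
  push Not at hcon
  let ev : (addSub (A2 A)) →ₗ[ℚ] ℚ :=
    { toFun := fun f => f.1 ⟨w, hw⟩
      map_add' := fun f g => rfl
      map_smul' := fun c f => rfl }
  have hev : ev = 0 := by
    apply B.ext
    intro j
    have h1 := hcon j
    rw [extZ_mem _ hw] at h1
    exact h1
  letI : CommGroup (A2 A) :=
    { (inferInstance : Group (A2 A)) with
      mul_comm := fun a b => Subtype.ext (A2.comm ht hc a.2 b.2) }
  have htA2 : TorsionFree (A2 A) := by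
    intro g n hn hg
    apply Subtype.ext
    apply ht g.1 n hn
    have := congrArg Subtype.val hg
    simpa using this
  obtain ⟨f, hf1, hf2⟩ := sep_comm (G := A2 A) htA2 (w := ⟨w, hw⟩)
    (fun h => hw1 (congrArg Subtype.val h))
  exact hf2 (DFunLike.congr_fun hev ⟨f, hf1⟩)

end Pool.Agent.Helper877.QI
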