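import Mathlib

set_option autoImplicit false

namespace Pool.Agent.Helper877.QI

universe u v

/-- A quasi-identity: for all `x_0, x_1, ...`, if `u_i = v_i` for the finitely many pairs
`(u_i, v_i)` in the list `hyps`, then `u = v` where `concl = (u, v)`. Group words are elements of
the free group on the variables `x_0, x_1, ...` (only finitely many of them occur). -/
structure QuasiId where
  hyps : List (FreeGroup ℕ × FreeGroup ℕ)
  concl : FreeGroup ℕ × FreeGroup ℕ

/-- The quasi-identity is true in the group `H`: the implication holds for every assignment
`x_n = a n` of elements of `H` to the variables (`FreeGroup.lift a w` is the value of `w`). -/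
def QuasiId.Holds (σ : QuasiId) (H : Type*) [Group H] : Prop :=
  ∀ a : ℕ → H,
    (∀ p ∈ σ.hyps, FreeGroup.lift a p.1 = FreeGroup.lift a p.2) →
      FreeGroup.lift a σ.concl.1 = FreeGroup.lift a σ.concl.2

/-- The group `H` is torsion-free: only the identity has a power equal to `1` with positive
exponent. -/
def TorsionFree (H : Type*) [Group H] : Prop :=
  ∀ (g : H) (n : ℕ), 0 < n → g ^ n = 1 → g = 1

/-- `S` is a basis of quasi-identities of `G` in the class of torsion-free groups: all members of
`S` are true in `G`, and a torsion-free group `H` satisfies all members of `S` if and only if it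
satisfies all quasi-identities true in `G`. -/
def IsBasis (G : Type u) [Group G] (S : Set QuasiId) : Prop :=
  (∀ σ ∈ S, σ.Holds G) ∧
    ∀ (H : Type v) [Group H], TorsionFree H →
      ((∀ σ ∈ S, σ.Holds H) ↔ ∀ τ : QuasiId, τ.Holds G → τ.Holds H)

/-- `S` is an independent basis of quasi-identities of `G` in the class of torsion-free groups:
it is a basis and no member is redundant. -/
def IsIndependentBasis (G : Type u) [Group G] (S : Set QuasiId) : Prop :=
  IsBasis.{u, v} G S ∧ ∀ σ ∈ S, ¬ IsBasis.{u, v} G (S \ {σ})

end Pool.Agent.Helper877.QI
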