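import Mathlib
import Pool.Agent.Helper877.QI.Statement

set_option autoImplicit false

namespace Pool.Agent.Helper877.QI

/-- All quasi-identities of a set `S` are true in `H`. -/
def Sat (S : Set QuasiId) (H : Type*) [Group H] : Prop := ∀ σ ∈ S, σ.Holds H

/-- The quasi-identities true in `G`. -/
def Th (G : Type*) [Group G] : Set QuasiId := {σ | σ.Holds G}

/-- `T R`: the Malcev completion of the free nilpotent group of class 3 and rank 2, with
coefficients in the field `R`, in Baker-Campbell-Hausdorff coordinates. -/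
@[ext] structure T (R : Type*) where
  x : R
  y : R
  c : R
  d : R
  e : R

namespace T

variable {R : Type*} [Field R]

instance : Mul (T R) := ⟨fun g h =>
  { x := g.x + h.x
    y := g.y + h.y
    c := g.c + h.c + (2:R)⁻¹ * (g.x * h.y - g.y * h.x)
    d := g.d + h.d + (2:R)⁻¹ * (g.x * h.c - g.c * h.x)
      + (12:R)⁻¹ * (g.x - h.x) * (g.x * h.y - g.y * h.x)
    e := g.e + h.e + (2:R)⁻¹ * (g.y * h.c - g.c * h.y)
      + (12:R)⁻¹ * (g.y - h.y) * (g.x * h.y - g.y * h.x) }⟩

instance : One (T R) := ⟨⟨0, 0, 0, 0, 0⟩⟩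

instance : Inv (T R) := ⟨fun g => ⟨-g.x, -g.y, -g.c, -g.d, -g.e⟩⟩

@[simp] theorem one_x : (1 : T R).x = 0 := rfl
@[simp] theorem one_y : (1 : T R).y = 0 := rfl
@[simp] theorem one_c : (1 : T R).c = 0 := rfl
@[simp] theorem one_d : (1 : T R).d = 0 := rfl
@[simp] theorem one_e : (1 : T R).e = 0 := rfl
@[simp] theorem inv_x (g : T R) : (g⁻¹).x = -g.x := rfl
@[simp] theorem inv_y (g : T R) : (g⁻¹).y = -g.y := rfl
@[simp] theorem inv_c (g : T R) : (g⁻¹).c = -g.c := rfl
@[simp] theorem inv_d (g : T R) : (g⁻¹).d = -g.d := rfl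
@[simp] theorem inv_e (g : T R) : (g⁻¹).e = -g.e := rfl
@[simp] theorem mul_x (g h : T R) : (g * h).x = g.x + h.x := rfl
@[simp] theorem mul_y (g h : T R) : (g * h).y = g.y + h.y := rfl
theorem mul_c (g h : T R) :
    (g * h).c = g.c + h.c + (2:R)⁻¹ * (g.x * h.y - g.y * h.x) := rfl
theorem mul_d (g h : T R) :
    (g * h).d = g.d + h.d + (2:R)⁻¹ * (g.x * h.c - g.c * h.x)
      + (12:R)⁻¹ * (g.x - h.x) * (g.x * h.y - g.y * h.x) := rfl
theorem mul_e (g h : T R) :
    (g * h).e = g.e + h.e + (2:R)⁻¹ * (g.y * h.c - g.c * h.y)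
      + (12:R)⁻¹ * (g.y - h.y) * (g.x * h.y - g.y * h.x) := rfl

instance [CharZero R] : Group (T R) where
  mul_assoc a b c := by
    ext <;> simp only [mul_x, mul_y, mul_c, mul_d, mul_e] <;> ring
  one_mul a := by
    ext <;> simp [mul_c, mul_d, mul_e]
  mul_one a := by
    ext <;> simp [mul_c, mul_d, mul_e]
  inv_mul_cancel a := by
    ext <;> simp [mul_c, mul_d, mul_e] <;> ring

end T

/-- Additive functions on a group. -/
def IsAdd {A V : Type*} [Group A] [AddCommGroup V] (f : A → V) : Prop :=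
  ∀ a b, f (a * b) = f a + f b

theorem IsAdd.one {A V : Type*} [Group A] [AddCommGroup V] {f : A → V} (hf : IsAdd f) :
    f 1 = 0 := by
  have h := hf 1 1
  rw [mul_one] at h
  exact left_eq_add.mp h

theorem IsAdd.inv {A V : Type*} [Group A] [AddCommGroup V] {f : A → V} (hf : IsAdd f) (a : A) :
    f a⁻¹ = - f a := by
  have h := hf a⁻¹ a
  rw [inv_mul_cancel, hf.one] at h
  exact (neg_eq_of_add_eq_zero_left h.symm).symm

/-- The common kernel of two additive functions. -/
def Ker2 {A : Type*} [Group A] (e f : A → ℚ) (he : IsAdd e) (hf : IsAdd f) : Subgroup A where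
  carrier := {a | e a = 0 ∧ f a = 0}
  mul_mem' := by
    rintro a b ⟨h1, h2⟩ ⟨h3, h4⟩
    exact ⟨by rw [he, h1, h3, add_zero], by rw [hf, h2, h4, add_zero]⟩
  one_mem' := ⟨he.one, hf.one⟩
  inv_mem' := by
    rintro a ⟨h1, h2⟩
    exact ⟨by rw [he.inv, h1, neg_zero], by rw [hf.inv, h2, neg_zero]⟩

/-- The fibre product of two groups over a pair of additive functions to the rationals. -/
def FP {A B : Type*} [Group A] [Group B] (e f : A → ℚ) (he : IsAdd e) (hf : IsAdd f)
    (y1 y2 : B → ℚ) (h1 : IsAdd y1) (h2 : IsAdd y2) : Subgroup (A × B) where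
  carrier := {p | y1 p.2 = e p.1 ∧ y2 p.2 = f p.1}
  mul_mem' := by
    rintro a b ⟨ha1, ha2⟩ ⟨hb1, hb2⟩
    exact ⟨by rw [Prod.fst_mul, Prod.snd_mul, he, h1, ha1, hb1],
      by rw [Prod.fst_mul, Prod.snd_mul, hf, h2, ha2, hb2]⟩
  one_mem' := ⟨by rw [Prod.fst_one, Prod.snd_one, he.one, h1.one],
    by rw [Prod.fst_one, Prod.snd_one, hf.one, h2.one]⟩
  inv_mem' := by
    rintro a ⟨ha1, ha2⟩
    exact ⟨by rw [Prod.fst_inv, Prod.snd_inv, he.inv, h1.inv, ha1],
      by rw [Prod.fst_inv, Prod.snd_inv, hf.inv, h2.inv, ha2]⟩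

theorem T.isAdd_x {R : Type*} [Field R] [CharZero R] : IsAdd (T.x : T R → R) := fun _ _ => rfl
theorem T.isAdd_y {R : Type*} [Field R] [CharZero R] : IsAdd (T.y : T R → R) := fun _ _ => rfl

/-- Multiple fibre product with copies of `T ℚ`. -/
def MFP {A : Type*} [Group A] {S : Type*} (e f : S → A → ℚ) (he : ∀ s, IsAdd (e s))
    (hf : ∀ s, IsAdd (f s)) : Subgroup (A × (S → T ℚ)) where
  carrier := {p | ∀ s, (p.2 s).x = e s p.1 ∧ (p.2 s).y = f s p.1}
  mul_mem' := by
    intro a b ha hb s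
    exact ⟨by rw [Prod.fst_mul, Prod.snd_mul, he, Pi.mul_apply, T.mul_x, (ha s).1, (hb s).1],
      by rw [Prod.fst_mul, Prod.snd_mul, hf, Pi.mul_apply, T.mul_y, (ha s).2, (hb s).2]⟩
  one_mem' := by
    intro s
    exact ⟨by rw [Prod.fst_one, Prod.snd_one, (he s).one, Pi.one_apply, T.one_x],
      by rw [Prod.fst_one, Prod.snd_one, (hf s).one, Pi.one_apply, T.one_y]⟩
  inv_mem' := by
    intro a ha s
    exact ⟨by rw [Prod.fst_inv, Prod.snd_inv, (he s).inv, Pi.inv_apply, T.inv_x, (ha s).1],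
      by rw [Prod.fst_inv, Prod.snd_inv, (hf s).inv, Pi.inv_apply, T.inv_y, (ha s).2]⟩

/-- Elements of a group killed by all additive functions to the rationals. -/
def A2 (A : Type*) [Group A] : Subgroup A where
  carrier := {w | ∀ φ : A → ℚ, IsAdd φ → φ w = 0}
  mul_mem' := by
    intro a b ha hb φ hφ
    rw [hφ, ha φ hφ, hb φ hφ, add_zero]
  one_mem' := fun φ hφ => hφ.one
  inv_mem' := by
    intro a ha φ hφ
    rw [hφ.inv, ha φ hφ, neg_zero]

/-- A separation criterion: if every nontrivial element of `H` is nontrivial in some group in which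
all members of `S` are true, then all members of `S` are true in `H`. -/
theorem Sat.of_sep {S : Set QuasiId} {H : Type*} [Group H]
    (h : ∀ z : H, z ≠ 1 → ∃ (H' : Type*) (_ : Group H') (φ : H →* H'), Sat S H' ∧ φ z ≠ 1) :
    Sat S H := by
  intro σ hσ a ha
  by_contra hne
  obtain ⟨H', _, φ, hS, hz⟩ := h (FreeGroup.lift a σ.concl.1 * (FreeGroup.lift a σ.concl.2)⁻¹)
    (fun h => hne (mul_inv_eq_one.mp h))
  have key : ∀ w : FreeGroup ℕ, φ (FreeGroup.lift a w) = FreeGroup.lift (fun i => φ (a i)) w := by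
    intro w
    have : (φ.comp (FreeGroup.lift a)) = FreeGroup.lift (fun i => φ (a i)) := by
      ext i
      simp
    exact DFunLike.congr_fun this w
  apply hz
  rw [map_mul, map_inv, key, key]
  rw [mul_inv_eq_one]
  apply hS σ hσ
  intro p hp
  rw [← key, ← key, ha p hp]

/-- The commutator of two elements. -/
def cm {A : Type*} [Group A] (a b : A) : A := a * b * a⁻¹ * b⁻¹

end Pool.Agent.Helper877.QI
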