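import Pool.Agent.Helper877.QI.Base

set_option autoImplicit false

namespace Pool.Agent.Helper877.QI



theorem T.comm_minors {V : Type*} [Field V] [CharZero V] (w b : T V) (h1 : w * b = b * w) :
    w.x * b.y = w.y * b.x ∧ w.x * b.c = w.c * b.x ∧ w.y * b.c = w.c * b.y := by
  have hc := congrArg T.c h1
  have hd := congrArg T.d h1
  have he := congrArg T.e h1
  rw [T.mul_c, T.mul_c] at hc
  rw [T.mul_d, T.mul_d] at hd
  rw [T.mul_e, T.mul_e] at he
  have e1 : w.x * b.y = w.y * b.x := by
    have h2 : (2 : V) ≠ 0 := two_ne_zero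
    field_simp at hc
    have : 2 * (w.x * b.y - w.y * b.x) = 0 := by linear_combination hc
    have := (mul_eq_zero.1 this).resolve_left h2
    linear_combination this
  have e2 : w.x * b.c = w.c * b.x := by
    have h3 : w.x * b.c - w.c * b.x = 0 := by
      have h2 : (2 : V)⁻¹ * 2 = 1 := by norm_num
      linear_combination hd - (w.x * b.c - w.c * b.x) * h2
    linear_combination h3
  have e3 : w.y * b.c = w.c * b.y := by
    have h3 : w.y * b.c - w.c * b.y = 0 := by
      have h2 : (2 : V)⁻¹ * 2 = 1 := by norm_num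
      linear_combination he - (w.y * b.c - w.c * b.y) * h2
    linear_combination h3
  exact ⟨e1, e2, e3⟩

/-- An element commuting with two noncommuting elements is central. -/
theorem T.central_of_commute {V : Type*} [Field V] [CharZero V] (w b b' : T V)
    (h1 : w * b = b * w) (h2 : w * b' = b' * w) (h3 : b * b' ≠ b' * b) :
    w.x = 0 ∧ w.y = 0 ∧ w.c = 0 := by
  obtain ⟨a1, a2, a3⟩ := T.comm_minors w b h1
  obtain ⟨c1, c2, c3⟩ := T.comm_minors w b' h2
  by_contra hne
  apply h3
  have hm : b.x * b'.y = b.y * b'.x ∧ b.x * b'.c = b.c * b'.x ∧ b.y * b'.c = b.c * b'.y := by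
    by_cases hx : w.x = 0
    · by_cases hy : w.y = 0
      · by_cases hc : w.c = 0
        · exact absurd ⟨hx, hy, hc⟩ hne
        · refine ⟨mul_left_cancel₀ hc ?_, mul_left_cancel₀ hc ?_, mul_left_cancel₀ hc ?_⟩
          · linear_combination (-b'.y) * a2 + b'.x * a3 + b.c * c1
          · linear_combination (-b'.c) * a2 + b.c * c2
          · linear_combination (-b'.c) * a3 + b.c * c3
      · refine ⟨mul_left_cancel₀ hy ?_, mul_left_cancel₀ hy ?_, mul_left_cancel₀ hy ?_⟩
        · linear_combination (-b'.y) * a1 + b.y * c1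
        · linear_combination (-b'.c) * a1 - b'.x * a3 + b.y * c2
        · linear_combination (-b'.y) * a3 + b.y * c3
    · refine ⟨mul_left_cancel₀ hx ?_, mul_left_cancel₀ hx ?_, mul_left_cancel₀ hx ?_⟩
      · linear_combination (-b'.x) * a1 + b.x * c1
      · linear_combination (-b'.x) * a2 + b.x * c2
      · linear_combination b'.c * a1 - b'.y * a2 + b.x * c3
  obtain ⟨m1, m2, m3⟩ := hm
  ext
  · simp only [T.mul_x]; ring
  · simp only [T.mul_y]; ring
  · simp only [T.mul_c]
    linear_combination (2 * (2:V)⁻¹) * m1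
  · simp only [T.mul_d]
    linear_combination (2 * (2:V)⁻¹) * m2 + (0 : V) * m1
  · simp only [T.mul_e]
    linear_combination (2 * (2:V)⁻¹) * m3 + (0 : V) * m1

end Pool.Agent.Helper877.QI
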