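import Pool.Agent.Helper877.QI.Base

set_option autoImplicit false

namespace Pool.Agent.Helper877.QI


universe u v


section Ultra

open Filter

/-- The ultrapower of the rationals. -/
abbrev UV {X : Type v} (U : Ultrafilter X) : Type v := Filter.Germ (U : Filter X) ℚ

/-- The quotient map onto the group over the ultrapower. -/
def piFun {X : Type v} (U : Ultrafilter X) (F : X → T ℚ) : T (UV U) :=
  ⟨((fun x => (F x).x : X → ℚ) : Germ (U : Filter X) ℚ),
    ((fun x => (F x).y : X → ℚ) : Germ (U : Filter X) ℚ),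
    ((fun x => (F x).c : X → ℚ) : Germ (U : Filter X) ℚ),
    ((fun x => (F x).d : X → ℚ) : Germ (U : Filter X) ℚ),
    ((fun x => (F x).e : X → ℚ) : Germ (U : Filter X) ℚ)⟩

theorem piFun_mul {X : Type v} (U : Ultrafilter X) (F G : X → T ℚ) :
    piFun U (F * G) = piFun U F * piFun U G := by
  ext <;> rfl

/-- The quotient homomorphism. -/
noncomputable def piHom {X : Type v} (U : Ultrafilter X) : (X → T ℚ) →* T (UV U) :=
  MonoidHom.mk' (piFun U) (piFun_mul U)

theorem piHom_surj {X : Type v} (U : Ultrafilter X) (t : T (UV U)) :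
    ∃ F : X → T ℚ, piHom U F = t := by
  obtain ⟨a, b, c, d, e⟩ := t
  induction a using Filter.Germ.inductionOn with | _ a
  induction b using Filter.Germ.inductionOn with | _ b
  induction c using Filter.Germ.inductionOn with | _ c
  induction d using Filter.Germ.inductionOn with | _ d
  induction e using Filter.Germ.inductionOn with | _ e
  exact ⟨fun x => ⟨a x, b x, c x, d x, e x⟩, rfl⟩

theorem piHom_eq {X : Type v} (U : Ultrafilter X) (F G : X → T ℚ) :
    piHom U F = piHom U G ↔ ∀ᶠ x in (U : Filter X), F x = G x := by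
  constructor
  · intro h
    have h1 : ((fun x => (F x).x : X → ℚ) : Germ (U : Filter X) ℚ)
        = ((fun x => (G x).x : X → ℚ) : Germ (U : Filter X) ℚ) := congrArg T.x h
    have h2 : ((fun x => (F x).y : X → ℚ) : Germ (U : Filter X) ℚ)
        = ((fun x => (G x).y : X → ℚ) : Germ (U : Filter X) ℚ) := congrArg T.y h
    have h3 : ((fun x => (F x).c : X → ℚ) : Germ (U : Filter X) ℚ)
        = ((fun x => (G x).c : X → ℚ) : Germ (U : Filter X) ℚ) := congrArg T.c h
    have h4 : ((fun x => (F x).d : X → ℚ) : Germ (U : Filter X) ℚ)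
        = ((fun x => (G x).d : X → ℚ) : Germ (U : Filter X) ℚ) := congrArg T.d h
    have h5 : ((fun x => (F x).e : X → ℚ) : Germ (U : Filter X) ℚ)
        = ((fun x => (G x).e : X → ℚ) : Germ (U : Filter X) ℚ) := congrArg T.e h
    filter_upwards [Filter.Germ.coe_eq.mp h1, Filter.Germ.coe_eq.mp h2, Filter.Germ.coe_eq.mp h3,
      Filter.Germ.coe_eq.mp h4, Filter.Germ.coe_eq.mp h5] with x e1 e2 e3 e4 e5
    ext
    · exact e1
    · exact e2
    · exact e3
    · exact e4
    · exact e5
  · intro h
    have h1 : ((fun x => (F x).x : X → ℚ) : Germ (U : Filter X) ℚ)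
        = ((fun x => (G x).x : X → ℚ) : Germ (U : Filter X) ℚ) :=
      Filter.Germ.coe_eq.mpr (h.mono fun x hx => congrArg T.x hx)
    have h2 : ((fun x => (F x).y : X → ℚ) : Germ (U : Filter X) ℚ)
        = ((fun x => (G x).y : X → ℚ) : Germ (U : Filter X) ℚ) :=
      Filter.Germ.coe_eq.mpr (h.mono fun x hx => congrArg T.y hx)
    have h3 : ((fun x => (F x).c : X → ℚ) : Germ (U : Filter X) ℚ)
        = ((fun x => (G x).c : X → ℚ) : Germ (U : Filter X) ℚ) :=
      Filter.Germ.coe_eq.mpr (h.mono fun x hx => congrArg T.c hx)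
    have h4 : ((fun x => (F x).d : X → ℚ) : Germ (U : Filter X) ℚ)
        = ((fun x => (G x).d : X → ℚ) : Germ (U : Filter X) ℚ) :=
      Filter.Germ.coe_eq.mpr (h.mono fun x hx => congrArg T.d hx)
    have h5 : ((fun x => (F x).e : X → ℚ) : Germ (U : Filter X) ℚ)
        = ((fun x => (G x).e : X → ℚ) : Germ (U : Filter X) ℚ) :=
      Filter.Germ.coe_eq.mpr (h.mono fun x hx => congrArg T.e hx)
    ext
    · exact h1
    · exact h2
    · exact h3
    · exact h4
    · exact h5

theorem lift_pi {X : Type v} (F : ℕ → X → T ℚ) (w : FreeGroup ℕ) (x : X) :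
    FreeGroup.lift F w x = FreeGroup.lift (fun i => F i x) w := by
  have : (Pi.evalMonoidHom (fun _ : X => T ℚ) x).comp (FreeGroup.lift F)
      = FreeGroup.lift (fun i => F i x) := by
    ext i
    all_goals simp
  exact DFunLike.congr_fun this w

theorem lift_piHom {X : Type v} (U : Ultrafilter X) (F : ℕ → X → T ℚ) (w : FreeGroup ℕ) :
    piHom U (FreeGroup.lift F w) = FreeGroup.lift (fun i => piHom U (F i)) w := by
  have : (piHom U).comp (FreeGroup.lift F) = FreeGroup.lift (fun i => piHom U (F i)) := by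
    apply FreeGroup.ext_hom
    intro i
    simp
  exact DFunLike.congr_fun this w

theorem sat_ultra {X : Type v} (U : Ultrafilter X) : Sat (Th (T ℚ)) (T (UV U)) := by
  intro σ hσ a ha
  choose F hF using fun i => piHom_surj U (a i)
  have haF : a = fun i => piHom U (F i) := funext fun i => (hF i).symm
  subst haF
  rw [← lift_piHom, ← lift_piHom, piHom_eq]
  have h1 : ∀ p ∈ {p | p ∈ σ.hyps}, ∀ᶠ x in (U : Filter X),
      FreeGroup.lift (fun i => F i x) p.1 = FreeGroup.lift (fun i => F i x) p.2 := by
    intro p hp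
    have := ha p hp
    rw [← lift_piHom, ← lift_piHom, piHom_eq] at this
    filter_upwards [this] with x hx
    rw [← lift_pi, ← lift_pi, hx]
  have h2 := (Filter.eventually_all_finite (List.finite_toSet σ.hyps)).mpr h1
  filter_upwards [h2] with x hx
  rw [lift_pi, lift_pi]
  exact hσ (fun i => F i x) hx

theorem exists_local {G : Type u} [Group G]
    (hG : ∀ g : G, g ≠ 1 → ∃ φ : G →* T ℚ, φ g ≠ 1) {H : Type v} [Group H] (hH : Sat (Th G) H)
    (z : H) (hz : z ≠ 1) (P : Finset (H × H)) :
    ∃ θ : H → T ℚ, (∀ p ∈ P, θ (p.1 * p.2) = θ p.1 * θ p.2) ∧ θ z ≠ 1 := by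
  classical
  let S : Finset H := insert z (P.image Prod.fst ∪ P.image Prod.snd
    ∪ P.image (fun p => p.1 * p.2))
  obtain ⟨code, hcode⟩ := Set.countable_iff_exists_injOn.mp (Finset.countable_toSet S)
  have hev := hcode.leftInvOn_invFunOn
  set ev : ℕ → H := Function.invFunOn code (S : Set H) with hevdef
  let σ : QuasiId :=
    { hyps := P.toList.map (fun p => (FreeGroup.of (code p.1) * FreeGroup.of (code p.2),
        FreeGroup.of (code (p.1 * p.2))))
      concl := (FreeGroup.of (code z), 1) }
  have hnot : ¬ σ.Holds H := by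
    intro hh
    have h1 := hh ev (by
      intro q hq
      obtain ⟨p, hp, rfl⟩ := List.mem_map.mp hq
      have hp' : p ∈ P := Finset.mem_toList.mp hp
      have m1 : p.1 ∈ (S : Set H) := by
        simp only [S, Finset.coe_insert, Finset.coe_union, Finset.coe_image, Set.mem_insert_iff,
          Set.mem_union, Set.mem_image]
        exact Or.inr (Or.inl (Or.inl ⟨p, hp', rfl⟩))
      have m2 : p.2 ∈ (S : Set H) := by
        simp only [S, Finset.coe_insert, Finset.coe_union, Finset.coe_image, Set.mem_insert_iff,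
          Set.mem_union, Set.mem_image]
        exact Or.inr (Or.inl (Or.inr ⟨p, hp', rfl⟩))
      have m3 : p.1 * p.2 ∈ (S : Set H) := by
        simp only [S, Finset.coe_insert, Finset.coe_union, Finset.coe_image, Set.mem_insert_iff,
          Set.mem_union, Set.mem_image]
        exact Or.inr (Or.inr ⟨p, hp', rfl⟩)
      simp only [map_mul, FreeGroup.lift_apply_of]
      rw [hev m1, hev m2, hev m3])
    have mz : z ∈ (S : Set H) := by
      simp [S]
    simp only [σ, FreeGroup.lift_apply_of, map_one] at h1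
    rw [hev mz] at h1
    exact hz h1
  have hnG : ¬ σ.Holds G := fun h => hnot (hH σ h)
  unfold QuasiId.Holds at hnG
  push Not at hnG
  obtain ⟨g, hg1, hg2⟩ := hnG
  simp only [σ, FreeGroup.lift_apply_of, map_one] at hg2
  obtain ⟨κ, hκ⟩ := hG _ hg2
  refine ⟨fun h => κ (g (code h)), fun p hp => ?_, hκ⟩
  have := hg1 (FreeGroup.of (code p.1) * FreeGroup.of (code p.2),
        FreeGroup.of (code (p.1 * p.2)))
      (List.mem_map.mpr ⟨p, Finset.mem_toList.mpr hp, rfl⟩)
  simp only [map_mul, FreeGroup.lift_apply_of] at this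
  rw [← map_mul, this]

end Ultra


/-- Compactness: a group in the quasivariety is separated by homomorphisms to the groups `T V`
where `V` is an ultrapower of the rationals. -/
theorem exists_field_hom {G : Type u} [Group G]
    (hG : ∀ g : G, g ≠ 1 → ∃ φ : G →* T ℚ, φ g ≠ 1) {H : Type v} [Group H] (hH : Sat (Th G) H)
    (z : H) (hz : z ≠ 1) :
    ∃ (V : Type v) (_ : Field V) (_ : CharZero V), Sat (Th (T ℚ)) (T V) ∧
      ∃ φ : H →* T V, φ z ≠ 1 := by
  classical
  choose θ hθ1 hθ2 using fun P : Finset (H × H) => exists_local hG hH z hz P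
  let U : Ultrafilter (Finset (H × H)) := Ultrafilter.of Filter.atTop
  have hU : ∀ p : H × H, ∀ᶠ P in (U : Filter (Finset (H × H))), p ∈ P := by
    intro p
    have h1 : ∀ᶠ P : Finset (H × H) in Filter.atTop, p ∈ P := by
      filter_upwards [Filter.eventually_ge_atTop ({p} : Finset (H × H))] with P hP
      exact hP (Finset.mem_singleton_self p)
    exact (Ultrafilter.of_le _) h1
  refine ⟨UV U, inferInstance, inferInstance, sat_ultra U, ?_⟩
  refine ⟨MonoidHom.mk' (fun h => piHom U (fun P => θ P h)) ?_, ?_⟩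
  · intro a b
    rw [← map_mul, piHom_eq]
    filter_upwards [hU (a, b)] with P hP
    exact hθ1 P (a, b) hP
  · intro h
    have h' : piHom U (fun P => θ P z) = piHom U 1 := by
      rw [map_one]; exact h
    rw [piHom_eq] at h'
    obtain ⟨P, hP⟩ := h'.exists
    exact hθ2 P hP


end Pool.Agent.Helper877.QI
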