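import Pool.Agent.Helper877.QI.Base

set_option autoImplicit false

namespace Pool.Agent.Helper877.QI


/-- Tensors with the symmetries of a triple commutator are combinations of special ones. -/
theorem exists_tensor {n : ℕ} (S : Fin n → Fin n → Fin n → ℚ)
    (h1 : ∀ i j k, S i j k = - S i k j) (h2 : ∀ i j k, S i j k + S j k i + S k i j = 0) :
    ∃ μ : Fin n × Fin n × Fin n → ℚ, ∀ e : Fin n → Fin n → ℚ,
      (∀ i j, e i j = if i = j then 1 else 0) →
      ∀ i j k, S i j k = ∑ r : Fin n × Fin n × Fin n, μ r * (e r.1 i + e r.2.1 i) *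
        ((e r.1 j + e r.2.1 j) * e r.2.2 k - e r.2.2 j * (e r.1 k + e r.2.1 k)) := by
  obtain ⟨W, hW⟩ : ∃ W : Fin n → Fin n → ℚ, W = fun a c => (1 / 12 : ℚ) * (∑ b, S a b c + ∑ b, S b a c) :=
    ⟨_, rfl⟩
  obtain ⟨m, hm⟩ : ∃ m : Fin n → Fin n → Fin n → ℚ,
      m = fun a b c => S a b c / 3 - (if a = b then W a c else 0) := ⟨_, rfl⟩
  refine ⟨fun r => m r.1 r.2.1 r.2.2, ?_⟩
  intro e he i j k
  have L1 : ∀ (f : Fin n → ℚ) (x : Fin n), ∑ a, f a * e a x = f x := by
    intro f x
    have h3 : ∀ a, f a * e a x = if a = x then f a else 0 := by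
      intro a
      rw [he]
      split_ifs <;> simp
    rw [Finset.sum_congr rfl fun a _ => h3 a, Finset.sum_ite_eq' Finset.univ x]
    simp
  have L2 : ∀ (f : Fin n → ℚ) (x y : Fin n), ∑ a, f a * (e a x * e a y) = f x * e x y := by
    intro f x y
    have h3 : ∀ a, f a * (e a x * e a y) = (f a * e a y) * e a x := fun a => by ring
    rw [Finset.sum_congr rfl fun a _ => h3 a, L1 (fun a => f a * e a y) x]
  rw [Fintype.sum_prod_type]
  simp only [Fintype.sum_prod_type]
  have hc : ∀ a b, ∑ c, m a b c * (e a i + e b i) * ((e a j + e b j) * e c k - e c j * (e a k + e b k)) =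
      (e a i + e b i) * (e a j + e b j) * m a b k - (e a i + e b i) * (e a k + e b k) * m a b j := by
    intro a b
    have h3 : ∀ c, m a b c * (e a i + e b i) * ((e a j + e b j) * e c k - e c j * (e a k + e b k)) =
        ((e a i + e b i) * (e a j + e b j)) * (m a b c * e c k) -
        ((e a i + e b i) * (e a k + e b k)) * (m a b c * e c j) := fun c => by ring
    rw [Finset.sum_congr rfl fun c _ => h3 c, Finset.sum_sub_distrib, ← Finset.mul_sum, ← Finset.mul_sum,
      L1 (fun c => m a b c) k, L1 (fun c => m a b c) j]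
  have hQ : ∀ y z : Fin n, ∑ a, ∑ b, (e a i + e b i) * (e a y + e b y) * m a b z =
      (∑ b, m i b z + ∑ a, m a i z) * e i y + m i y z + m y i z := by
    intro y z
    have h4 : ∀ a, ∑ b, (e a i + e b i) * (e a y + e b y) * m a b z =
        (∑ b, m a b z) * (e a i * e a y) + m a y z * e a i + m a i z * e a y + m a i z * e i y := by
      intro a
      have h5 : ∀ b, (e a i + e b i) * (e a y + e b y) * m a b z =
          (e a i * e a y) * m a b z + e a i * (m a b z * e b y) + e a y * (m a b z * e b i) +
            m a b z * (e b i * e b y) := fun b => by ring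
      rw [Finset.sum_congr rfl fun b _ => h5 b, Finset.sum_add_distrib, Finset.sum_add_distrib,
        Finset.sum_add_distrib, ← Finset.mul_sum, ← Finset.mul_sum, ← Finset.mul_sum,
        L1 (fun b => m a b z) y, L1 (fun b => m a b z) i, L2 (fun b => m a b z) i y]
      ring
    rw [Finset.sum_congr rfl fun a _ => h4 a, Finset.sum_add_distrib, Finset.sum_add_distrib,
      Finset.sum_add_distrib, L2 (fun a => ∑ b, m a b z) i y, L1 (fun a => m a y z) i,
      L1 (fun a => m a i z) y, ← Finset.sum_mul]
    ring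
  have hM : ∀ x z : Fin n, ∑ b, m x b z + ∑ a, m a x z = 2 * W x z := by
    intro x z
    rw [hm]
    simp only []
    rw [Finset.sum_sub_distrib, Finset.sum_sub_distrib, Finset.sum_ite_eq Finset.univ x,
      Finset.sum_ite_eq' Finset.univ x, ← Finset.sum_div, ← Finset.sum_div]
    simp only [Finset.mem_univ, if_true]
    rw [hW]
    ring
  have hmm : ∀ y z : Fin n, m i y z + m y i z = (S i y z + S y i z) / 3 - 2 * W i z * e i y := by
    intro y z
    rw [hm, he]
    simp only []
    by_cases h6 : i = y
    · subst h6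
      simp only [if_true]
      ring
    · have h7 : ¬ y = i := fun h => h6 h.symm
      simp only [h6, h7, if_false]
      ring
  simp only [hc, Finset.sum_sub_distrib, hQ, hM]
  have e1 := hmm j k
  have e2 := hmm k j
  have e3 := h1 i j k
  have e4 := h1 j i k
  have e5 := h2 i j k
  linarith

end Pool.Agent.Helper877.QI
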