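import Pool.Agent.Helper877.QI.Base

set_option autoImplicit false

namespace Pool.Agent.Helper877.QI


/-- data for the twisted product -/
structure h16718_Dat (A V : Type*) [Group A] [Field V] [CharZero V] where
  N : Subgroup A
  hN : ∀ a b : A, cm a b ∈ N
  l : A → V
  hadd : ∀ m ∈ N, ∀ n ∈ N, l (m * n) = l m + l n
  hconj : ∀ a, ∀ n ∈ N, l (a * n * a⁻¹) = l n

namespace h16718_Dat

variable {A V : Type*} [Group A] [Field V] [CharZero V] (D : h16718_Dat A V)

/-- half of the twist -/
noncomputable def f (a b : A) : V := (2:V)⁻¹ * D.l (cm a b)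

theorem l_one : D.l 1 = 0 := by
  have h := D.hadd 1 D.N.one_mem 1 D.N.one_mem
  rw [mul_one] at h
  exact left_eq_add.mp h

theorem l_inv (n : A) (hn : n ∈ D.N) : D.l n⁻¹ = - D.l n := by
  have h := D.hadd n⁻¹ (D.N.inv_mem hn) n hn
  rw [inv_mul_cancel, D.l_one] at h
  exact (neg_eq_of_add_eq_zero_left h.symm).symm

theorem conj_mem (a n : A) (hn : n ∈ D.N) : a * n * a⁻¹ ∈ D.N := by
  have h : a * n * a⁻¹ = cm a n * n := by
    unfold cm
    group
  rw [h]
  exact D.N.mul_mem (D.hN a n) hn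

theorem f_add_left (a a' b : A) : D.f (a * a') b = D.f a b + D.f a' b := by
  unfold f
  have h : cm (a * a') b = (a * cm a' b * a⁻¹) * cm a b := by
    unfold cm
    group
  rw [h, D.hadd _ (D.conj_mem a _ (D.hN a' b)) _ (D.hN a b), D.hconj a _ (D.hN a' b)]
  ring

theorem f_symm (a b : A) : D.f b a = - D.f a b := by
  unfold f
  have h : cm b a = (cm a b)⁻¹ := by
    unfold cm
    group
  rw [h, D.l_inv _ (D.hN a b)]
  ring

theorem f_add_right (a b b' : A) : D.f a (b * b') = D.f a b + D.f a b' := by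
  rw [D.f_symm, D.f_add_left, D.f_symm a b, D.f_symm a b']
  ring

theorem f_self (a : A) : D.f a a = 0 := by
  unfold f
  have h : cm a a = 1 := by
    unfold cm
    group
  rw [h, D.l_one, mul_zero]

theorem f_one_left (a : A) : D.f 1 a = 0 := by
  unfold f
  have h : cm 1 a = 1 := by
    unfold cm
    group
  rw [h, D.l_one, mul_zero]

theorem f_one_right (a : A) : D.f a 1 = 0 := by
  rw [D.f_symm, D.f_one_left, neg_zero]

theorem f_inv_right (a b : A) : D.f a b⁻¹ = - D.f a b := by
  have h := D.f_add_right a b⁻¹ b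
  rw [inv_mul_cancel, D.f_one_right] at h
  exact (neg_eq_of_add_eq_zero_left h.symm).symm

theorem f_inv_left (a b : A) : D.f a⁻¹ b = - D.f a b := by
  rw [D.f_symm, D.f_inv_right, D.f_symm a b, neg_neg]

theorem f_N_left (n b : A) (hn : n ∈ D.N) : D.f n b = 0 := by
  unfold f
  have h : cm n b = n * (b * n⁻¹ * b⁻¹) := by
    unfold cm
    group
  have hni := D.N.inv_mem hn
  rw [h, D.hadd n hn _ (D.conj_mem b _ hni), D.hconj b _ hni, D.l_inv n hn, add_neg_cancel,
    mul_zero]

end h16718_Dat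

/-- the twisted product -/
@[ext] structure h16718_E {A V : Type*} [Group A] [Field V] [CharZero V] (D : h16718_Dat A V) where
  a : A
  v : V

namespace h16718_E

variable {A V : Type*} [Group A] [Field V] [CharZero V] {D : h16718_Dat A V}

noncomputable instance : Mul (h16718_E D) := ⟨fun p r => ⟨p.a * r.a, p.v + r.v + D.f p.a r.a⟩⟩
instance : One (h16718_E D) := ⟨⟨1, 0⟩⟩
instance : Inv (h16718_E D) := ⟨fun p => ⟨p.a⁻¹, -p.v⟩⟩

theorem mul_a (p r : h16718_E D) : (p * r).a = p.a * r.a := rfl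
theorem mul_v (p r : h16718_E D) : (p * r).v = p.v + r.v + D.f p.a r.a := rfl
theorem one_a : (1 : h16718_E D).a = 1 := rfl
theorem one_v : (1 : h16718_E D).v = 0 := rfl
theorem inv_a (p : h16718_E D) : (p⁻¹).a = p.a⁻¹ := rfl
theorem inv_v (p : h16718_E D) : (p⁻¹).v = -p.v := rfl

noncomputable instance : Group (h16718_E D) where
  mul_assoc p r t := by
    ext
    · simp only [mul_a, mul_assoc]
    · simp only [mul_v, mul_a, D.f_add_left, D.f_add_right]
      ring
  one_mul p := by
    ext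
    · simp only [mul_a, one_a, one_mul]
    · simp only [mul_v, one_a, one_v, D.f_one_left]
      ring
  mul_one p := by
    ext
    · simp only [mul_a, one_a, mul_one]
    · simp only [mul_v, one_a, one_v, D.f_one_right]
      ring
  inv_mul_cancel p := by
    ext
    · simp only [mul_a, inv_a, one_a, inv_mul_cancel]
    · simp only [mul_v, inv_v, inv_a, one_v, D.f_inv_left, D.f_self]
      ring

/-- the graph of `l` on `N` -/
def Ng (D : h16718_Dat A V) : Subgroup (h16718_E D) where
  carrier := {p | p.a ∈ D.N ∧ p.v = D.l p.a}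
  mul_mem' := by
    rintro p r ⟨h1, h2⟩ ⟨h3, h4⟩
    refine ⟨D.N.mul_mem h1 h3, ?_⟩
    rw [mul_v, mul_a, D.hadd _ h1 _ h3, h2, h4, D.f_N_left _ _ h1, add_zero]
  one_mem' := ⟨D.N.one_mem, D.l_one.symm⟩
  inv_mem' := by
    rintro p ⟨h1, h2⟩
    refine ⟨D.N.inv_mem h1, ?_⟩
    rw [inv_v, inv_a, D.l_inv _ h1, h2]

theorem mem_Ng (p : h16718_E D) : p ∈ Ng D ↔ p.a ∈ D.N ∧ p.v = D.l p.a := Iff.rfl

theorem comm_mem (p r : h16718_E D) : p * r * p⁻¹ * r⁻¹ ∈ Ng D := by
  rw [mem_Ng]
  have h1 : (p * r * p⁻¹ * r⁻¹).a = cm p.a r.a := rfl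
  refine ⟨by rw [h1]; exact D.hN _ _, ?_⟩
  rw [h1]
  simp only [mul_v, inv_v, mul_a, inv_a, D.f_add_left, D.f_inv_left, D.f_inv_right, D.f_self]
  have h2 : D.l (cm p.a r.a) = 2 * D.f p.a r.a := by
    unfold h16718_Dat.f
    ring
  rw [h2, D.f_symm p.a r.a]
  ring

instance : (Ng D).Normal := by
  constructor
  intro n hn g
  have h : g * n * g⁻¹ = (g * n * g⁻¹ * n⁻¹) * n := by group
  rw [h]
  exact (Ng D).mul_mem (comm_mem g n) hn

end h16718_E

/-- The twisting lemma: an additive conjugation-invariant function on a subgroup containing all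
commutators extends to a function on the group which is additive up to half its value on the
commutator. -/
theorem exists_quad {A : Type*} [Group A] {V : Type*} [Field V] [CharZero V] (N : Subgroup A)
    (hN : ∀ a b : A, cm a b ∈ N) (l : A → V)
    (hadd : ∀ m ∈ N, ∀ n ∈ N, l (m * n) = l m + l n)
    (hconj : ∀ a, ∀ n ∈ N, l (a * n * a⁻¹) = l n) :
    ∃ h : A → V, (∀ a b, h (a * b) = h a + h b + (2:V)⁻¹ * l (cm a b)) ∧ ∀ n ∈ N, h n = l n := by
  let D : h16718_Dat A V := ⟨N, hN, l, hadd, hconj⟩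
  let Q := h16718_E D ⧸ h16718_E.Ng D
  letI : CommGroup Q :=
    { (inferInstance : Group (h16718_E D ⧸ h16718_E.Ng D)) with
      mul_comm := by
        intro x y
        induction x using QuotientGroup.induction_on with
        | H p =>
          induction y using QuotientGroup.induction_on with
          | H r =>
            rw [← QuotientGroup.mk_mul, ← QuotientGroup.mk_mul, QuotientGroup.eq]
            have h : (p * r)⁻¹ * (r * p) = r⁻¹ * p⁻¹ * (r⁻¹)⁻¹ * (p⁻¹)⁻¹ := by group
            rw [h]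
            exact h16718_E.comm_mem _ _ }
  let π : h16718_E D →* Q := QuotientGroup.mk' (h16718_E.Ng D)
  have hπ : ∀ p : h16718_E D, π p = 1 ↔ p ∈ h16718_E.Ng D := by
    intro p
    exact QuotientGroup.eq_one_iff p
  let i : V →+ Additive Q :=
    { toFun := fun v => Additive.ofMul (π ⟨1, v⟩)
      map_zero' := by
        have : (⟨1, 0⟩ : h16718_E D) = 1 := rfl
        rw [this, map_one]
        rfl
      map_add' := by
        intro v w
        rw [← ofMul_mul, ← map_mul]
        congr 2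
        ext
        · simp [h16718_E.mul_a]
        · simp [h16718_E.mul_v, D.f_one_left] }
  have hi : Function.Injective i := by
    rw [injective_iff_map_eq_zero]
    intro v hv
    have h1 : π ⟨1, v⟩ = 1 := hv
    rw [hπ, h16718_E.mem_Ng] at h1
    have h2 := h1.2
    simp only at h2
    rw [h2]
    exact D.l_one
  obtain ⟨ρ, hρ⟩ := (Module.Baer.of_divisible V).extension_property_addMonoidHom i hi
    (AddMonoidHom.id V)
  let r : h16718_E D → V := fun p => ρ (Additive.ofMul (π p))
  have hr : ∀ p s, r (p * s) = r p + r s := by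
    intro p s
    simp only [r]
    rw [map_mul, ofMul_mul, map_add]
  have hr1 : ∀ v, r ⟨1, v⟩ = v := by
    intro v
    exact DFunLike.congr_fun hρ v
  have hrN : ∀ p ∈ h16718_E.Ng D, r p = 0 := by
    intro p hp
    simp only [r]
    rw [(hπ p).mpr hp, ofMul_one, map_zero]
  refine ⟨fun a => - r ⟨a, 0⟩, ?_, ?_⟩
  · intro a b
    have h1 : (⟨a, 0⟩ : h16718_E D) * ⟨b, 0⟩ = ⟨a * b, 0⟩ * ⟨1, D.f a b⟩ := by
      ext
      · simp [h16718_E.mul_a]
      · simp [h16718_E.mul_v, D.f_one_right]
    have h2 := hr ⟨a, 0⟩ ⟨b, 0⟩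
    rw [h1, hr, hr1] at h2
    have h3 : (2:V)⁻¹ * l (cm a b) = D.f a b := rfl
    rw [h3]
    simp only
    linear_combination -h2
  · intro n hn
    have h1 : (⟨n, D.l n⟩ : h16718_E D) = ⟨n, 0⟩ * ⟨1, D.l n⟩ := by
      ext
      · simp [h16718_E.mul_a]
      · simp [h16718_E.mul_v, D.f_one_right]
    have h2 : r ⟨n, D.l n⟩ = 0 := hrN _ ⟨hn, rfl⟩
    rw [h1, hr, hr1] at h2
    simp only
    have h3 : D.l n = l n := rfl
    rw [h3] at h2
    linear_combination -h2

end Pool.Agent.Helper877.QI
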