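import Pool.Agent.Helper877.QI.Base
import Pool.Agent.Helper877.QI.Twist
import Pool.Agent.Helper877.QI.Tensor

set_option autoImplicit false

namespace Pool.Agent.Helper877.QI




theorem hh_cm_mem {A : Type*} [Group A] (a b : A) : cm a b ∈ A2 A := by
  intro φ hφ
  unfold cm
  rw [hφ, hφ, hφ, hφ.inv, hφ.inv]
  ring

theorem hh_cm_inv {A : Type*} [Group A] (a b : A) : cm b a = (cm a b)⁻¹ := by
  unfold cm
  group

theorem hh_left {A : Type*} [Group A] (a b w : A) (hc : ∀ g : A, g * cm b w = cm b w * g) :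
    cm (a * b) w = cm b w * cm a w := by
  have h1 : cm (a * b) w = (a * cm b w) * w * a⁻¹ * w⁻¹ := by
    unfold cm
    group
  rw [h1, hc a]
  unfold cm
  group

theorem hh_right {A : Type*} [Group A] (a w w' : A) (hc : ∀ g : A, g * cm a w' = cm a w' * g) :
    cm a (w * w') = cm a w * cm a w' := by
  have h1 : cm a (w * w') = cm a w * (w * cm a w') * w⁻¹ := by
    unfold cm
    group
  rw [h1, hc w]
  group

theorem hh_central {A : Type*} [Group A] (a z : A) (hc : ∀ g : A, g * z = z * g) :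
    cm a z = 1 := by
  unfold cm
  rw [hc a]
  group

theorem hh_conj {A : Type*} [Group A]
    (hcen : ∀ w ∈ A2 A, ∀ a b : A, b * cm a w = cm a w * b) (a b w : A) (hw : w ∈ A2 A) :
    cm a (b * w * b⁻¹) = cm a w := by
  have h1 : b * w * b⁻¹ = cm b w * w := by
    unfold cm
    group
  rw [h1, hh_right a (cm b w) w (hcen w hw a), hh_central a (cm b w) (hcen w hw b), one_mul]

theorem hh_HW {A : Type*} [Group A] (x y z : A) :
    cm (cm x y) (y * z * y⁻¹) * cm (cm y z) (z * x * z⁻¹) * cm (cm z x) (x * y * x⁻¹) = 1 := by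
  unfold cm
  group

/-- First part of the core construction. -/
theorem exists_h {A : Type*} [Group A] {n : ℕ} (x : Fin n → A) (e : Fin n → A → ℚ)
    (he : ∀ i, IsAdd (e i)) (hdual : ∀ i j, e i (x j) = if i = j then 1 else 0)
    (hspan : ∀ φ : A → ℚ, IsAdd φ → ∀ a, φ a = ∑ i, φ (x i) * e i a)
    (hcen : ∀ w ∈ A2 A, ∀ a b : A, b * cm a w = cm a w * b)
    (p : A → ℚ) (hp : ∀ w ∈ A2 A, ∀ w' ∈ A2 A, p (w * w') = p w + p w') :
    ∃ (h : Fin n → A → ℚ) (μ : Fin n × Fin n × Fin n → ℚ),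
      (∀ i a b, h i (a * b) = h i a + h i b + (2:ℚ)⁻¹ * ∑ r, μ r * (e r.1 (x i) + e r.2.1 (x i)) *
        ((e r.1 a + e r.2.1 a) * e r.2.2 b - e r.2.2 a * (e r.1 b + e r.2.1 b))) ∧
      (∀ i, ∀ w ∈ A2 A, h i w = p (cm (x i) w)) ∧
      (∀ a, ∀ w ∈ A2 A, p (cm a w) = ∑ i, e i a * p (cm (x i) w)) := by
  classical
  have p1 : p 1 = 0 := by
    have h := hp 1 (A2 A).one_mem 1 (A2 A).one_mem
    rw [mul_one] at h
    exact left_eq_add.mp h
  have pinv : ∀ w ∈ A2 A, p w⁻¹ = - p w := by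
    intro w hw
    have h := hp w⁻¹ ((A2 A).inv_mem hw) w hw
    rw [inv_mul_cancel, p1] at h
    linarith
  -- additivity of B(a, w) = p (cm a w) in a
  have Ba : ∀ w ∈ A2 A, IsAdd (fun a => p (cm a w)) := by
    intro w hw a b
    show p (cm (a * b) w) = p (cm a w) + p (cm b w)
    rw [hh_left a b w (hcen w hw b), hp _ (hh_cm_mem _ _) _ (hh_cm_mem _ _), add_comm]
  have Bw : ∀ a, ∀ w ∈ A2 A, ∀ w' ∈ A2 A, p (cm a (w * w')) = p (cm a w) + p (cm a w') := by
    intro a w hw w' hw'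
    rw [hh_right a w w' (hcen w' hw' a), hp _ (hh_cm_mem _ _) _ (hh_cm_mem _ _)]
  have Bconj : ∀ a b, ∀ w ∈ A2 A, p (cm a (b * w * b⁻¹)) = p (cm a w) := by
    intro a b w hw
    rw [hh_conj hcen a b w hw]
  have conjmem : ∀ b, ∀ w ∈ A2 A, b * w * b⁻¹ ∈ A2 A := by
    intro b w hw φ hφ
    rw [hφ, hφ, hφ.inv, hw φ hφ]
    ring
  have h3 : ∀ a, ∀ w ∈ A2 A, p (cm a w) = ∑ i, e i a * p (cm (x i) w) := by
    intro a w hw
    have h : p (cm a w) = ∑ i, p (cm (x i) w) * e i a := hspan _ (Ba w hw) a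
    rw [h]
    exact Finset.sum_congr rfl (fun i _ => mul_comm _ _)
  -- the trilinear form
  have Fa : ∀ u b, IsAdd (fun a => p (cm u (cm a b))) := by
    intro u b a a'
    show p (cm u (cm (a * a') b)) = p (cm u (cm a b)) + p (cm u (cm a' b))
    have h1 : cm (a * a') b = (a * cm a' b * a⁻¹) * cm a b := by
      unfold cm
      group
    rw [h1, Bw u _ (conjmem a _ (hh_cm_mem a' b)) _ (hh_cm_mem a b), Bconj u a _ (hh_cm_mem a' b),
      add_comm]
  have Fb : ∀ u a, IsAdd (fun b => p (cm u (cm a b))) := by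
    intro u a b b'
    show p (cm u (cm a (b * b'))) = p (cm u (cm a b)) + p (cm u (cm a b'))
    have h1 : cm a (b * b') = cm a b * (b * cm a b' * b⁻¹) := by
      unfold cm
      group
    rw [h1, Bw u _ (hh_cm_mem a b) _ (conjmem b _ (hh_cm_mem a b')), Bconj u b _ (hh_cm_mem a b')]
  have Fexp : ∀ u a b, p (cm u (cm a b)) =
      ∑ j, ∑ k, p (cm u (cm (x j) (x k))) * e j a * e k b := by
    intro u a b
    have h : p (cm u (cm a b)) = ∑ j, p (cm u (cm (x j) b)) * e j a := hspan _ (Fa u b) a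
    rw [h]
    apply Finset.sum_congr rfl
    intro j _
    have h' : p (cm u (cm (x j) b)) = ∑ k, p (cm u (cm (x j) (x k))) * e k b :=
      hspan _ (Fb u (x j)) b
    rw [h', Finset.sum_mul]
    apply Finset.sum_congr rfl
    intro k _
    ring
  have hanti : ∀ u a b, p (cm u (cm a b)) = - p (cm u (cm b a)) := by
    intro u a b
    have h := Bw u (cm a b) (hh_cm_mem a b) (cm b a) (hh_cm_mem b a)
    rw [hh_cm_inv a b, mul_inv_cancel, hh_central u 1 (by intro g; rw [mul_one, one_mul]), p1,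
      ← hh_cm_inv a b] at h
    linarith
  have hjac : ∀ a b c, p (cm a (cm b c)) + p (cm b (cm c a)) + p (cm c (cm a b)) = 0 := by
    intro a b c
    have h := congrArg p (hh_HW a b c)
    rw [hp _ ((A2 A).mul_mem (hh_cm_mem _ _) (hh_cm_mem _ _)) _ (hh_cm_mem _ _),
      hp _ (hh_cm_mem _ _) _ (hh_cm_mem _ _), p1] at h
    have key : ∀ w ∈ A2 A, ∀ u g : A, p (cm w (u * g * u⁻¹)) = - p (cm g w) := by
      intro w hw u g
      rw [hh_cm_inv (u * g * u⁻¹) w, pinv _ (hh_cm_mem _ _)]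
      have h5 := Ba w hw
      have h6 := h5 (u * g) u⁻¹
      have h7 := h5 u g
      have h8 := h5.inv u
      simp only at h6 h7 h8
      rw [h6, h7, h8]
      ring
    rw [key _ (hh_cm_mem a b), key _ (hh_cm_mem b c), key _ (hh_cm_mem c a)] at h
    linarith
  obtain ⟨μ, hμ⟩ := exists_tensor (fun i j k => p (cm (x i) (cm (x j) (x k))))
    (fun i j k => hanti _ _ _) (fun i j k => hjac _ _ _)
  have hμ' : ∀ i j k, p (cm (x i) (cm (x j) (x k))) =
      ∑ r : Fin n × Fin n × Fin n, μ r * (e r.1 (x i) + e r.2.1 (x i)) *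
        ((e r.1 (x j) + e r.2.1 (x j)) * e r.2.2 (x k) -
          e r.2.2 (x j) * (e r.1 (x k) + e r.2.1 (x k))) := hμ (fun i j => e i (x j)) hdual
  have hq : ∀ i, ∃ h : A → ℚ, (∀ a b, h (a * b) = h a + h b + (2:ℚ)⁻¹ * p (cm (x i) (cm a b))) ∧
      ∀ w ∈ A2 A, h w = p (cm (x i) w) := by
    intro i
    exact exists_quad (A2 A) hh_cm_mem (fun w => p (cm (x i) w)) (Bw (x i))
      (fun a w hw => Bconj (x i) a w hw)
  choose h hh1 hh2 using hq
  refine ⟨h, μ, ?_, hh2, h3⟩
  intro i a b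
  rw [hh1 i a b, Fexp]
  congr 2
  have hs : ∀ s a, ∑ j, e s (x j) * e j a = e s a := fun s a => (hspan (e s) (he s) a).symm
  calc ∑ j, ∑ k, p (cm (x i) (cm (x j) (x k))) * e j a * e k b
      = ∑ j, ∑ k, ∑ r : Fin n × Fin n × Fin n, μ r * (e r.1 (x i) + e r.2.1 (x i)) *
        (((e r.1 (x j) * e j a) + (e r.2.1 (x j) * e j a)) * (e r.2.2 (x k) * e k b) -
          (e r.2.2 (x j) * e j a) * ((e r.1 (x k) * e k b) + (e r.2.1 (x k) * e k b))) := by
        apply Finset.sum_congr rfl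
        intro j _
        apply Finset.sum_congr rfl
        intro k _
        rw [hμ' i j k, Finset.sum_mul, Finset.sum_mul]
        apply Finset.sum_congr rfl
        intro r _
        ring
    _ = ∑ r : Fin n × Fin n × Fin n, ∑ j, ∑ k, μ r * (e r.1 (x i) + e r.2.1 (x i)) *
        (((e r.1 (x j) * e j a) + (e r.2.1 (x j) * e j a)) * (e r.2.2 (x k) * e k b) -
          (e r.2.2 (x j) * e j a) * ((e r.1 (x k) * e k b) + (e r.2.1 (x k) * e k b))) := by
        symm
        rw [Finset.sum_comm]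
        apply Finset.sum_congr rfl
        intro j _
        rw [Finset.sum_comm]
    _ = ∑ r : Fin n × Fin n × Fin n, μ r * (e r.1 (x i) + e r.2.1 (x i)) *
        ((e r.1 a + e r.2.1 a) * e r.2.2 b - e r.2.2 a * (e r.1 b + e r.2.1 b)) := by
        apply Finset.sum_congr rfl
        intro r _
        rw [← hs r.1 a, ← hs r.2.1 a, ← hs r.2.2 b, ← hs r.2.2 a, ← hs r.1 b, ← hs r.2.1 b,
          ← Finset.sum_add_distrib, ← Finset.sum_add_distrib, Finset.sum_mul_sum,
          Finset.sum_mul_sum, ← Finset.sum_sub_distrib, Finset.mul_sum]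
        apply Finset.sum_congr rfl
        intro j _
        rw [← Finset.sum_sub_distrib, Finset.mul_sum]

end Pool.Agent.Helper877.QI
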