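import Pool.Agent.Helper877.QI.Base
import Pool.Agent.Helper877.QI.Twist

set_option autoImplicit false

namespace Pool.Agent.Helper877.QI



theorem T_conj_c (γ u : T ℚ) (hu : u.x = 0) : (γ * u * γ⁻¹).c = u.c + γ.x * u.y := by
  simp only [T.mul_c, T.mul_x, T.mul_y, T.inv_x, T.inv_y, T.inv_c, hu]
  ring

theorem T_conj_d (γ u : T ℚ) (hu : u.x = 0) (hu' : u.y = 0) :
    (γ * u * γ⁻¹).d = u.d + γ.x * u.c := by
  simp only [T.mul_d, T.mul_c, T.mul_x, T.mul_y, T.inv_x, T.inv_y, T.inv_c, T.inv_d, hu, hu']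
  ring

theorem cm_mem_A2_o {A : Type*} [Group A] (a b : A) : cm a b ∈ A2 A := fun φ hφ => by
  unfold cm
  rw [hφ, hφ, hφ, hφ.inv, hφ.inv]
  ring

/-- an additive function on `E` vanishing on the preimage of `A2 A` is a combination of the
`e i ∘ α` -/
theorem add_descend {A E : Type*} [Group A] [Group E] {n : ℕ} (x : Fin n → A)
    (e : Fin n → A → ℚ)
    (hspan : ∀ φ : A → ℚ, IsAdd φ → ∀ a, φ a = ∑ i, φ (x i) * e i a)
    (α : E →* A) (hsurj : Function.Surjective α) (y : Fin n → E) (hy : ∀ i, α (y i) = x i)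
    (F : E → ℚ) (hF : IsAdd F) (h0 : ∀ m : E, α m ∈ A2 A → F m = 0) (g : E) :
    F g = ∑ i, F (y i) * e i (α g) := by
  have hw : ∀ g g' : E, α g = α g' → F g = F g' := by
    intro g g' hgg
    have h1 : α (g * g'⁻¹) = 1 := by rw [map_mul, map_inv, hgg, mul_inv_cancel]
    have h2 : F (g * g'⁻¹) = 0 := h0 _ (by rw [h1]; exact (A2 A).one_mem)
    rw [hF, hF.inv] at h2
    linarith
  let φ : A → ℚ := fun b => F (Function.surjInv hsurj b)
  have hφ : ∀ g, φ (α g) = F g := fun g => hw _ _ (Function.surjInv_eq hsurj _)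
  have hφa : IsAdd φ := by
    intro b c
    have h1 : F (Function.surjInv hsurj (b * c)) =
        F (Function.surjInv hsurj b * Function.surjInv hsurj c) := by
      apply hw
      rw [Function.surjInv_eq hsurj, map_mul, Function.surjInv_eq hsurj,
        Function.surjInv_eq hsurj]
    show F (Function.surjInv hsurj (b * c)) = _
    rw [h1, hF]
  rw [← hφ g, hspan φ hφa (α g)]
  refine Finset.sum_congr rfl fun i _ => ?_
  rw [← hy i, hφ]

/-- Second part of the core construction. -/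
theorem exists_q {A : Type*} [Group A] {n : ℕ} (x : Fin n → A) (e : Fin n → A → ℚ)
    (he : ∀ i, IsAdd (e i)) (hdual : ∀ i j, e i (x j) = if i = j then 1 else 0)
    (hspan : ∀ φ : A → ℚ, IsAdd φ → ∀ a, φ a = ∑ i, φ (x i) * e i a)
    (hcen : ∀ w ∈ A2 A, ∀ a b : A, b * cm a w = cm a w * b)
    (p : A → ℚ) (hp : ∀ w ∈ A2 A, ∀ w' ∈ A2 A, p (w * w') = p w + p w')
    (h : Fin n → A → ℚ) (μ : Fin n × Fin n × Fin n → ℚ)
    (h1 : ∀ i a b, h i (a * b) = h i a + h i b +
      (2:ℚ)⁻¹ * ∑ r, μ r * (e r.1 (x i) + e r.2.1 (x i)) *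
        ((e r.1 a + e r.2.1 a) * e r.2.2 b - e r.2.2 a * (e r.1 b + e r.2.1 b)))
    (h2 : ∀ i, ∀ w ∈ A2 A, h i w = p (cm (x i) w))
    (h3 : ∀ a, ∀ w ∈ A2 A, p (cm a w) = ∑ i, e i a * p (cm (x i) w))
    {E1 E2 : Type*} [Group E1] [Group E2] (π : E1 →* A)
    (t : Fin n × Fin n × Fin n → E1 →* T ℚ)
    (htx : ∀ r g, (t r g).x = e r.1 (π g) + e r.2.1 (π g))
    (hty : ∀ r g, (t r g).y = e r.2.2 (π g))
    (ρ : E2 →* E1) (hsurj : Function.Surjective (fun g => π (ρ g))) (τ : Fin n → E2 →* T ℚ)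
    (hτx : ∀ i g, (τ i g).x = e i (π (ρ g)))
    (hτy : ∀ i g, (τ i g).y =
      h i (π (ρ g)) - ∑ r, μ r * (e r.1 (x i) + e r.2.1 (x i)) * (t r (ρ g)).c) :
    ∃ q : E2 → ℚ, IsAdd q ∧ ∀ g, π (ρ g) ∈ A2 A → (∀ r, t r (ρ g) = 1) → (∀ i, τ i g = 1) →
      q g = p (π (ρ g)) := by
  classical
  let α : E2 →* A := π.comp ρ
  have hα : ∀ g, α g = π (ρ g) := fun g => rfl
  have hαs : Function.Surjective α := hsurj
  let M : Subgroup E2 := (A2 A).comap α
  have hM : ∀ g, g ∈ M ↔ α g ∈ A2 A := fun g => Iff.rfl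
  have hMe : ∀ g ∈ M, ∀ i, e i (π (ρ g)) = 0 := fun g hg i => hg (e i) (he i)
  let P : E2 → ℚ := fun g => p (α g) - ∑ i, (τ i g).c - ∑ r, μ r * (t r (ρ g)).d
  have hPdef : ∀ g, P g = p (α g) - ∑ i, (τ i g).c - ∑ r, μ r * (t r (ρ g)).d := fun g => rfl
  have hPadd : ∀ m ∈ M, ∀ n ∈ M, P (m * n) = P m + P n := by
    intro m hm n hn
    have e1 : p (α (m * n)) = p (α m) + p (α n) := by rw [map_mul]; exact hp _ hm _ hn
    have e2 : ∀ i, (τ i (m * n)).c = (τ i m).c + (τ i n).c := by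
      intro i
      rw [map_mul, T.mul_c, hτx, hτx, hMe m hm i, hMe n hn i]
      ring
    have e3 : ∀ r, (t r (ρ (m * n))).d = (t r (ρ m)).d + (t r (ρ n)).d := by
      intro r
      rw [map_mul, map_mul, T.mul_d, htx, htx, hMe m hm, hMe n hn, hMe m hm, hMe n hn]
      ring
    simp only [hPdef, e1, e2, e3, mul_add, Finset.sum_add_distrib]
    ring
  have hcmM : ∀ g g' : E2, cm g g' ∈ M := by
    intro g g'
    rw [hM]
    have : α (cm g g') = cm (α g) (α g') := by simp [cm]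
    rw [this]; exact cm_mem_A2_o _ _
  have hPconj : ∀ g, ∀ w ∈ M, P (g * w * g⁻¹) = P w := by
    intro g w hw
    have e1 : p (α (g * w * g⁻¹)) = p (α w) + ∑ i, e i (α g) * p (cm (x i) (α w)) := by
      have : α (g * w * g⁻¹) = cm (α g) (α w) * α w := by simp [cm]
      rw [this, hp _ (cm_mem_A2_o _ _) _ hw, h3 _ _ hw]
      ring
    have e2 : ∀ i, (τ i (g * w * g⁻¹)).c = (τ i w).c + e i (α g) * (p (cm (x i) (α w))
        - ∑ r, μ r * (e r.1 (x i) + e r.2.1 (x i)) * (t r (ρ w)).c) := by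
      intro i
      simp only [hα]
      rw [map_mul, map_mul, map_inv, T_conj_c _ _ (by rw [hτx]; exact hMe w hw i), hτx, hτy,
        h2 i (π (ρ w)) hw]
    have e3 : ∀ r, (t r (ρ (g * w * g⁻¹))).d = (t r (ρ w)).d +
        (e r.1 (α g) + e r.2.1 (α g)) * (t r (ρ w)).c := by
      intro r
      simp only [hα]
      rw [map_mul, map_mul, map_inv, map_mul, map_mul, map_inv,
        T_conj_d _ _ (by rw [htx, hMe w hw, hMe w hw]; ring) (by rw [hty]; exact hMe w hw _), htx]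
    have e4 : ∀ k, e k (α g) = ∑ i, e k (x i) * e i (α g) := fun k => hspan (e k) (he k) _
    have e5 : ∑ r, μ r * ((e r.1 (α g) + e r.2.1 (α g)) * (t r (ρ w)).c) =
        ∑ i, e i (α g) * ∑ r, μ r * (e r.1 (x i) + e r.2.1 (x i)) * (t r (ρ w)).c := by
      have : ∀ i, e i (α g) * ∑ r, μ r * (e r.1 (x i) + e r.2.1 (x i)) * (t r (ρ w)).c =
          ∑ r, e i (α g) * (μ r * (e r.1 (x i) + e r.2.1 (x i)) * (t r (ρ w)).c) := fun i =>
        Finset.mul_sum _ _ _
      simp_rw [this]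
      rw [Finset.sum_comm]
      refine Finset.sum_congr rfl fun r _ => ?_
      rw [e4 r.1, e4 r.2.1, ← Finset.sum_add_distrib, Finset.sum_mul, Finset.mul_sum]
      refine Finset.sum_congr rfl fun i _ => ?_
      ring
    have e6 : ∑ r, μ r * (t r (ρ (g * w * g⁻¹))).d = ∑ r, μ r * (t r (ρ w)).d +
        ∑ r, μ r * ((e r.1 (α g) + e r.2.1 (α g)) * (t r (ρ w)).c) := by
      rw [← Finset.sum_add_distrib]
      exact Finset.sum_congr rfl fun r _ => by rw [e3]; ring
    have e7 : ∑ i, (τ i (g * w * g⁻¹)).c = ∑ i, (τ i w).c + ∑ i, e i (α g) * p (cm (x i) (α w))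
        - ∑ i, e i (α g) * ∑ r, μ r * (e r.1 (x i) + e r.2.1 (x i)) * (t r (ρ w)).c := by
      rw [← Finset.sum_add_distrib, ← Finset.sum_sub_distrib]
      exact Finset.sum_congr rfl fun i _ => by rw [e2]; ring
    rw [hPdef, hPdef, e1, e6, e7, e5]
    ring
  have hP1 : P 1 = 0 := by
    have := hPadd 1 M.one_mem 1 M.one_mem
    rw [mul_one] at this
    linarith
  have hPinv : ∀ m ∈ M, P m⁻¹ = - P m := by
    intro m hm
    have := hPadd m hm m⁻¹ (M.inv_mem hm)
    rw [mul_inv_cancel, hP1] at this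
    linarith
  obtain ⟨hq, hq1, hq2⟩ := exists_quad M hcmM P hPadd hPconj
  choose y hy using fun i => hαs (x i)
  have bil1 : ∀ g g', P (cm g g') = ∑ j, P (cm (y j) g') * e j (α g) := by
    intro g g'
    refine add_descend x e hspan α hαs y hy (fun g => P (cm g g')) ?_ ?_ g
    · intro a b
      have : cm (a * b) g' = (a * cm b g' * a⁻¹) * cm a g' := by simp only [cm]; group
      show P (cm (a * b) g') = P (cm a g') + P (cm b g')
      have hmem : a * cm b g' * a⁻¹ ∈ M := by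
        have e0 : a * cm b g' * a⁻¹ = cm a (cm b g') * cm b g' := by simp only [cm]; group
        rw [e0]
        exact M.mul_mem (hcmM _ _) (hcmM _ _)
      rw [this, hPadd _ hmem _ (hcmM _ _), hPconj a _ (hcmM _ _)]
      ring
    · intro m hm
      have hm' : m ∈ M := hm
      have e1 : cm m g' = m * (g' * m⁻¹ * g'⁻¹) := by simp only [cm]; group
      have e2 : g' * m⁻¹ * g'⁻¹ ∈ M := by
        have : g' * m⁻¹ * g'⁻¹ = m⁻¹ * cm m g' := by simp only [cm]; group
        rw [this]; exact M.mul_mem (M.inv_mem hm') (hcmM _ _)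
      show P (cm m g') = 0
      rw [e1, hPadd _ hm' _ e2, hPconj g' _ (M.inv_mem hm'), hPinv m hm']
      ring
  have hanti : ∀ g g', P (cm g' g) = - P (cm g g') := by
    intro g g'
    have : cm g' g = (cm g g')⁻¹ := by simp only [cm]; group
    rw [this, hPinv _ (hcmM _ _)]
  have bil : ∀ g g', P (cm g g') =
      ∑ j, ∑ k, P (cm (y j) (y k)) * (e j (α g) * e k (α g')) := by
    intro g g'
    rw [bil1 g g']
    refine Finset.sum_congr rfl fun j _ => ?_
    rw [hanti g' (y j), bil1 g' (y j), ← Finset.sum_neg_distrib, Finset.sum_mul]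
    refine Finset.sum_congr rfl fun k _ => ?_
    rw [hanti (y j) (y k)]
    ring
  let C : Fin n → Fin n → E2 → ℚ := fun j k g => (t (j, j, k) (ρ g)).c
  have hC : ∀ j k g g', C j k (g * g') = C j k g + C j k g' +
      (e j (α g) * e k (α g') - e k (α g) * e j (α g')) := by
    intro j k g g'
    show (t (j, j, k) (ρ (g * g'))).c = _
    rw [map_mul, map_mul, T.mul_c, htx, htx, hty, hty]
    simp only [C, hα]
    ring
  refine ⟨fun g => hq g - (4:ℚ)⁻¹ * ∑ j, ∑ k, P (cm (y j) (y k)) * C j k g, ?_, ?_⟩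
  · intro g g'
    show hq (g * g') - (4:ℚ)⁻¹ * ∑ j, ∑ k, P (cm (y j) (y k)) * C j k (g * g') = _
    have e1 : ∑ j, ∑ k, P (cm (y j) (y k)) * C j k (g * g') =
        ∑ j, ∑ k, P (cm (y j) (y k)) * C j k g + ∑ j, ∑ k, P (cm (y j) (y k)) * C j k g' +
        (∑ j, ∑ k, P (cm (y j) (y k)) * (e j (α g) * e k (α g')) -
         ∑ j, ∑ k, P (cm (y j) (y k)) * (e k (α g) * e j (α g'))) := by
      simp only [← Finset.sum_add_distrib, ← Finset.sum_sub_distrib]
      refine Finset.sum_congr rfl fun j _ => Finset.sum_congr rfl fun k _ => ?_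
      rw [hC]; ring
    have e2 : ∑ j, ∑ k, P (cm (y j) (y k)) * (e k (α g) * e j (α g')) =
        - ∑ j, ∑ k, P (cm (y j) (y k)) * (e j (α g) * e k (α g')) := by
      rw [Finset.sum_comm, ← Finset.sum_neg_distrib]
      refine Finset.sum_congr rfl fun j _ => ?_
      rw [← Finset.sum_neg_distrib]
      refine Finset.sum_congr rfl fun k _ => ?_
      rw [hanti (y j) (y k)]; ring
    rw [hq1, e1, e2, bil g g']
    ring
  · intro g hg ht hτ1
    have hgM : g ∈ M := hg
    have hC0 : ∀ j k, C j k g = 0 := by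
      intro j k
      show (t (j, j, k) (ρ g)).c = 0
      rw [ht]; rfl
    show hq g - (4:ℚ)⁻¹ * ∑ j, ∑ k, P (cm (y j) (y k)) * C j k g = _
    simp only [hC0, mul_zero, Finset.sum_const_zero, sub_zero]
    rw [hq2 g hgM, hPdef]
    simp only [hτ1, ht, T.one_c, T.one_d, mul_zero, Finset.sum_const_zero, sub_zero, hα]

end Pool.Agent.Helper877.QI
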