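import Pool.Agent.Helper877.QI.Base

set_option autoImplicit false

namespace Pool.Agent.Helper877.QI


/-- The first generator. -/
def TX : T ℚ := ⟨1, 0, 0, 0, 0⟩
/-- The second generator. -/
def TY : T ℚ := ⟨0, 1, 0, 0, 0⟩

/-- The dilation by `N`. -/
def dil (N : ℚ) : T ℚ →* T ℚ where
  toFun g := ⟨N * g.x, N * g.y, N ^ 2 * g.c, N ^ 3 * g.d, N ^ 3 * g.e⟩
  map_one' := by ext <;> simp
  map_mul' a b := by
    ext <;> simp only [T.mul_x, T.mul_y, T.mul_c, T.mul_d, T.mul_e] <;> ring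

theorem dil_injective {N : ℚ} (hN : N ≠ 0) : Function.Injective (dil N) := by
  intro a b hab
  have h1 := congrArg T.x hab
  have h2 := congrArg T.y hab
  have h3 := congrArg T.c hab
  have h4 := congrArg T.d hab
  have h5 := congrArg T.e hab
  simp only [dil, MonoidHom.coe_mk, OneHom.coe_mk] at h1 h2 h3 h4 h5
  have hN2 : N ^ 2 ≠ 0 := pow_ne_zero _ hN
  have hN3 : N ^ 3 ≠ 0 := pow_ne_zero _ hN
  ext
  · exact mul_left_cancel₀ hN h1
  · exact mul_left_cancel₀ hN h2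
  · exact mul_left_cancel₀ hN2 h3
  · exact mul_left_cancel₀ hN3 h4
  · exact mul_left_cancel₀ hN3 h5

theorem edZpow (g : T ℚ) (n : ℤ) :
    g ^ n = ⟨n * g.x, n * g.y, n * g.c, n * g.d, n * g.e⟩ := by
  induction n with
  | zero => ext <;> simp
  | succ n ih =>
    rw [zpow_add_one, ih]
    ext <;> simp only [T.mul_x, T.mul_y, T.mul_c, T.mul_d, T.mul_e] <;> push_cast <;> ring
  | pred n ih =>
    rw [zpow_sub_one, ih]
    ext <;> simp only [T.mul_x, T.mul_y, T.mul_c, T.mul_d, T.mul_e, T.inv_x, T.inv_y, T.inv_c,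
      T.inv_d, T.inv_e] <;> push_cast <;> ring

theorem edZ : cm TX TY = ⟨0, 0, 1, 1 / 2, 1 / 2⟩ := by
  unfold cm TX TY
  ext <;> simp only [T.mul_x, T.mul_y, T.mul_c, T.mul_d, T.mul_e, T.inv_x, T.inv_y, T.inv_c,
      T.inv_d, T.inv_e] <;> norm_num

theorem edU : cm TX (cm TX TY) = ⟨0, 0, 0, 1, 0⟩ := by
  rw [edZ]
  unfold cm TX
  ext <;> simp only [T.mul_x, T.mul_y, T.mul_c, T.mul_d, T.mul_e, T.inv_x, T.inv_y, T.inv_c,
      T.inv_d, T.inv_e] <;> norm_num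

theorem edV : cm TY (cm TX TY) = ⟨0, 0, 0, 0, 1⟩ := by
  rw [edZ]
  unfold cm TY
  ext <;> simp only [T.mul_x, T.mul_y, T.mul_c, T.mul_d, T.mul_e, T.inv_x, T.inv_y, T.inv_c,
      T.inv_d, T.inv_e] <;> norm_num

theorem edMem (p q r s t : ℤ) :
    (⟨12 * p, 12 * q, 12 * r, 12 * s, 12 * t⟩ : T ℚ) ∈ Subgroup.closure {TX, TY} := by
  have hX : TX ∈ Subgroup.closure {TX, TY} := Subgroup.subset_closure (Set.mem_insert _ _)
  have hY : TY ∈ Subgroup.closure {TX, TY} :=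
    Subgroup.subset_closure (Set.mem_insert_of_mem _ rfl)
  have hcm : ∀ a b : T ℚ, a ∈ Subgroup.closure {TX, TY} → b ∈ Subgroup.closure {TX, TY} →
      cm a b ∈ Subgroup.closure {TX, TY} := by
    intro a b ha hb
    unfold cm
    exact Subgroup.mul_mem _ (Subgroup.mul_mem _ (Subgroup.mul_mem _ ha hb)
      (Subgroup.inv_mem _ ha)) (Subgroup.inv_mem _ hb)
  have hZ := hcm _ _ hX hY
  have hU := hcm _ _ hX hZ
  have hV := hcm _ _ hY hZ
  have e : (⟨12 * p, 12 * q, 12 * r, 12 * s, 12 * t⟩ : T ℚ) =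
      TX ^ (12 * p) * TY ^ (12 * q) * (cm TX TY) ^ (12 * r - 72 * p * q) *
        (cm TX (cm TX TY)) ^ (12 * s - 144 * p ^ 2 * q - (6 * r - 36 * p * q)
          - 6 * p * (12 * r - 72 * p * q)) *
        (cm TY (cm TX TY)) ^ (12 * t + 144 * p * q ^ 2 - (6 * r - 36 * p * q)
          - 6 * q * (12 * r - 72 * p * q)) := by
    rw [edV, edU, edZ]
    simp only [edZpow]
    unfold TX TY
    ext <;> simp only [T.mul_x, T.mul_y, T.mul_c, T.mul_d, T.mul_e] <;> push_cast <;> ring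
  rw [e]
  exact Subgroup.mul_mem _ (Subgroup.mul_mem _ (Subgroup.mul_mem _ (Subgroup.mul_mem _
    (Subgroup.zpow_mem _ hX _) (Subgroup.zpow_mem _ hY _)) (Subgroup.zpow_mem _ hZ _))
    (Subgroup.zpow_mem _ hU _)) (Subgroup.zpow_mem _ hV _)

theorem edInt (M : ℕ) (q : ℚ) (h : q.den ∣ M) : ∃ k : ℤ, (M : ℚ) * q = k := by
  obtain ⟨m, rfl⟩ := h
  refine ⟨m * q.num, ?_⟩
  have h1 := Rat.mul_den_eq_num q
  push_cast
  rw [← h1]
  ring

/-- Some dilation maps a given finite set into the subgroup generated by `TX, TY`. -/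
theorem exists_dil (s : Finset (T ℚ)) :
    ∃ N : ℚ, N ≠ 0 ∧ ∀ t ∈ s, dil N t ∈ Subgroup.closure {TX, TY} := by
  classical
  set M : ℕ := ∏ t ∈ s, (t.x.den * t.y.den * t.c.den * t.d.den * t.e.den) with hM
  have hM0 : M ≠ 0 := by
    rw [hM, Finset.prod_ne_zero_iff]
    intro t _
    exact Nat.mul_ne_zero (Nat.mul_ne_zero (Nat.mul_ne_zero (Nat.mul_ne_zero t.x.den_nz t.y.den_nz)
      t.c.den_nz) t.d.den_nz) t.e.den_nz
  refine ⟨12 * (M : ℚ), by positivity, ?_⟩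
  intro t ht
  have hdvd : t.x.den * t.y.den * t.c.den * t.d.den * t.e.den ∣ M := Finset.dvd_prod_of_mem
    (fun t : T ℚ => t.x.den * t.y.den * t.c.den * t.d.den * t.e.den) ht
  obtain ⟨k1, h1⟩ := edInt M t.x (Dvd.dvd.trans ⟨t.y.den * t.c.den * t.d.den * t.e.den, by ring⟩ hdvd)
  obtain ⟨k2, h2⟩ := edInt M t.y (Dvd.dvd.trans ⟨t.x.den * t.c.den * t.d.den * t.e.den, by ring⟩ hdvd)
  obtain ⟨k3, h3⟩ := edInt M t.c (Dvd.dvd.trans ⟨t.x.den * t.y.den * t.d.den * t.e.den, by ring⟩ hdvd)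
  obtain ⟨k4, h4⟩ := edInt M t.d (Dvd.dvd.trans ⟨t.x.den * t.y.den * t.c.den * t.e.den, by ring⟩ hdvd)
  obtain ⟨k5, h5⟩ := edInt M t.e (Dvd.dvd.trans ⟨t.x.den * t.y.den * t.c.den * t.d.den, by ring⟩ hdvd)
  have e : dil (12 * (M : ℚ)) t = ⟨12 * k1, 12 * k2, 12 * ((12 * M * k3 : ℤ) : ℚ),
      12 * ((144 * M ^ 2 * k4 : ℤ) : ℚ), 12 * ((144 * M ^ 2 * k5 : ℤ) : ℚ)⟩ := by
    simp only [dil, MonoidHom.coe_mk, OneHom.coe_mk]
    push_cast
    rw [← h1, ← h2, ← h3, ← h4, ← h5]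
    ext <;> simp only <;> ring
  rw [e]
  exact edMem _ _ _ _ _

/-- Any two elements are images of `TX, TY` under an endomorphism. -/
theorem exists_endo (s t : T ℚ) : ∃ φ : T ℚ →* T ℚ, φ TX = s ∧ φ TY = t := by
  refine ⟨{ toFun := fun g => ⟨g.x * s.x + g.y * t.x, g.x * s.y + g.y * t.y,
              g.x * s.c + g.y * t.c + g.c * (s.x * t.y - s.y * t.x),
              g.x * s.d + g.y * t.d + g.c * (s.x * t.c - s.c * t.x)
                + (g.d * s.x + g.e * t.x) * (s.x * t.y - s.y * t.x),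
              g.x * s.e + g.y * t.e + g.c * (s.y * t.c - s.c * t.y)
                + (g.d * s.y + g.e * t.y) * (s.x * t.y - s.y * t.x)⟩
            map_one' := by ext <;> simp
            map_mul' := by
              intro a b
              ext <;> simp only [T.mul_x, T.mul_y, T.mul_c, T.mul_d, T.mul_e] <;> ring }, ?_, ?_⟩
  · simp only [MonoidHom.coe_mk, OneHom.coe_mk, TX]
    ext <;> simp
  · simp only [MonoidHom.coe_mk, OneHom.coe_mk, TY]
    ext <;> simp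

end Pool.Agent.Helper877.QI
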