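import Pool.Agent.Helper877.QI.Base

set_option autoImplicit false

namespace Pool.Agent.Helper877.QI


theorem exists_dual_aux {A : Type*} (W : Submodule ℚ (A → ℚ)) [FiniteDimensional ℚ W] :
    ∃ (n : ℕ) (x : Fin n → A) (e : Fin n → W),
      (∀ i j, (e i : A → ℚ) (x j) = if i = j then 1 else 0) ∧
      ∀ φ : W, ∀ a, (φ : A → ℚ) a = ∑ i, (φ : A → ℚ) (x i) * (e i : A → ℚ) a := by
  classical
  let ev : A → Module.Dual ℚ W := fun a => (LinearMap.proj a).comp W.subtype
  have hev : ∀ a (φ : W), ev a φ = (φ : A → ℚ) a := fun a φ => rfl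
  have htop : Submodule.span ℚ (Set.range ev) = ⊤ := by
    by_contra hne
    obtain ⟨f, hf0, hf⟩ := Submodule.exists_le_ker_of_lt_top _ (lt_top_iff_ne_top.2 hne)
    apply hf0
    have h1 : (Module.evalEquiv ℚ W).symm f = 0 := by
      apply Subtype.ext
      funext a
      have h2 : f (ev a) = 0 := hf (Submodule.subset_span ⟨a, rfl⟩)
      have h3 : f (ev a) = ev a ((Module.evalEquiv ℚ W).symm f) := by
        conv_lhs => rw [← (Module.evalEquiv ℚ W).apply_symm_apply f]
        rfl
      rw [h3, hev] at h2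
      exact h2
    exact (LinearEquiv.map_eq_zero_iff _).1 h1
  obtain ⟨κ, a, -, hspan, hli⟩ := exists_linearIndependent' ℚ ev
  have hfin : Finite κ := hli.finite
  obtain ⟨n, ⟨ε⟩⟩ := Finite.exists_equiv_fin κ
  set b : Module.Basis (Fin n) ℚ (Module.Dual ℚ W) :=
    (Module.Basis.mk hli (by rw [hspan, htop])).reindex ε with hb
  have hbi : ∀ i, b i = ev (a (ε.symm i)) := by
    intro i
    rw [hb, Module.Basis.reindex_apply, Module.Basis.mk_apply]
    rfl
  have hdual : ∀ i j, (((Module.evalEquiv ℚ W).symm (b.dualBasis i) : W) : A → ℚ)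
      (a (ε.symm j)) = if i = j then 1 else 0 := by
    intro i j
    rw [← hev, ← hbi, Module.apply_evalEquiv_symm_apply, Module.Basis.dualBasis_apply_self]
    by_cases h : i = j
    · rw [if_pos h, if_pos h.symm]
    · rw [if_neg h, if_neg (Ne.symm h)]
  refine ⟨n, fun i => a (ε.symm i), fun i => (Module.evalEquiv ℚ W).symm (b.dualBasis i),
    hdual, ?_⟩
  intro φ c
  have key : Module.Dual.eval ℚ W φ = Module.Dual.eval ℚ W
      (∑ i, (φ : A → ℚ) (a (ε.symm i)) • (Module.evalEquiv ℚ W).symm (b.dualBasis i)) := by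
    refine b.ext fun j => ?_
    rw [Module.Dual.eval_apply, Module.Dual.eval_apply, hbi, map_sum]
    simp only [map_smul, smul_eq_mul]
    simp only [hev, hdual]
    simp
  have h5 := LinearMap.congr_fun key (ev c)
  rw [Module.Dual.eval_apply, Module.Dual.eval_apply, map_sum] at h5
  simp only [map_smul, smul_eq_mul] at h5
  simp only [hev] at h5
  exact h5

/-- the space of additive functions -/
def addW (A : Type*) [Group A] : Submodule ℚ (A → ℚ) where
  carrier := {φ | IsAdd φ}
  add_mem' := by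
    intro f g hf hg a b
    show f (a * b) + g (a * b) = (f a + g a) + (f b + g b)
    rw [hf a b, hg a b]; ring
  zero_mem' := by
    intro a b
    simp
  smul_mem' := by
    intro c f hf a b
    show c * f (a * b) = c * f a + c * f b
    rw [hf a b]; ring

theorem addW_fin (A : Type*) [Group A] [hA : Group.FG A] : FiniteDimensional ℚ (addW A) := by
  obtain ⟨S, hS⟩ := hA.out
  let r : addW A →ₗ[ℚ] (S → ℚ) :=
    { toFun := fun φ s => (φ : A → ℚ) s.1
      map_add' := fun _ _ => rfl
      map_smul' := fun _ _ => rfl }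
  refine FiniteDimensional.of_injective r ?_
  rw [← LinearMap.ker_eq_bot, LinearMap.ker_eq_bot']
  intro φ hφ
  apply Subtype.ext
  funext a
  have ha : a ∈ Subgroup.closure (S : Set A) := by rw [hS]; trivial
  have hadd : IsAdd (φ : A → ℚ) := φ.2
  show (φ : A → ℚ) a = 0
  induction ha using Subgroup.closure_induction with
  | mem x hx => exact congrFun hφ ⟨x, hx⟩
  | one => exact hadd.one
  | mul x y _ _ hx hy => rw [hadd x y, hx, hy, add_zero]
  | inv x _ hx => rw [hadd.inv, hx, neg_zero]

/-- Dual bases for the additive functions on a finitely generated group. -/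
theorem exists_dual {A : Type*} [Group A] [Group.FG A] :
    ∃ (n : ℕ) (x : Fin n → A) (e : Fin n → A → ℚ), (∀ i, IsAdd (e i)) ∧
      (∀ i j, e i (x j) = if i = j then 1 else 0) ∧
      ∀ φ : A → ℚ, IsAdd φ → ∀ a, φ a = ∑ i, φ (x i) * e i a := by
  have := addW_fin A
  obtain ⟨n, x, e, h1, h2⟩ := exists_dual_aux (addW A)
  exact ⟨n, x, fun i => (e i : A → ℚ), fun i => (e i).2, h1, fun φ hφ a => h2 ⟨φ, hφ⟩ a⟩

end Pool.Agent.Helper877.QI
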