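import Pool.Agent.Helper877.QI.Base

set_option autoImplicit false

namespace Pool.Agent.Helper877.QI


universe v

theorem QuasiId.Holds.of_inj {σ : QuasiId} {H : Type*} {H' : Type*} [Group H] [Group H']
    (φ : H →* H') (hφ : Function.Injective φ) (h : σ.Holds H') : σ.Holds H := by
  intro a ha
  have key : ∀ w : FreeGroup ℕ, φ (FreeGroup.lift a w) = FreeGroup.lift (fun i => φ (a i)) w := by
    intro w
    have : (φ.comp (FreeGroup.lift a)) = FreeGroup.lift (fun i => φ (a i)) := by
      ext i
      simp
    exact DFunLike.congr_fun this w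
  apply hφ
  rw [key, key]
  apply h
  intro p hp
  rw [← key, ← key, ha p hp]

theorem QuasiId.Holds.prod {σ : QuasiId} {A B : Type*} [Group A] [Group B]
    (hA : σ.Holds A) (hB : σ.Holds B) : σ.Holds (A × B) := by
  intro a ha
  have k1 : ∀ w : FreeGroup ℕ,
      (FreeGroup.lift a w).1 = FreeGroup.lift (fun i => (a i).1) w := by
    intro w
    have : ((MonoidHom.fst A B).comp (FreeGroup.lift a)) =
        FreeGroup.lift (fun i => (a i).1) := by
      ext i
      simp
    exact DFunLike.congr_fun this w
  have k2 : ∀ w : FreeGroup ℕ,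
      (FreeGroup.lift a w).2 = FreeGroup.lift (fun i => (a i).2) w := by
    intro w
    have : ((MonoidHom.snd A B).comp (FreeGroup.lift a)) =
        FreeGroup.lift (fun i => (a i).2) := by
      ext i
      simp
    exact DFunLike.congr_fun this w
  apply Prod.ext
  · rw [k1, k1]
    apply hA
    intro p hp
    rw [← k1, ← k1, ha p hp]
  · rw [k2, k2]
    apply hB
    intro p hp
    rw [← k2, ← k2, ha p hp]

/-- The threshold lemma. -/
theorem threshold (K Q : Set QuasiId) (hK : Sat K (T ℚ)) (hQ : Sat Q (T ℚ)) (n : ℕ) :
    ∀ (M : Type v) [Group M] (e f : Fin n → M → ℚ) (he : ∀ s, IsAdd (e s))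
      (hf : ∀ s, IsAdd (f s)), Sat Q M → ¬ Sat K M → Sat K (MFP e f he hf) →
      ∃ (A' : Type v) (_ : Group A') (e' f' : A' → ℚ) (he' : IsAdd e') (hf' : IsAdd f'),
        Sat Q A' ∧ ¬ Sat K A' ∧
          Sat K (FP e' f' he' hf' (T.x : T ℚ → ℚ) T.y T.isAdd_x T.isAdd_y) := by
  induction n with
  | zero =>
    intro M _ e f he hf hQM hKM hMFP
    exfalso
    apply hKM
    intro σ hσ
    let φ : M →* MFP e f he hf :=
      { toFun := fun m => ⟨(m, fun s => s.elim0), fun s => s.elim0⟩
        map_one' := by
          apply Subtype.ext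
          apply Prod.ext
          · rfl
          · funext s; exact s.elim0
        map_mul' := by
          intro a b
          apply Subtype.ext
          apply Prod.ext
          · rfl
          · funext s; exact s.elim0 }
    refine QuasiId.Holds.of_inj φ ?_ (hMFP σ hσ)
    intro a b hab
    exact congrArg (fun q : MFP e f he hf => q.1.1) hab
  | succ n ih =>
    intro M _ e f he hf hQM hKM hMFP
    by_cases hK1 : Sat K (FP (e 0) (f 0) (he 0) (hf 0) (T.x : T ℚ → ℚ) T.y T.isAdd_x T.isAdd_y)
    · exact ⟨M, inferInstance, e 0, f 0, he 0, hf 0, hQM, hKM, hK1⟩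
    · have hQ1 : Sat Q
          (FP (e 0) (f 0) (he 0) (hf 0) (T.x : T ℚ → ℚ) T.y T.isAdd_x T.isAdd_y) := by
        intro σ hσ
        exact QuasiId.Holds.of_inj (Subgroup.subtype _) Subtype.coe_injective
          ((hQM σ hσ).prod (hQ σ hσ))
      have he2 : ∀ s : Fin n, IsAdd (fun p : FP (e 0) (f 0) (he 0) (hf 0) (T.x : T ℚ → ℚ) T.y
          T.isAdd_x T.isAdd_y => e s.succ p.1.1) := fun s a b => he s.succ _ _
      have hf2 : ∀ s : Fin n, IsAdd (fun p : FP (e 0) (f 0) (he 0) (hf 0) (T.x : T ℚ → ℚ) T.y
          T.isAdd_x T.isAdd_y => f s.succ p.1.1) := fun s a b => hf s.succ _ _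
      refine ih _ _ _ he2 hf2 hQ1 hK1 ?_
      let ψ : MFP _ _ he2 hf2 →* MFP e f he hf :=
        { toFun := fun q => ⟨(q.1.1.1.1, Fin.cons (α := fun _ => T ℚ) q.1.1.1.2 q.1.2), by
            intro s
            refine Fin.cases ?_ ?_ s
            · exact q.1.1.2
            · intro s
              exact q.2 s⟩
          map_one' := by
            apply Subtype.ext
            apply Prod.ext
            · rfl
            · funext s
              refine Fin.cases ?_ ?_ s
              · rfl
              · intro s; rfl
          map_mul' := by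
            intro a b
            apply Subtype.ext
            apply Prod.ext
            · rfl
            · funext s
              refine Fin.cases ?_ ?_ s
              · rfl
              · intro s; rfl }
      intro σ hσ
      refine QuasiId.Holds.of_inj ψ ?_ (hMFP σ hσ)
      intro a b hab
      have h1 : a.1.1.1.1 = b.1.1.1.1 := congrArg (fun q : MFP e f he hf => q.1.1) hab
      have h2 : a.1.1.1.2 = b.1.1.1.2 := congrArg (fun q : MFP e f he hf => q.1.2 0) hab
      have h3 : a.1.2 = b.1.2 := by
        funext s
        exact congrArg (fun q : MFP e f he hf => q.1.2 s.succ) hab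
      apply Subtype.ext
      apply Prod.ext
      · exact Subtype.ext (Prod.ext h1 h2)
      · exact h3

end Pool.Agent.Helper877.QI
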