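import Pool.Agent.Helper877.QI.Base
import Pool.Agent.Helper877.QI.Threshold
import Pool.Agent.Helper877.QI.Dual
import Pool.Agent.Helper877.QI.ATwoSep
import Pool.Agent.Helper877.QI.CoreOne
import Pool.Agent.Helper877.QI.CoreTwo

set_option autoImplicit false

namespace Pool.Agent.Helper877.QI









universe v


theorem h400_transfer {H H' : Type*} [Group H] [Group H'] (φ : H →* H') (σ : QuasiId)
    (hσ : σ.Holds H') (a : ℕ → H)
    (ha : ∀ p ∈ σ.hyps, FreeGroup.lift a p.1 = FreeGroup.lift a p.2) :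
    φ (FreeGroup.lift a σ.concl.1) = φ (FreeGroup.lift a σ.concl.2) := by
  have key : ∀ w : FreeGroup ℕ, φ (FreeGroup.lift a w) = FreeGroup.lift (fun i => φ (a i)) w := by
    intro w
    have : (φ.comp (FreeGroup.lift a)) = FreeGroup.lift (fun i => φ (a i)) := by
      ext i
      simp
    exact DFunLike.congr_fun this w
  rw [key, key]
  apply hσ
  intro p hp
  rw [← key, ← key, ha p hp]

/-- First projection. -/
def h400_fst {A : Type*} [Group A] {S : Type*} (e f : S → A → ℚ) (he : ∀ s, IsAdd (e s))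
    (hf : ∀ s, IsAdd (f s)) : MFP e f he hf →* A :=
  (MonoidHom.fst A (S → T ℚ)).comp (Subgroup.subtype _)

/-- Coordinate projection. -/
def h400_coord {A : Type*} [Group A] {S : Type*} (e f : S → A → ℚ) (he : ∀ s, IsAdd (e s))
    (hf : ∀ s, IsAdd (f s)) (s : S) : MFP e f he hf →* T ℚ :=
  ((Pi.evalMonoidHom (fun _ : S => T ℚ) s).comp (MonoidHom.snd A (S → T ℚ))).comp
    (Subgroup.subtype _)

theorem h400_coord_x {A : Type*} [Group A] {S : Type*} (e f : S → A → ℚ) (he : ∀ s, IsAdd (e s))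
    (hf : ∀ s, IsAdd (f s)) (s : S) (g : MFP e f he hf) :
    (h400_coord e f he hf s g).x = e s (h400_fst e f he hf g) := (g.2 s).1

theorem h400_coord_y {A : Type*} [Group A] {S : Type*} (e f : S → A → ℚ) (he : ∀ s, IsAdd (e s))
    (hf : ∀ s, IsAdd (f s)) (s : S) (g : MFP e f he hf) :
    (h400_coord e f he hf s g).y = f s (h400_fst e f he hf g) := (g.2 s).2

theorem h400_fst_surj {A : Type*} [Group A] {S : Type*} (e f : S → A → ℚ)
    (he : ∀ s, IsAdd (e s)) (hf : ∀ s, IsAdd (f s)) (a : A) :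
    ∃ g : MFP e f he hf, h400_fst e f he hf g = a :=
  ⟨⟨(a, fun s => ⟨e s a, f s a, 0, 0, 0⟩), fun _ => ⟨rfl, rfl⟩⟩, rfl⟩

theorem h400_ext {A : Type*} [Group A] {S : Type*} (e f : S → A → ℚ)
    (he : ∀ s, IsAdd (e s)) (hf : ∀ s, IsAdd (f s)) (g g' : MFP e f he hf)
    (h1 : h400_fst e f he hf g = h400_fst e f he hf g')
    (h2 : ∀ s, h400_coord e f he hf s g = h400_coord e f he hf s g') : g = g' :=
  Subtype.ext (Prod.ext h1 (funext h2))

/-- The homomorphism to `T ℚ` given by an additive function. -/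
def h400_addHom {E : Type*} [Group E] (q : E → ℚ) (hq : IsAdd q) : E →* T ℚ where
  toFun g := ⟨q g, 0, 0, 0, 0⟩
  map_one' := by ext <;> simp [hq.one]
  map_mul' a b := by ext <;> simp [hq a b, T.mul_c, T.mul_d, T.mul_e]

theorem h400_core (A : Type v) [Group A] [Group.FG A] (ht : TorsionFree A)
    (hc : ∀ a b c d : A, cm a (cm b (cm c d)) = 1) :
    ∃ (N1 : ℕ) (e1 f1 : Fin N1 → A → ℚ) (he1 : ∀ s, IsAdd (e1 s)) (hf1 : ∀ s, IsAdd (f1 s))
      (N2 : ℕ) (e2 f2 : Fin N2 → MFP e1 f1 he1 hf1 → ℚ) (he2 : ∀ s, IsAdd (e2 s))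
      (hf2 : ∀ s, IsAdd (f2 s)),
      ∀ z : MFP e2 f2 he2 hf2, z ≠ 1 → ∃ φ : MFP e2 f2 he2 hf2 →* T ℚ, φ z ≠ 1 := by
  obtain ⟨n, x, e, he, hdual, hspan⟩ := exists_dual (A := A)
  obtain ⟨m, p, hp, hsep⟩ := A2.exists_sep ht hc
  have hcen : ∀ w ∈ A2 A, ∀ a b : A, b * cm a w = cm a w * b :=
    fun w hw a b => A2.comm_central ht hc hw a b
  have hh := fun j => exists_h x e he hdual hspan hcen (p j) (hp j)
  choose h μ h1 h2 h3 using hh
  obtain ⟨eq1⟩ : Nonempty (Fin (Fintype.card (Fin n × Fin n × Fin n)) ≃ Fin n × Fin n × Fin n) :=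
    ⟨(Fintype.equivFin _).symm⟩
  obtain ⟨eq2⟩ : Nonempty (Fin (Fintype.card (Fin m × Fin n)) ≃ Fin m × Fin n) :=
    ⟨(Fintype.equivFin _).symm⟩
  obtain ⟨e1, hee1⟩ : ∃ e1 : Fin (Fintype.card (Fin n × Fin n × Fin n)) → A → ℚ,
      ∀ s a, e1 s a = e (eq1 s).1 a + e (eq1 s).2.1 a := ⟨_, fun _ _ => rfl⟩
  obtain ⟨f1, hff1⟩ : ∃ f1 : Fin (Fintype.card (Fin n × Fin n × Fin n)) → A → ℚ,
      ∀ s a, f1 s a = e (eq1 s).2.2 a := ⟨_, fun _ _ => rfl⟩
  have he1 : ∀ s, IsAdd (e1 s) := by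
    intro s a b
    rw [hee1, hee1, hee1, he, he]
    ring
  have hf1 : ∀ s, IsAdd (f1 s) := by
    intro s a b
    rw [hff1, hff1, hff1, he]
  obtain ⟨t, htt⟩ : ∃ t : Fin n × Fin n × Fin n → MFP e1 f1 he1 hf1 →* T ℚ,
      ∀ r, t r = h400_coord e1 f1 he1 hf1 (eq1.symm r) := ⟨_, fun _ => rfl⟩
  obtain ⟨π, hπ⟩ : ∃ π : MFP e1 f1 he1 hf1 →* A, π = h400_fst e1 f1 he1 hf1 := ⟨_, rfl⟩
  have htx : ∀ r g, (t r g).x = e r.1 (π g) + e r.2.1 (π g) := by
    intro r g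
    rw [htt, h400_coord_x, hee1, hπ, Equiv.apply_symm_apply]
  have hty : ∀ r g, (t r g).y = e r.2.2 (π g) := by
    intro r g
    rw [htt, h400_coord_y, hff1, hπ, Equiv.apply_symm_apply]
  obtain ⟨e2, hee2⟩ : ∃ e2 : Fin (Fintype.card (Fin m × Fin n)) → MFP e1 f1 he1 hf1 → ℚ,
      ∀ s g, e2 s g = e (eq2 s).2 (π g) := ⟨_, fun _ _ => rfl⟩
  obtain ⟨f2, hff2⟩ : ∃ f2 : Fin (Fintype.card (Fin m × Fin n)) → MFP e1 f1 he1 hf1 → ℚ,
      ∀ s g, f2 s g = h (eq2 s).1 (eq2 s).2 (π g) -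
        ∑ r, μ (eq2 s).1 r * (e r.1 (x (eq2 s).2) + e r.2.1 (x (eq2 s).2)) * (t r g).c :=
    ⟨_, fun _ _ => rfl⟩
  have he2 : ∀ s, IsAdd (e2 s) := by
    intro s a b
    rw [hee2, hee2, hee2, map_mul, he]
  have hf2 : ∀ s, IsAdd (f2 s) := by
    intro s a b
    rw [hff2, hff2, hff2, map_mul, h1]
    have hsum : (2:ℚ)⁻¹ * ∑ r, μ (eq2 s).1 r * (e r.1 (x (eq2 s).2) + e r.2.1 (x (eq2 s).2)) *
        ((e r.1 (π a) + e r.2.1 (π a)) * e r.2.2 (π b) -
          e r.2.2 (π a) * (e r.1 (π b) + e r.2.1 (π b))) =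
        ∑ r, μ (eq2 s).1 r * (e r.1 (x (eq2 s).2) + e r.2.1 (x (eq2 s).2)) * (t r (a * b)).c -
        ∑ r, μ (eq2 s).1 r * (e r.1 (x (eq2 s).2) + e r.2.1 (x (eq2 s).2)) * (t r a).c -
        ∑ r, μ (eq2 s).1 r * (e r.1 (x (eq2 s).2) + e r.2.1 (x (eq2 s).2)) * (t r b).c := by
      rw [Finset.mul_sum, ← Finset.sum_sub_distrib, ← Finset.sum_sub_distrib]
      apply Finset.sum_congr rfl
      intro r _
      rw [map_mul, T.mul_c, htx, hty, htx, hty]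
      ring
    linarith
  refine ⟨_, e1, f1, he1, hf1, _, e2, f2, he2, hf2, ?_⟩
  intro z hz
  obtain ⟨ρ, hρ⟩ : ∃ ρ : MFP e2 f2 he2 hf2 →* MFP e1 f1 he1 hf1, ρ = h400_fst e2 f2 he2 hf2 :=
    ⟨_, rfl⟩
  by_cases hτ : ∃ s, h400_coord e2 f2 he2 hf2 s z ≠ 1
  · obtain ⟨s, hs⟩ := hτ
    exact ⟨_, hs⟩
  by_cases hT : ∃ s, h400_coord e1 f1 he1 hf1 s (ρ z) ≠ 1
  · obtain ⟨s, hs⟩ := hT
    exact ⟨(h400_coord e1 f1 he1 hf1 s).comp ρ, hs⟩
  push Not at hτ hT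
  have hne : π (ρ z) ≠ 1 := by
    intro h1'
    apply hz
    apply h400_ext
    · rw [← hρ, map_one]
      apply h400_ext
      · rw [← hπ, h1', map_one]
      · intro s
        rw [hT, map_one]
    · intro s
      rw [hτ, map_one]
  have hei : ∀ i, e i (π (ρ z)) = 0 := by
    intro i
    have h3' := htx (i, i, i) (ρ z)
    rw [htt, hT, T.one_x] at h3'
    have h4 : (0:ℚ) = e i (π (ρ z)) + e i (π (ρ z)) := h3'
    linarith
  have hmem : π (ρ z) ∈ A2 A := by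
    intro φ hφ
    rw [hspan φ hφ]
    apply Finset.sum_eq_zero
    intro i _
    rw [hei, mul_zero]
  obtain ⟨j, hj⟩ := hsep _ hmem hne
  have hsurj : Function.Surjective (fun g => π (ρ g)) := by
    intro a
    obtain ⟨g1, hg1⟩ := h400_fst_surj e1 f1 he1 hf1 a
    obtain ⟨g2, hg2⟩ := h400_fst_surj e2 f2 he2 hf2 g1
    refine ⟨g2, ?_⟩
    show π (ρ g2) = a
    rw [hρ, hπ, hg2, hg1]
  obtain ⟨q, hq, hq2⟩ := exists_q x e he hdual hspan hcen (p j) (hp j) (h j) (μ j) (h1 j) (h2 j)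
    (h3 j) π t htx hty ρ hsurj (fun i => h400_coord e2 f2 he2 hf2 (eq2.symm (j, i)))
    (by
      intro i g
      rw [h400_coord_x, hee2, hρ, Equiv.apply_symm_apply])
    (by
      intro i g
      rw [h400_coord_y, hff2, hρ, Equiv.apply_symm_apply])
  refine ⟨h400_addHom q hq, ?_⟩
  intro h0
  apply hj
  rw [← hq2 z hmem (fun r => by rw [htt, hT]) (fun i => hτ _)]
  exact congrArg T.x h0

/-- First main step: a group outside the quasivariety is replaced by one whose fibre product with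
`T ℚ` over a suitable pair of additive functions lies in the quasivariety. -/
theorem exists_fibre (K Q : Set QuasiId) (hK : Sat K (T ℚ)) (hQ : Sat Q (T ℚ)) (A : Type v)
    [Group A] [Group.FG A] (ht : TorsionFree A) (hc : ∀ a b c d : A, cm a (cm b (cm c d)) = 1)
    (hQA : Sat Q A) (hKA : ¬ Sat K A) :
    ∃ (A' : Type v) (_ : Group A') (e' f' : A' → ℚ) (he' : IsAdd e') (hf' : IsAdd f'),
      Sat Q A' ∧ ¬ Sat K A' ∧
        Sat K (FP e' f' he' hf' (T.x : T ℚ → ℚ) T.y T.isAdd_x T.isAdd_y) := by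
  obtain ⟨N1, e1, f1, he1, hf1, N2, e2, f2, he2, hf2, hsep⟩ := h400_core A ht hc
  have hKE2 : Sat K (MFP e2 f2 he2 hf2) :=
    Sat.of_sep (fun z hz => by
      obtain ⟨φ, hφ⟩ := hsep z hz
      exact ⟨T ℚ, inferInstance, φ, hK, hφ⟩)
  by_cases hKE1 : Sat K (MFP e1 f1 he1 hf1)
  · exact threshold K Q hK hQ N1 A e1 f1 he1 hf1 hQA hKA hKE1
  · have hQE1 : Sat Q (MFP e1 f1 he1 hf1) := by
      intro σ hσ a ha
      apply h400_ext
      · exact h400_transfer _ σ (hQA σ hσ) a ha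
      · intro s
        exact h400_transfer _ σ (hQ σ hσ) a ha
    exact threshold K Q hK hQ N2 (MFP e1 f1 he1 hf1) e2 f2 he2 hf2 hQE1 hKE1 hKE2

end Pool.Agent.Helper877.QI
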