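import Pool.Agent.Helper877.QI.Base

set_option autoImplicit false

namespace Pool.Agent.Helper877.QI


/-! ### helpers for `exists_B` -/

abbrev UU (n : ℕ) : Type := {q : (Fin n → ℚ) × (Fin n → ℚ) // ∑ i, q.1 i * q.2 i = 1}

abbrev VV (n : ℕ) : Type := ℚ × ℚ × (Fin n → ℚ) × (Fin n → ℚ)

def eB (n : ℕ) (u : UU n) (a : Multiplicative (VV n)) : ℚ :=
  (Multiplicative.toAdd a).1 + ∑ i, u.1.1 i * (Multiplicative.toAdd a).2.2.1 i

def fB (n : ℕ) (u : UU n) (a : Multiplicative (VV n)) : ℚ :=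
  (Multiplicative.toAdd a).2.1 + ∑ i, u.1.2 i * (Multiplicative.toAdd a).2.2.2 i

theorem eB_add (n : ℕ) (u : UU n) : IsAdd (eB n u) := by
  intro a b
  show (Multiplicative.toAdd a + Multiplicative.toAdd b).1 +
    ∑ i, u.1.1 i * (Multiplicative.toAdd a + Multiplicative.toAdd b).2.2.1 i = _
  unfold eB
  simp only [Prod.fst_add, Prod.snd_add, Pi.add_apply, mul_add, Finset.sum_add_distrib]
  ring

theorem fB_add (n : ℕ) (u : UU n) : IsAdd (fB n u) := by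
  intro a b
  show (Multiplicative.toAdd a + Multiplicative.toAdd b).2.1 +
    ∑ i, u.1.2 i * (Multiplicative.toAdd a + Multiplicative.toAdd b).2.2.2 i = _
  unfold fB
  simp only [Prod.fst_add, Prod.snd_add, Pi.add_apply, mul_add, Finset.sum_add_distrib]
  ring

abbrev BG (n : ℕ) : Type := ↥(MFP (eB n) (fB n) (eB_add n) (fB_add n))

theorem bg_ext {n : ℕ} {a b : BG n} (h1 : a.1.1 = b.1.1) (h2 : ∀ u, a.1.2 u = b.1.2 u) : a = b :=
  Subtype.ext (Prod.ext h1 (funext h2))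

def Zf (n : ℕ) (m : (UU n → ℚ) × (UU n → ℚ) × (UU n → ℚ)) : BG n :=
  ⟨(1, fun u => ⟨0, 0, m.1 u, m.2.1 u, m.2.2 u⟩), fun s =>
    ⟨((eB_add n s).one).symm, ((fB_add n s).one).symm⟩⟩

theorem Zf_add (n : ℕ) (m m' : (UU n → ℚ) × (UU n → ℚ) × (UU n → ℚ)) :
    Zf n (m + m') = Zf n m * Zf n m' := by
  refine bg_ext ?_ fun u => ?_
  · show (1 : Multiplicative (VV n)) = 1 * 1
    rw [one_mul]
  · show (⟨0, 0, m.1 u + m'.1 u, m.2.1 u + m'.2.1 u, m.2.2 u + m'.2.2 u⟩ : T ℚ) =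
      ⟨0, 0, m.1 u, m.2.1 u, m.2.2 u⟩ * ⟨0, 0, m'.1 u, m'.2.1 u, m'.2.2 u⟩
    refine T.ext ?_ ?_ ?_ ?_ ?_ <;> simp [T.mul_c, T.mul_d, T.mul_e]

theorem Zf_zero (n : ℕ) : Zf n 0 = 1 := bg_ext rfl fun _ => rfl

def Pf (n : ℕ) (i : Fin n) (t : ℚ) : BG n :=
  ⟨(Multiplicative.ofAdd (0, 0, Pi.single i t, 0), fun u => ⟨u.1.1 i * t, 0, 0, 0, 0⟩), by
    intro u
    constructor
    · show u.1.1 i * t = 0 + ∑ j, u.1.1 j * (Pi.single i t : Fin n → ℚ) j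
      rw [zero_add, Finset.sum_eq_single i]
      · rw [Pi.single_eq_same]
      · intro j _ hj
        rw [Pi.single_eq_of_ne hj, mul_zero]
      · intro h
        exact absurd (Finset.mem_univ i) h
    · show (0 : ℚ) = 0 + ∑ j, u.1.2 j * (0 : Fin n → ℚ) j
      simp⟩

def Rf (n : ℕ) (i : Fin n) (t : ℚ) : BG n :=
  ⟨(Multiplicative.ofAdd (0, 0, 0, Pi.single i t), fun u => ⟨0, u.1.2 i * t, 0, 0, 0⟩), by
    intro u
    constructor
    · show (0 : ℚ) = 0 + ∑ j, u.1.1 j * (0 : Fin n → ℚ) j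
      simp
    · show u.1.2 i * t = 0 + ∑ j, u.1.2 j * (Pi.single i t : Fin n → ℚ) j
      rw [zero_add, Finset.sum_eq_single i]
      · rw [Pi.single_eq_same]
      · intro j _ hj
        rw [Pi.single_eq_of_ne hj, mul_zero]
      · intro h
        exact absurd (Finset.mem_univ i) h⟩

theorem T_c1 (x c : ℚ) : (⟨x, 0, 0, 0, 0⟩ : T ℚ) * ⟨0, 0, c, 0, 0⟩ * (⟨x, 0, 0, 0, 0⟩ : T ℚ)⁻¹ *
    (⟨0, 0, c, 0, 0⟩ : T ℚ)⁻¹ = ⟨0, 0, 0, x * c, 0⟩ := by
  refine T.ext ?_ ?_ ?_ ?_ ?_ <;> simp [T.mul_c, T.mul_d, T.mul_e] <;> ring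

theorem T_c2 (y c : ℚ) : (⟨0, y, 0, 0, 0⟩ : T ℚ) * ⟨0, 0, c, 0, 0⟩ * (⟨0, y, 0, 0, 0⟩ : T ℚ)⁻¹ *
    (⟨0, 0, c, 0, 0⟩ : T ℚ)⁻¹ = ⟨0, 0, 0, 0, y * c⟩ := by
  refine T.ext ?_ ?_ ?_ ?_ ?_ <;> simp [T.mul_c, T.mul_d, T.mul_e] <;> ring

theorem T_c3 (x y : ℚ) : ∃ p q : ℚ, (⟨x, 0, 0, 0, 0⟩ : T ℚ) * ⟨0, y, 0, 0, 0⟩ *
    (⟨x, 0, 0, 0, 0⟩ : T ℚ)⁻¹ * (⟨0, y, 0, 0, 0⟩ : T ℚ)⁻¹ = ⟨0, 0, x * y, p, q⟩ := by
  refine ⟨_, _, T.ext ?_ ?_ ?_ rfl rfl⟩ <;> simp [T.mul_c, T.mul_d, T.mul_e] <;> ring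

open scoped commutatorElement in
theorem bg_comm_fst {n : ℕ} (a b : BG n) : (⁅a, b⁆ : BG n).1.1 = 1 := by
  rw [commutatorElement_def]
  show a.1.1 * b.1.1 * a.1.1⁻¹ * b.1.1⁻¹ = 1
  rw [mul_comm a.1.1 b.1.1]
  group

open scoped commutatorElement in
theorem bg_comm_snd {n : ℕ} (a b : BG n) (u : UU n) : (⁅a, b⁆ : BG n).1.2 u =
    a.1.2 u * b.1.2 u * (a.1.2 u)⁻¹ * (b.1.2 u)⁻¹ := rfl

def y1B (n : ℕ) (b : BG n) : ℚ := (Multiplicative.toAdd b.1.1).1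
def y2B (n : ℕ) (b : BG n) : ℚ := (Multiplicative.toAdd b.1.1).2.1
theorem y1B_add (n : ℕ) : IsAdd (y1B n) := fun _ _ => rfl
theorem y2B_add (n : ℕ) : IsAdd (y2B n) := fun _ _ => rfl

open scoped commutatorElement in
theorem Zf_mem (n : ℕ) (δ : ℚ) (dd ee : UU n → ℚ) : Zf n (fun _ => δ, dd, ee) ∈
    ⁅Ker2 (y1B n) (y2B n) (y1B_add n) (y2B_add n), Ker2 (y1B n) (y2B n) (y1B_add n) (y2B_add n)⁆ := by
  obtain ⟨K0, hK0⟩ : ∃ K0 : Subgroup (BG n), K0 = Ker2 (y1B n) (y2B n) (y1B_add n) (y2B_add n) :=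
    ⟨_, rfl⟩
  have hP : ∀ i t, Pf n i t ∈ K0 := by
    intro i t; rw [hK0]; exact ⟨rfl, rfl⟩
  have hR : ∀ i t, Rf n i t ∈ K0 := by
    intro i t; rw [hK0]; exact ⟨rfl, rfl⟩
  have hZ : ∀ m, Zf n m ∈ K0 := by
    intro m; rw [hK0]; exact ⟨rfl, rfl⟩
  rw [← hK0]
  have hadd : ∀ m m', Zf n m ∈ ⁅K0, K0⁆ → Zf n m' ∈ ⁅K0, K0⁆ → Zf n (m + m') ∈ ⁅K0, K0⁆ := by
    intro m m' h h'
    rw [Zf_add]
    exact Subgroup.mul_mem _ h h'
  have hzero : Zf n 0 ∈ ⁅K0, K0⁆ := by rw [Zf_zero]; exact Subgroup.one_mem _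
  have hsum : ∀ f : Fin n → (UU n → ℚ) × (UU n → ℚ) × (UU n → ℚ),
      (∀ i, Zf n (f i) ∈ ⁅K0, K0⁆) → Zf n (∑ i, f i) ∈ ⁅K0, K0⁆ := by
    intro f hf
    exact Finset.sum_induction f (fun m => Zf n m ∈ ⁅K0, K0⁆) hadd hzero fun i _ => hf i
  have ha1 : ∀ (i : Fin n) (c : UU n → ℚ), Zf n (0, fun u => u.1.1 i * c u, 0) ∈ ⁅K0, K0⁆ := by
    intro i c
    have h := Subgroup.commutator_mem_commutator (hP i 1) (hZ (c, 0, 0))
    have e : Zf n (0, fun u => u.1.1 i * c u, 0) = ⁅Pf n i 1, Zf n (c, 0, 0)⁆ := by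
      refine bg_ext (bg_comm_fst _ _).symm fun u => ?_
      rw [bg_comm_snd]
      have := T_c1 (u.1.1 i * 1) (c u)
      rw [mul_one] at this
      show (⟨0, 0, 0, u.1.1 i * c u, 0⟩ : T ℚ) = ⟨u.1.1 i * 1, 0, 0, 0, 0⟩ * ⟨0, 0, c u, 0, 0⟩ *
        (⟨u.1.1 i * 1, 0, 0, 0, 0⟩ : T ℚ)⁻¹ * (⟨0, 0, c u, 0, 0⟩ : T ℚ)⁻¹
      rw [mul_one, this]
    rw [e]
    exact h
  have hb1 : ∀ (i : Fin n) (c : UU n → ℚ), Zf n (0, 0, fun u => u.1.2 i * c u) ∈ ⁅K0, K0⁆ := by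
    intro i c
    have h := Subgroup.commutator_mem_commutator (hR i 1) (hZ (c, 0, 0))
    have e : Zf n (0, 0, fun u => u.1.2 i * c u) = ⁅Rf n i 1, Zf n (c, 0, 0)⁆ := by
      refine bg_ext (bg_comm_fst _ _).symm fun u => ?_
      rw [bg_comm_snd]
      have := T_c2 (u.1.2 i * 1) (c u)
      rw [mul_one] at this
      show (⟨0, 0, 0, 0, u.1.2 i * c u⟩ : T ℚ) = ⟨0, u.1.2 i * 1, 0, 0, 0⟩ * ⟨0, 0, c u, 0, 0⟩ *
        (⟨0, u.1.2 i * 1, 0, 0, 0⟩ : T ℚ)⁻¹ * (⟨0, 0, c u, 0, 0⟩ : T ℚ)⁻¹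
      rw [mul_one, this]
    rw [e]
    exact h
  have ha : ∀ dd : UU n → ℚ, Zf n (0, dd, 0) ∈ ⁅K0, K0⁆ := by
    intro dd
    have h := hsum (fun i => (0, fun u => u.1.1 i * (u.1.2 i * dd u), 0))
      (fun i => ha1 i (fun u => u.1.2 i * dd u))
    have e : ((0, dd, 0) : (UU n → ℚ) × (UU n → ℚ) × (UU n → ℚ)) =
        ∑ i, (0, fun u => u.1.1 i * (u.1.2 i * dd u), 0) := by
      refine Prod.ext ?_ (Prod.ext ?_ ?_)
      · rw [Prod.fst_sum]; simp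
      · rw [Prod.snd_sum, Prod.fst_sum]
        funext u
        rw [Finset.sum_apply]
        show dd u = ∑ i, u.1.1 i * (u.1.2 i * dd u)
        simp only [← mul_assoc]
        rw [← Finset.sum_mul, u.2, one_mul]
      · rw [Prod.snd_sum, Prod.snd_sum]; simp
    rw [e]
    exact h
  have hb : ∀ ee : UU n → ℚ, Zf n (0, 0, ee) ∈ ⁅K0, K0⁆ := by
    intro ee
    have h := hsum (fun i => (0, 0, fun u => u.1.2 i * (u.1.1 i * ee u)))
      (fun i => hb1 i (fun u => u.1.1 i * ee u))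
    have e : ((0, 0, ee) : (UU n → ℚ) × (UU n → ℚ) × (UU n → ℚ)) =
        ∑ i, (0, 0, fun u => u.1.2 i * (u.1.1 i * ee u)) := by
      refine Prod.ext ?_ (Prod.ext ?_ ?_)
      · rw [Prod.fst_sum]; simp
      · rw [Prod.snd_sum, Prod.fst_sum]; simp
      · rw [Prod.snd_sum, Prod.snd_sum]
        funext u
        rw [Finset.sum_apply]
        show ee u = ∑ i, u.1.2 i * (u.1.1 i * ee u)
        have h1 : ∀ i, u.1.2 i * (u.1.1 i * ee u) = (u.1.1 i * u.1.2 i) * ee u := by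
          intro i; ring
        simp only [h1]
        rw [← Finset.sum_mul, u.2, one_mul]
    rw [e]
    exact h
  have hc1 : ∀ i, Zf n (fun u => u.1.1 i * δ * (u.1.2 i * 1), 0, 0) ∈ ⁅K0, K0⁆ := by
    intro i
    choose p q hpq using fun u : UU n => T_c3 (u.1.1 i * δ) (u.1.2 i * 1)
    have h : Zf n (fun u => u.1.1 i * δ * (u.1.2 i * 1), p, q) ∈ ⁅K0, K0⁆ := by
      have h := Subgroup.commutator_mem_commutator (hP i δ) (hR i 1)
      have e : Zf n (fun u => u.1.1 i * δ * (u.1.2 i * 1), p, q) = ⁅Pf n i δ, Rf n i 1⁆ := by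
        refine bg_ext (bg_comm_fst _ _).symm fun u => ?_
        rw [bg_comm_snd]
        exact (hpq u).symm
      rw [e]
      exact h
    have h2 := hadd _ _ (hadd _ _ h (ha (-p))) (hb (-q))
    have e : ((fun u => u.1.1 i * δ * (u.1.2 i * 1), p, q) + (0, -p, 0) + (0, 0, -q) :
        (UU n → ℚ) × (UU n → ℚ) × (UU n → ℚ)) = (fun u => u.1.1 i * δ * (u.1.2 i * 1), 0, 0) := by
      refine Prod.ext ?_ (Prod.ext ?_ ?_)
      · simp
      · simp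
      · simp
    rwa [e] at h2
  have hc : Zf n (fun _ => δ, 0, 0) ∈ ⁅K0, K0⁆ := by
    have h := hsum (fun i => (fun u => u.1.1 i * δ * (u.1.2 i * 1), 0, 0)) hc1
    have e : ((fun _ => δ, 0, 0) : (UU n → ℚ) × (UU n → ℚ) × (UU n → ℚ)) =
        ∑ i, (fun u => u.1.1 i * δ * (u.1.2 i * 1), 0, 0) := by
      refine Prod.ext ?_ (Prod.ext ?_ ?_)
      · rw [Prod.fst_sum]
        funext u
        rw [Finset.sum_apply]
        show δ = ∑ i, u.1.1 i * δ * (u.1.2 i * 1)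
        have h1 : ∀ i, u.1.1 i * δ * (u.1.2 i * 1) = (u.1.1 i * u.1.2 i) * δ := by
          intro i; ring
        simp only [h1]
        rw [← Finset.sum_mul, u.2, one_mul]
      · rw [Prod.snd_sum, Prod.fst_sum]; simp
      · rw [Prod.snd_sum, Prod.snd_sum]; simp
    rw [e]
    exact h
  have h3 := hadd _ _ (hadd _ _ hc (ha dd)) (hb ee)
  have e : ((fun _ => δ, 0, 0) + (0, dd, 0) + (0, 0, ee) :
      (UU n → ℚ) × (UU n → ℚ) × (UU n → ℚ)) = (fun _ => δ, dd, ee) := by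
    refine Prod.ext ?_ (Prod.ext ?_ ?_)
    · simp
    · simp
    · simp
  rwa [e] at h3

/-- evaluation at a coordinate -/
def phiB (n : ℕ) (u : UU n) : BG n →* T ℚ where
  toFun b := b.1.2 u
  map_one' := rfl
  map_mul' _ _ := rfl

/-- an additive function as a hom -/
def psiB {A : Type*} [Group A] (h : A → ℚ) (hh : IsAdd h) : A →* T ℚ where
  toFun b := ⟨h b, 0, 0, 0, 0⟩
  map_one' := by rw [hh.one]; rfl
  map_mul' a b := by
    rw [hh]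
    refine T.ext ?_ ?_ ?_ ?_ ?_ <;> simp [T.mul_c, T.mul_d, T.mul_e]

def sB (n : ℕ) (v w : ℚ) : BG n :=
  ⟨(Multiplicative.ofAdd (v, w, 0, 0), fun _ => ⟨v, w, 0, 0, 0⟩), by
    intro u
    constructor
    · show v = v + ∑ j, u.1.1 j * (0 : Fin n → ℚ) j
      simp
    · show w = w + ∑ j, u.1.2 j * (0 : Fin n → ℚ) j
      simp⟩

theorem T_s (v w v' w' : ℚ) : ∃ a b c : ℚ, (⟨v, w, 0, 0, 0⟩ : T ℚ) * ⟨v', w', 0, 0, 0⟩ *
    (⟨v + v', w + w', 0, 0, 0⟩ : T ℚ)⁻¹ = ⟨0, 0, a, b, c⟩ := by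
  refine ⟨_, _, _, T.ext ?_ ?_ rfl rfl rfl⟩ <;> simp

theorem exB_u (d : ℕ) (p r : Fin d → Fin (2 * d + 1) → ℚ) :
    ∃ u : UU (2 * d + 1), ∀ j, ∑ i, u.1.1 i * p j i = 0 ∧ ∑ i, u.1.2 i * r j i = 0 := by
  obtain ⟨L, hL⟩ : ∃ L : (Fin (2 * d + 1) → ℚ) →ₗ[ℚ] (Fin d → ℚ) × (Fin d → ℚ),
      ∀ u, L u = (fun j => ∑ i, u i * p j i, fun j => ∑ i, u i * r j i) := by
    refine ⟨{ toFun := fun u => (fun j => ∑ i, u i * p j i, fun j => ∑ i, u i * r j i)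
              map_add' := ?_
              map_smul' := ?_ }, fun u => rfl⟩
    · intro u v
      refine Prod.ext (funext fun j => ?_) (funext fun j => ?_)
      · show ∑ i, (u i + v i) * p j i = ∑ i, u i * p j i + ∑ i, v i * p j i
        rw [← Finset.sum_add_distrib]
        exact Finset.sum_congr rfl fun i _ => by ring
      · show ∑ i, (u i + v i) * r j i = ∑ i, u i * r j i + ∑ i, v i * r j i
        rw [← Finset.sum_add_distrib]
        exact Finset.sum_congr rfl fun i _ => by ring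
    · intro c u
      refine Prod.ext (funext fun j => ?_) (funext fun j => ?_)
      · show ∑ i, (c * u i) * p j i = c * ∑ i, u i * p j i
        rw [Finset.mul_sum]
        exact Finset.sum_congr rfl fun i _ => by ring
      · show ∑ i, (c * u i) * r j i = c * ∑ i, u i * r j i
        rw [Finset.mul_sum]
        exact Finset.sum_congr rfl fun i _ => by ring
  have hker : LinearMap.ker L ≠ ⊥ := by
    apply LinearMap.ker_ne_bot_of_finrank_lt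
    rw [Module.finrank_prod, Module.finrank_fin_fun, Module.finrank_fin_fun]
    omega
  obtain ⟨u, huk, hu0⟩ := Submodule.exists_mem_ne_zero_of_ne_bot hker
  rw [LinearMap.mem_ker, hL] at huk
  have hp : ∀ j, ∑ i, u i * p j i = 0 := fun j => congrFun (congrArg Prod.fst huk) j
  have hr : ∀ j, ∑ i, u i * r j i = 0 := fun j => congrFun (congrArg Prod.snd huk) j
  have hpos : 0 < ∑ i, u i * u i := by
    obtain ⟨i, hi⟩ := Function.ne_iff.mp hu0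
    refine Finset.sum_pos' (fun j _ => mul_self_nonneg _) ⟨i, Finset.mem_univ _, ?_⟩
    exact mul_self_pos.mpr hi
  obtain ⟨D, hD⟩ : ∃ D, D = ∑ i, u i * u i := ⟨_, rfl⟩
  rw [← hD] at hpos
  refine ⟨⟨(u, fun i => u i / D), ?_⟩, fun j => ⟨hp j, ?_⟩⟩
  · show ∑ i, u i * (u i / D) = 1
    have : ∀ i, u i * (u i / D) = (u i * u i) / D := fun i => by ring
    simp only [this]
    rw [← Finset.sum_div, ← hD, div_self hpos.ne']
  · show ∑ i, u i / D * r j i = 0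
    have : ∀ i, u i / D * r j i = (u i * r j i) / D := fun i => by ring
    simp only [this]
    rw [← Finset.sum_div, hr j, zero_div]

/-- The special group with local liftings. -/
theorem exists_B (d : ℕ) : ∃ (B : Type) (_ : Group B) (y1 y2 : B → ℚ) (h1 : IsAdd y1)
    (h2 : IsAdd y2) (s : ℚ → ℚ → B),
    (∀ g : B, g ≠ 1 → ∃ φ : B →* T ℚ, φ g ≠ 1) ∧
    (∀ v w, y1 (s v w) = v) ∧ (∀ v w, y2 (s v w) = w) ∧ s 0 0 = 1 ∧
    (∀ v w v' w', s v w * s v' w' * (s (v + v') (w + w'))⁻¹ ∈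
      ⁅Ker2 y1 y2 h1 h2, Ker2 y1 y2 h1 h2⁆) ∧
    (∀ b : Fin d → B, ∃ φ : B →* T ℚ, ∀ j, (φ (b j)).x = y1 (b j) ∧ (φ (b j)).y = y2 (b j)) := by
  refine ⟨BG (2 * d + 1), inferInstance, y1B _, y2B _, y1B_add _, y2B_add _, sB _, ?_, ?_, ?_, ?_,
    ?_, ?_⟩
  · intro g hg
    by_contra hno
    push Not at hno
    apply hg
    have hx : ∀ h : BG (2 * d + 1) → ℚ, IsAdd h → h g = 0 := by
      intro h hh
      exact congrArg T.x (hno (psiB h hh))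
    refine bg_ext ?_ fun u => hno (phiB _ u)
    show g.1.1 = Multiplicative.ofAdd ((0, 0, 0, 0) : VV (2 * d + 1))
    have e1 := hx (fun b => (Multiplicative.toAdd b.1.1).1) (fun _ _ => rfl)
    have e2 := hx (fun b => (Multiplicative.toAdd b.1.1).2.1) (fun _ _ => rfl)
    have e3 := fun i => hx (fun b => (Multiplicative.toAdd b.1.1).2.2.1 i) (fun _ _ => rfl)
    have e4 := fun i => hx (fun b => (Multiplicative.toAdd b.1.1).2.2.2 i) (fun _ _ => rfl)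
    exact Prod.ext e1 (Prod.ext e2 (Prod.ext (funext e3) (funext e4)))
  · intro v w; rfl
  · intro v w; rfl
  · rfl
  · intro v w v' w'
    obtain ⟨a, b, c, habc⟩ := T_s v w v' w'
    have e : sB (2 * d + 1) v w * sB (2 * d + 1) v' w' * (sB (2 * d + 1) (v + v') (w + w'))⁻¹ =
        Zf (2 * d + 1) (fun _ => a, fun _ => b, fun _ => c) := by
      refine bg_ext ?_ fun u => habc
      show Multiplicative.ofAdd (((v, w, 0, 0) : VV (2 * d + 1)) + (v', w', 0, 0) +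
        -(v + v', w + w', 0, 0)) = Multiplicative.ofAdd 0
      congr 1
      have : ((v, w, 0, 0) : VV (2 * d + 1)) + (v', w', 0, 0) = (v + v', w + w', 0, 0) := by
        refine Prod.ext rfl (Prod.ext rfl (Prod.ext ?_ ?_))
        · simp
        · simp
      rw [this, add_neg_cancel]
    rw [e]
    exact Zf_mem _ _ _ _
  · intro b
    obtain ⟨u, hu⟩ := exB_u d (fun j => (Multiplicative.toAdd (b j).1.1).2.2.1)
      (fun j => (Multiplicative.toAdd (b j).1.1).2.2.2)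
    refine ⟨phiB _ u, fun j => ?_⟩
    obtain ⟨hx, hy⟩ := (b j).2 u
    constructor
    · show ((b j).1.2 u).x = (Multiplicative.toAdd (b j).1.1).1
      rw [hx]
      unfold eB
      rw [(hu j).1, add_zero]
    · show ((b j).1.2 u).y = (Multiplicative.toAdd (b j).1.1).2.1
      rw [hy]
      unfold fB
      rw [(hu j).2, add_zero]

end Pool.Agent.Helper877.QI
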