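import Pool.Agent.Helper877.QI.Base

set_option autoImplicit false

namespace Pool.Agent.Helper877.QI


theorem exists_omega_zpow {W : Type*} [Field W] {A : Type*} [Group A] (g : A → W)
    (hg : ∀ a b, g (a * b) = g a + g b) (a : A) (m : ℤ) : g (a ^ m) = m * g a := by
  let φ : A →* Multiplicative W := MonoidHom.mk' (fun a => Multiplicative.ofAdd (g a))
    (fun a b => by rw [hg, ofAdd_add])
  have h := map_zpow φ a m
  have h2 : g (a ^ m) = m • g a := congrArg Multiplicative.toAdd h
  rw [h2, zsmul_eq_mul]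

theorem exists_omega_lin {V : Type*} [Field V] [CharZero V] {A : Type*} [Group A] (e f : A → ℚ)
    (he : IsAdd e) (hf : IsAdd f) (β : A → A → V)
    (h1 : ∀ a b c, β (a * b) c = β a c + β b c)
    (h4 : ∀ a b, e a = 0 → f a = 0 → β a b = 0) (p q r : ℚ) (a b c : A)
    (hE : p * e a + q * e b + r * e c = 0) (hF : p * f a + q * f b + r * f c = 0) (d : A) :
    (p : V) * β a d + (q : V) * β b d + (r : V) * β c d = 0 := by
  obtain ⟨K, hK⟩ : ∃ K : ℤ, K = (p.den : ℤ) * q.den * r.den := ⟨_, rfl⟩
  have hK0 : K ≠ 0 := by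
    rw [hK]
    have h1 := p.den_nz
    have h2 := q.den_nz
    have h3 := r.den_nz
    positivity
  obtain ⟨m1, hm1⟩ : ∃ m1 : ℤ, m1 = p.num * q.den * r.den := ⟨_, rfl⟩
  obtain ⟨m2, hm2⟩ : ∃ m2 : ℤ, m2 = q.num * p.den * r.den := ⟨_, rfl⟩
  obtain ⟨m3, hm3⟩ : ∃ m3 : ℤ, m3 = r.num * p.den * q.den := ⟨_, rfl⟩
  have ep : (p.num : ℚ) = p * p.den := (Rat.mul_den_eq_num p).symm
  have eq : (q.num : ℚ) = q * q.den := (Rat.mul_den_eq_num q).symm
  have er : (r.num : ℚ) = r * r.den := (Rat.mul_den_eq_num r).symm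
  have e1 : (m1 : ℚ) = K * p := by rw [hm1, hK]; push_cast; rw [ep]; ring
  have e2 : (m2 : ℚ) = K * q := by rw [hm2, hK]; push_cast; rw [eq]; ring
  have e3 : (m3 : ℚ) = K * r := by rw [hm3, hK]; push_cast; rw [er]; ring
  have v1 : (m1 : V) = K * (p : V) := by exact_mod_cast congrArg (fun x : ℚ => (x : V)) e1
  have v2 : (m2 : V) = K * (q : V) := by exact_mod_cast congrArg (fun x : ℚ => (x : V)) e2
  have v3 : (m3 : V) = K * (r : V) := by exact_mod_cast congrArg (fun x : ℚ => (x : V)) e3
  have hz := h4 (a ^ m1 * b ^ m2 * c ^ m3) d (by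
    rw [he, he, exists_omega_zpow e he, exists_omega_zpow e he, exists_omega_zpow e he, e1, e2, e3]
    linear_combination (K : ℚ) * hE) (by
    rw [hf, hf, exists_omega_zpow f hf, exists_omega_zpow f hf, exists_omega_zpow f hf, e1, e2, e3]
    linear_combination (K : ℚ) * hF)
  have hb : ∀ (x : A) (m : ℤ), β (x ^ m) d = m * β x d := fun x m =>
    exists_omega_zpow (fun x => β x d) (fun x y => h1 x y d) x m
  rw [h1, h1, hb, hb, hb, v1, v2, v3] at hz
  have hKV : (K : V) ≠ 0 := by exact_mod_cast hK0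
  have : (K : V) * ((p : V) * β a d + (q : V) * β b d + (r : V) * β c d) = 0 := by
    rw [← hz]; ring
  exact (mul_eq_zero.1 this).resolve_left hKV

/-- An alternating form vanishing on the common kernel of `e, f` is a multiple of their determinant. -/
theorem exists_omega {V : Type*} [Field V] [CharZero V] {A : Type*} [Group A] (e f : A → ℚ)
    (he : IsAdd e) (hf : IsAdd f) (β : A → A → V)
    (h1 : ∀ a b c, β (a * b) c = β a c + β b c) (h2 : ∀ a b c, β a (b * c) = β a b + β a c)
    (h3 : ∀ a, β a a = 0) (h4 : ∀ a b, e a = 0 → f a = 0 → β a b = 0) :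
    ∃ ω : V, ∀ a b, β a b = ω * ((e a * f b - f a * e b : ℚ) : V) := by
  have hlin := exists_omega_lin e f he hf β h1 h4
  have hanti : ∀ a b, β b a = - β a b := by
    intro a b
    have h := h3 (a * b)
    rw [h1, h2, h2, h3, h3] at h
    linear_combination h
  by_cases hD : ∃ a0 b0, e a0 * f b0 - f a0 * e b0 ≠ 0
  · obtain ⟨a0, b0, hD⟩ := hD
    obtain ⟨D, hDdef⟩ : ∃ D : ℚ, D = e a0 * f b0 - f a0 * e b0 := ⟨_, rfl⟩
    rw [← hDdef] at hD
    have hDV : (D : V) ≠ 0 := by exact_mod_cast hD
    have key : ∀ a c, (D : V) * β a c = ((e a * f b0 - f a * e b0 : ℚ) : V) * β a0 c +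
        ((e a0 * f a - f a0 * e a : ℚ) : V) * β b0 c := by
      intro a c
      have h := hlin D (-(e a * f b0 - f a * e b0)) (-(e a0 * f a - f a0 * e a)) a a0 b0
        (by rw [hDdef]; ring) (by rw [hDdef]; ring) c
      rw [Rat.cast_neg, Rat.cast_neg] at h
      linear_combination h
    refine ⟨β a0 b0 / D, fun a b => ?_⟩
    have k1 := key a b
    have k2 := key b a0
    have k3 := key b b0
    rw [h3, hanti a0 b0, hanti a0 b] at k2
    rw [h3, hanti b0 b] at k3
    have hfin : (D : V) * ((D : V) * β a b) = (D : V) * (β a0 b0 * ((e a * f b - f a * e b : ℚ) : V)) := by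
      rw [k1]
      have hP : ((e a * f b0 - f a * e b0) * (e a0 * f b - f a0 * e b) -
          (e a0 * f a - f a0 * e a) * (e b * f b0 - f b * e b0) : ℚ) =
          D * (e a * f b - f a * e b) := by rw [hDdef]; ring
      have hPV : ((e a * f b0 - f a * e b0 : ℚ) : V) * ((e a0 * f b - f a0 * e b : ℚ) : V) -
          ((e a0 * f a - f a0 * e a : ℚ) : V) * ((e b * f b0 - f b * e b0 : ℚ) : V) =
          (D : V) * ((e a * f b - f a * e b : ℚ) : V) := by
        exact_mod_cast congrArg (fun x : ℚ => (x : V)) hP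
      linear_combination (-((e a * f b0 - f a * e b0 : ℚ) : V)) * k2 -
        ((e a0 * f a - f a0 * e a : ℚ) : V) * k3 + β a0 b0 * hPV
    have h5 := mul_left_cancel₀ hDV hfin
    rw [div_mul_eq_mul_div, eq_div_iff hDV]
    linear_combination h5
  · push Not at hD
    refine ⟨0, fun a b => ?_⟩
    rw [zero_mul]
    have hab := hD a b
    have r1 := hlin (e b) (-(e a)) 0 a b a (by ring) (by linear_combination -hab) a
    have r2 := hlin (f b) (-(f a)) 0 a b a (by linear_combination hab) (by ring) a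
    rw [h3, Rat.cast_neg] at r1 r2
    by_cases hea : e a = 0
    · by_cases hfa : f a = 0
      · exact h4 a b hea hfa
      · have hV : (f a : V) ≠ 0 := by exact_mod_cast hfa
        have : (f a : V) * β b a = 0 := by linear_combination -r2
        have h6 := (mul_eq_zero.1 this).resolve_left hV
        rw [hanti b a, h6, neg_zero]
    · have hV : (e a : V) ≠ 0 := by exact_mod_cast hea
      have : (e a : V) * β b a = 0 := by linear_combination -r1
      have h6 := (mul_eq_zero.1 this).resolve_left hV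
      rw [hanti b a, h6, neg_zero]

end Pool.Agent.Helper877.QI
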