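import Pool.Agent.Helper877.QI.Base
import Pool.Agent.Helper877.QI.Twist
import Pool.Agent.Helper877.QI.Omega
import Pool.Agent.Helper877.QI.Centre

set_option autoImplicit false

namespace Pool.Agent.Helper877.QI





theorem j16721_nu_zero {V : Type*} [Field V] [CharZero V] {A : Type*} [Group A]
    (e f : A → ℚ) (he : IsAdd e) (hf : IsAdd f) (ν : A → V)
    (hadd : ∀ m ∈ Ker2 e f he hf, ∀ n ∈ Ker2 e f he hf, ν (m * n) = ν m + ν n)
    (hconj : ∀ a, ∀ n ∈ Ker2 e f he hf, ν (a * n * a⁻¹) = ν n)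
    (z : A) (hzX : z ∈ Ker2 e f he hf) (hz : ∀ φ : A →* T V, φ z = 1) : ν z = 0 := by
  have hcm : ∀ a b : A, cm a b ∈ Ker2 e f he hf := by
    intro a b
    constructor
    · simp only [cm]
      rw [he, he, he, he.inv, he.inv]; ring
    · simp only [cm]
      rw [hf, hf, hf, hf.inv, hf.inv]; ring
  have hcj : ∀ a, ∀ n ∈ Ker2 e f he hf, a * n * a⁻¹ ∈ Ker2 e f he hf := by
    rintro a n ⟨hn1, hn2⟩
    constructor
    · rw [he, he, he.inv, hn1]; ring
    · rw [hf, hf, hf.inv, hn2]; ring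
  have hν1 : ν 1 = 0 := by
    have h := hadd 1 (one_mem _) 1 (one_mem _)
    rw [mul_one] at h
    exact left_eq_add.mp h
  obtain ⟨ω, hω⟩ := exists_omega e f he hf (fun a b => ν (cm a b))
    (by
      intro a b c
      have h : cm (a * b) c = (a * cm b c * a⁻¹) * cm a c := by
        simp only [cm]; group
      change ν (cm (a * b) c) = ν (cm a c) + ν (cm b c)
      rw [h, hadd _ (hcj a _ (hcm b c)) _ (hcm a c), hconj a _ (hcm b c)]
      ring)
    (by
      intro a b c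
      have h : cm a (b * c) = cm a b * (b * cm a c * b⁻¹) := by
        simp only [cm]; group
      change ν (cm a (b * c)) = ν (cm a b) + ν (cm a c)
      rw [h, hadd _ (hcm a b) _ (hcj b _ (hcm a c)), hconj b _ (hcm a c)])
    (by
      intro a
      have h : cm a a = 1 := by simp only [cm]; group
      change ν (cm a a) = 0
      rw [h, hν1])
    (by
      intro a b ha1 ha2
      have haX : a ∈ Ker2 e f he hf := ⟨ha1, ha2⟩
      have h : cm a b = a * (b * a⁻¹ * b⁻¹) := by simp only [cm]; group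
      change ν (cm a b) = 0
      rw [h, hadd _ haX _ (hcj b _ (inv_mem haX)), hconj b _ (inv_mem haX),
        ← hadd _ haX _ (inv_mem haX), mul_inv_cancel, hν1])
  obtain ⟨t, ht1, ht2⟩ := exists_quad (Ker2 e f he hf) hcm ν hadd hconj
  have hω' : ∀ a b, ν (cm a b) = ω * ((e a * f b - f a * e b : ℚ) : V) := hω
  let χ : A →* T V := MonoidHom.mk' (fun a =>
    { x := (e a : V), y := 0, c := ω * (f a : V), d := t a, e := 0 }) (by
      intro a b
      ext
      · simp only [T.mul_x]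
        rw [he]; push_cast; ring
      · simp only [T.mul_y]; ring
      · simp only [T.mul_c]
        rw [hf]; push_cast; ring
      · simp only [T.mul_d]
        rw [ht1, hω']; push_cast; ring
      · simp only [T.mul_e]; ring)
  have h1 : χ z = 1 := hz χ
  have h2 : (χ z).d = 0 := by rw [h1]; rfl
  have h3 : t z = 0 := h2
  rw [← ht2 z hzX, h3]

/-- The key non-membership lemma. -/
theorem killed_of_killed {V : Type*} [Field V] [CharZero V] {A B : Type*} [Group A] [Group B]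
    (e f : A → ℚ) (he : IsAdd e) (hf : IsAdd f) (y1 y2 : B → ℚ) (h1 : IsAdd y1) (h2 : IsAdd y2)
    (s : ℚ → ℚ → B) (hs1 : ∀ v w, y1 (s v w) = v) (hs2 : ∀ v w, y2 (s v w) = w)
    (hs0 : s 0 0 = 1)
    (hs : ∀ v w v' w', s v w * s v' w' * (s (v + v') (w + w'))⁻¹ ∈
      ⁅Ker2 y1 y2 h1 h2, Ker2 y1 y2 h1 h2⁆)
    (z : A) (hz : ∀ φ : A →* T V, φ z = 1)
    (ψ : FP e f he hf y1 y2 h1 h2 →* T V) (hmem : (z, (1 : B)) ∈ FP e f he hf y1 y2 h1 h2) :
    ψ ⟨(z, 1), hmem⟩ = 1 := by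
  classical
  have hzX : z ∈ Ker2 e f he hf := by
    have e1 : y1 1 = e z := hmem.1
    have e2 : y2 1 = f z := hmem.2
    exact ⟨by rw [← e1, h1.one], by rw [← e2, h2.one]⟩
  have memB : ∀ b ∈ Ker2 y1 y2 h1 h2, ((1 : A), b) ∈ FP e f he hf y1 y2 h1 h2 := by
    rintro b ⟨hb1, hb2⟩
    exact ⟨by change y1 b = e 1; rw [hb1, he.one], by change y2 b = f 1; rw [hb2, hf.one]⟩
  have memX : ∀ x ∈ Ker2 e f he hf, (x, (1 : B)) ∈ FP e f he hf y1 y2 h1 h2 := by
    rintro x ⟨hx1, hx2⟩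
    exact ⟨by change y1 1 = e x; rw [hx1, h1.one], by change y2 1 = f x; rw [hx2, h2.one]⟩
  have memS : ∀ a : A, (a, s (e a) (f a)) ∈ FP e f he hf y1 y2 h1 h2 :=
    fun a => ⟨hs1 _ _, hs2 _ _⟩
  by_cases hcase : ∀ b, ∀ hb : b ∈ Ker2 y1 y2 h1 h2, ∀ b', ∀ hb' : b' ∈ Ker2 y1 y2 h1 h2,
      ψ ⟨(1, b), memB b hb⟩ * ψ ⟨(1, b'), memB b' hb'⟩ =
        ψ ⟨(1, b'), memB b' hb'⟩ * ψ ⟨(1, b), memB b hb⟩
  · -- Case 2
    let θ : Ker2 y1 y2 h1 h2 →* T V := MonoidHom.mk' (fun b => ψ ⟨(1, b.1), memB b.1 b.2⟩) (by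
      intro a b
      rw [← map_mul]
      congr 1
      ext <;> simp)
    have hθ : ∀ k, ∀ _ : k ∈ ⁅Ker2 y1 y2 h1 h2, Ker2 y1 y2 h1 h2⁆,
        ∃ hk : k ∈ Ker2 y1 y2 h1 h2, ψ ⟨(1, k), memB k hk⟩ = 1 := by
      intro k hk
      have hle : ⁅Ker2 y1 y2 h1 h2, Ker2 y1 y2 h1 h2⁆ ≤ θ.ker.map (Ker2 y1 y2 h1 h2).subtype := by
        rw [Subgroup.commutator_le]
        intro g1 hg1 g2 hg2
        refine ⟨(⟨g1, hg1⟩ : Ker2 y1 y2 h1 h2) * ⟨g2, hg2⟩ * (⟨g1, hg1⟩)⁻¹ * (⟨g2, hg2⟩)⁻¹, ?_, rfl⟩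
        change θ _ = 1
        rw [map_mul, map_mul, map_mul, map_inv, map_inv]
        have hc : θ ⟨g1, hg1⟩ * θ ⟨g2, hg2⟩ = θ ⟨g2, hg2⟩ * θ ⟨g1, hg1⟩ :=
          hcase g1 hg1 g2 hg2
        rw [hc]; group
      obtain ⟨k', hk', rfl⟩ := hle hk
      exact ⟨k'.2, hk'⟩
    let φ : A →* T V := MonoidHom.mk' (fun a => ψ ⟨(a, s (e a) (f a)), memS a⟩) (by
      intro a b
      obtain ⟨hk, hk1⟩ := hθ _ (hs (e a) (f a) (e b) (f b))
      have hab : (⟨(a * b, s (e (a * b)) (f (a * b))), memS (a * b)⟩ :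
          FP e f he hf y1 y2 h1 h2) =
          ⟨(1, s (e a) (f a) * s (e b) (f b) * (s (e a + e b) (f a + f b))⁻¹), memB _ hk⟩⁻¹ *
          (⟨(a, s (e a) (f a)), memS a⟩ * ⟨(b, s (e b) (f b)), memS b⟩) := by
        apply Subtype.ext
        apply Prod.ext
        · change a * b = 1⁻¹ * (a * b)
          group
        · change s (e (a * b)) (f (a * b)) =
            (s (e a) (f a) * s (e b) (f b) * (s (e a + e b) (f a + f b))⁻¹)⁻¹ *
              (s (e a) (f a) * s (e b) (f b))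
          rw [he, hf]; group
      rw [hab, map_mul, map_inv, hk1, inv_one, one_mul, map_mul])
    have hφ : φ z = 1 := hz φ
    have hφ' : ψ ⟨(z, s (e z) (f z)), memS z⟩ = 1 := hφ
    rw [← hφ']
    congr 1
    apply Subtype.ext
    apply Prod.ext
    · rfl
    · change (1 : B) = s (e z) (f z)
      rw [hzX.1, hzX.2, hs0]
  · -- Case 1
    push Not at hcase
    obtain ⟨b, hb, b', hb', hne⟩ := hcase
    have cen : ∀ x, ∀ hx : x ∈ Ker2 e f he hf, (ψ ⟨(x, 1), memX x hx⟩).x = 0 ∧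
        (ψ ⟨(x, 1), memX x hx⟩).y = 0 ∧ (ψ ⟨(x, 1), memX x hx⟩).c = 0 := by
      intro x hx
      refine T.central_of_commute _ (ψ ⟨(1, b), memB b hb⟩) (ψ ⟨(1, b'), memB b' hb'⟩) ?_ ?_ hne
      · rw [← map_mul, ← map_mul]
        congr 1
        ext <;> simp
      · rw [← map_mul, ← map_mul]
        congr 1
        ext <;> simp
    have cadd : ∀ x, ∀ hx : x ∈ Ker2 e f he hf, ∀ y, ∀ hy : y ∈ Ker2 e f he hf,
        ψ ⟨(x * y, 1), memX _ (mul_mem hx hy)⟩ = ψ ⟨(x, 1), memX x hx⟩ * ψ ⟨(y, 1), memX y hy⟩ := by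
      intro x hx y hy
      rw [← map_mul]
      congr 1
      ext <;> simp
    have cconj : ∀ a, ∀ x, ∀ hx : x ∈ Ker2 e f he hf, ∀ hax : a * x * a⁻¹ ∈ Ker2 e f he hf,
        ψ ⟨(a * x * a⁻¹, 1), memX _ hax⟩ = ψ ⟨(x, 1), memX x hx⟩ := by
      intro a x hx hax
      have e1 : (⟨(a * x * a⁻¹, 1), memX _ hax⟩ : FP e f he hf y1 y2 h1 h2) =
          ⟨(a, s (e a) (f a)), memS a⟩ * ⟨(x, 1), memX x hx⟩ *
            ⟨(a, s (e a) (f a)), memS a⟩⁻¹ := by
        apply Subtype.ext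
        apply Prod.ext
        · rfl
        · change (1 : B) = s (e a) (f a) * 1 * (s (e a) (f a))⁻¹
          group
      rw [e1, map_mul, map_mul, map_inv]
      obtain ⟨c1, c2, c3⟩ := cen x hx
      have hcomm : ∀ g : T V, g * ψ ⟨(x, 1), memX x hx⟩ = ψ ⟨(x, 1), memX x hx⟩ * g := by
        intro g
        ext
        · simp only [T.mul_x]; ring
        · simp only [T.mul_y]; ring
        · simp only [T.mul_c, c1, c2, c3]; ring
        · simp only [T.mul_d, c1, c2, c3]; ring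
        · simp only [T.mul_e, c1, c2, c3]; ring
      rw [hcomm, mul_inv_cancel_right]
    have hcj : ∀ a, ∀ n ∈ Ker2 e f he hf, a * n * a⁻¹ ∈ Ker2 e f he hf := by
      rintro a n ⟨hn1, hn2⟩
      constructor
      · rw [he, he, he.inv, hn1]; ring
      · rw [hf, hf, hf.inv, hn2]; ring
    have hD : (ψ ⟨(z, 1), memX z hzX⟩).d = 0 := by
      have := j16721_nu_zero e f he hf
        (fun a => if h : a ∈ Ker2 e f he hf then (ψ ⟨(a, 1), memX a h⟩).d else (0 : V))
        (by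
          intro m hm n hn
          simp only [hm, hn, mul_mem hm hn, dif_pos]
          rw [cadd m hm n hn, T.mul_d]
          obtain ⟨c1, c2, c3⟩ := cen m hm
          obtain ⟨c1', c2', c3'⟩ := cen n hn
          rw [c1, c2, c3, c1', c2', c3']; ring)
        (by
          intro a n hn
          simp only [hn, hcj a n hn, dif_pos]
          rw [cconj a n hn (hcj a n hn)])
        z hzX hz
      simpa only [hzX, dif_pos] using this
    have hE : (ψ ⟨(z, 1), memX z hzX⟩).e = 0 := by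
      have := j16721_nu_zero e f he hf
        (fun a => if h : a ∈ Ker2 e f he hf then (ψ ⟨(a, 1), memX a h⟩).e else (0 : V))
        (by
          intro m hm n hn
          simp only [hm, hn, mul_mem hm hn, dif_pos]
          rw [cadd m hm n hn, T.mul_e]
          obtain ⟨c1, c2, c3⟩ := cen m hm
          obtain ⟨c1', c2', c3'⟩ := cen n hn
          rw [c1, c2, c3, c1', c2', c3']; ring)
        (by
          intro a n hn
          simp only [hn, hcj a n hn, dif_pos]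
          rw [cconj a n hn (hcj a n hn)])
        z hzX hz
      simpa only [hzX, dif_pos] using this
    obtain ⟨c1, c2, c3⟩ := cen z hzX
    ext
    · exact c1
    · exact c2
    · exact c3
    · exact hD
    · exact hE

end Pool.Agent.Helper877.QI
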