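import Pool.Agent.Helper877.QI.Base
import Pool.Agent.Helper877.QI.GroupB
import Pool.Agent.Helper877.QI.Killed
import Pool.Agent.Helper877.QI.Fibre
import Pool.Agent.Helper877.QI.Compact

set_option autoImplicit false

namespace Pool.Agent.Helper877.QI




universe u v





theorem kl_map {H : Type*} {H' : Type*} [Group H] [Group H'] (φ : H →* H') (a : ℕ → H)
    (w : FreeGroup ℕ) :
    φ (FreeGroup.lift a w) = FreeGroup.lift (fun i => φ (a i)) w := by
  have : (φ.comp (FreeGroup.lift a)) = FreeGroup.lift (fun i => φ (a i)) := by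
    ext i
    simp
  exact DFunLike.congr_fun this w

theorem Sat.of_injective {S : Set QuasiId} {H : Type*} {H' : Type*} [Group H] [Group H']
    (h : Sat S H') (φ : H →* H') (hφ : Function.Injective φ) : Sat S H := by
  intro σ hσ a ha
  apply hφ
  rw [kl_map, kl_map]
  apply h σ hσ
  intro p hp
  rw [← kl_map, ← kl_map, ha p hp]

theorem Sat.prod {S : Set QuasiId} {H : Type*} {H' : Type*} [Group H] [Group H']
    (h : Sat S H) (h' : Sat S H') : Sat S (H × H') := by
  intro σ hσ a ha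
  apply Prod.ext
  · have e : ∀ w, (FreeGroup.lift a w).1 = FreeGroup.lift (fun i => (a i).1) w :=
      fun w => kl_map (MonoidHom.fst H H') a w
    rw [e, e]
    apply h σ hσ
    intro p hp
    rw [← e, ← e, ha p hp]
  · have e : ∀ w, (FreeGroup.lift a w).2 = FreeGroup.lift (fun i => (a i).2) w :=
      fun w => kl_map (MonoidHom.snd H H') a w
    rw [e, e]
    apply h' σ hσ
    intro p hp
    rw [← e, ← e, ha p hp]

universe w1 w2 in
theorem Sat.of_sep2 {S : Set QuasiId} {H : Type*} [Group H]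
    (h : ∀ z : H, z ≠ 1 → (∃ (H' : Type w1) (_ : Group H') (φ : H →* H'), Sat S H' ∧ φ z ≠ 1) ∨
      (∃ (H' : Type w2) (_ : Group H') (φ : H →* H'), Sat S H' ∧ φ z ≠ 1)) :
    Sat S H := by
  refine Sat.of_sep.{_, max w1 w2} fun z hz => ?_
  rcases h z hz with ⟨H', _, φ, hS, hne⟩ | ⟨H', _, φ, hS, hne⟩
  · refine ⟨ULift.{max w1 w2} H', inferInstance, (MulEquiv.ulift.symm.toMonoidHom).comp φ,
      hS.of_injective ((MulEquiv.ulift : ULift.{max w1 w2} H' ≃* H').toMonoidHom)
        (fun a b hab => ULift.down_injective hab), ?_⟩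
    intro h0
    apply hne
    have := congrArg ULift.down h0
    exact this
  · refine ⟨ULift.{max w1 w2} H', inferInstance, (MulEquiv.ulift.symm.toMonoidHom).comp φ,
      hS.of_injective ((MulEquiv.ulift : ULift.{max w1 w2} H' ≃* H').toMonoidHom)
        (fun a b hab => ULift.down_injective hab), ?_⟩
    intro h0
    apply hne
    have := congrArg ULift.down h0
    exact this

theorem kl_ex {A : Type*} [Group A] (e : A → ℚ) (he : IsAdd e) (z : A)
    (hz : ∀ φ : A →* T ℚ, φ z = 1) : e z = 0 := by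
  have h := hz (MonoidHom.mk' (fun a => (⟨e a, 0, 0, 0, 0⟩ : T ℚ)) (by
    intro a b
    ext <;> simp [T.mul_c, T.mul_d, T.mul_e, he a b]))
  exact congrArg T.x h

/-- The key lemma: from a torsion-free group of class 3 outside the quasivariety one obtains
another one all of whose `d`-generated subgroups lie in the quasivariety. -/
theorem key_lemma {G : Type u} [Group G] (hG : ∀ g : G, g ≠ 1 → ∃ φ : G →* T ℚ, φ g ≠ 1)
    (hGT : Sat (Th G) (T ℚ)) (Q : Set QuasiId) (hQ : Sat Q (T ℚ)) (A : Type v) [Group A]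
    [Group.FG A] (ht : TorsionFree A) (hc : ∀ a b c d : A, cm a (cm b (cm c d)) = 1)
    (hQA : Sat Q A) (hKA : ¬ Sat (Th G) A) (d : ℕ) :
    ∃ (C : Type v) (_ : Group C), Sat Q C ∧ ¬ Sat (Th G) C ∧
      ∀ b : Fin d → C, Sat (Th G) (Subgroup.closure (Set.range b)) := by
  obtain ⟨A', _, e', f', he', hf', hQA', hKA', hFP⟩ :=
    exists_fibre (Th G) Q hGT hQ A ht hc hQA hKA
  obtain ⟨B, _, y1, y2, h1, h2, s, hB, hs1, hs2, hs0, hs, hloc⟩ := exists_B d
  have hBsat : ∀ S, Sat S (T ℚ) → Sat S B := by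
    intro S hS
    refine Sat.of_sep fun g hg => ?_
    obtain ⟨φ, hφ⟩ := hB g hg
    exact ⟨T ℚ, inferInstance, φ, hS, hφ⟩
  refine ⟨FP e' f' he' hf' y1 y2 h1 h2, inferInstance, ?_, ?_, ?_⟩
  · exact (hQA'.prod (hBsat Q hQ)).of_injective (Subgroup.subtype _) (Subgroup.subtype_injective _)
  · intro hC
    have hz : ∃ z : A', z ≠ 1 ∧ (∀ φ : A' →* T ℚ, φ z = 1) ∧
        (∀ (V : Type v) [Field V] [CharZero V], Sat (Th G) (T V) → ∀ φ : A' →* T V, φ z = 1) := by
      by_contra hno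
      apply hKA'
      refine Sat.of_sep2.{0, v} fun z hz => ?_
      by_cases hq : ∃ φ : A' →* T ℚ, φ z ≠ 1
      · obtain ⟨φ, hφ⟩ := hq
        exact Or.inl ⟨T ℚ, inferInstance, φ, hGT, hφ⟩
      · push Not at hq
        right
        by_contra hno2
        apply hno
        refine ⟨z, hz, hq, ?_⟩
        intro V _ _ hV φ
        by_contra hne
        exact hno2 ⟨T V, inferInstance, φ, hV, hne⟩
    obtain ⟨z, hz1, hzQ, hzV⟩ := hz
    have hmem : (z, (1 : B)) ∈ FP e' f' he' hf' y1 y2 h1 h2 := by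
      refine ⟨?_, ?_⟩
      · show y1 1 = e' z
        rw [h1.one, kl_ex e' he' z hzQ]
      · show y2 1 = f' z
        rw [h2.one, kl_ex f' hf' z hzQ]
    obtain ⟨V, _, _, hV, φ, hφ⟩ := exists_field_hom hG hC ⟨(z, 1), hmem⟩ (by
      intro h
      apply hz1
      have := congrArg Subtype.val h
      exact congrArg Prod.fst this)
    apply hφ
    exact killed_of_killed e' f' he' hf' y1 y2 h1 h2 s hs1 hs2 hs0 hs z
      (hzV V (fun σ hσ => hV σ (hGT σ hσ))) φ hmem
  · intro b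
    obtain ⟨φ, hφ⟩ := hloc (fun j => (b j).1.2)
    have hcl : ∀ g ∈ Subgroup.closure (Set.range b),
        (φ g.1.2).x = y1 g.1.2 ∧ (φ g.1.2).y = y2 g.1.2 := by
      intro g hg
      induction hg using Subgroup.closure_induction with
      | mem x hx =>
        obtain ⟨j, rfl⟩ := hx
        exact hφ j
      | one =>
        show (φ (1 : B)).x = y1 1 ∧ (φ (1 : B)).y = y2 1
        rw [map_one, h1.one, h2.one]
        exact ⟨rfl, rfl⟩
      | mul x y _ _ hx hy =>
        show (φ (x.1.2 * y.1.2)).x = y1 (x.1.2 * y.1.2) ∧ (φ (x.1.2 * y.1.2)).y = y2 (x.1.2 * y.1.2)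
        rw [map_mul, h1, h2, T.mul_x, T.mul_y, hx.1, hx.2, hy.1, hy.2]
        exact ⟨rfl, rfl⟩
      | inv x _ hx =>
        show (φ (x.1.2⁻¹)).x = y1 (x.1.2⁻¹) ∧ (φ (x.1.2⁻¹)).y = y2 (x.1.2⁻¹)
        rw [map_inv, h1.inv, h2.inv, T.inv_x, T.inv_y, hx.1, hx.2]
        exact ⟨rfl, rfl⟩
    let Ψ : Subgroup.closure (Set.range b) →*
        (FP e' f' he' hf' (T.x : T ℚ → ℚ) T.y T.isAdd_x T.isAdd_y) × B :=
      MonoidHom.mk' (fun g => (⟨(g.1.1.1, φ g.1.1.2),
        ⟨(hcl g.1 g.2).1.trans g.1.2.1, (hcl g.1 g.2).2.trans g.1.2.2⟩⟩, g.1.1.2)) (by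
          intro g h
          refine Prod.ext (Subtype.ext (Prod.ext rfl ?_)) rfl
          exact map_mul φ _ _)
    refine (hFP.prod (hBsat (Th G) hGT)).of_injective Ψ ?_
    intro g h hgh
    have e1 : (Ψ g).1.1.1 = (Ψ h).1.1.1 := by rw [hgh]
    have e2 : (Ψ g).2 = (Ψ h).2 := by rw [hgh]
    exact Subtype.ext (Subtype.ext (Prod.ext e1 e2))

end Pool.Agent.Helper877.QI
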