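import Pool.Agent.Helper877.QI.Base

set_option autoImplicit false

namespace Pool.Agent.Helper877.QI


section klsec

open scoped commutatorElement

variable {F : Type*} [Group F]

theorem kl_mem_iff (N : Subgroup F) [N.Normal] (a b : F) :
    ⁅a, b⁆ ∈ N ↔ Commute (QuotientGroup.mk' N a) (QuotientGroup.mk' N b) := by
  rw [← QuotientGroup.eq_one_iff, ← commutatorElement_eq_one_iff_commute, ← map_commutatorElement]
  rfl

theorem kl_swap {N : Subgroup F} {a b : F} (h : ⁅a, b⁆ ∈ N) : ⁅b, a⁆ ∈ N := by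
  rw [← commutatorElement_inv]
  exact N.inv_mem h

theorem kl_right {ι : Type*} (x : ι → F) (hx : Subgroup.closure (Set.range x) = ⊤)
    (N : Subgroup F) [N.Normal] (a : F) (h : ∀ i, ⁅a, x i⁆ ∈ N) (b : F) : ⁅a, b⁆ ∈ N := by
  have hb : b ∈ Subgroup.closure (Set.range x) := hx ▸ Subgroup.mem_top b
  rw [kl_mem_iff]
  induction hb using Subgroup.closure_induction with
  | mem b hb =>
    obtain ⟨i, rfl⟩ := hb
    exact (kl_mem_iff N _ _).1 (h i)
  | one => rw [map_one]; exact Commute.one_right _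
  | mul b c _ _ h1 h2 => rw [map_mul]; exact h1.mul_right h2
  | inv b _ h1 => rw [map_inv]; exact h1.inv_right

theorem kl_comm {ι : Type*} (x : ι → F) (hx : Subgroup.closure (Set.range x) = ⊤)
    (N : Subgroup F) [N.Normal] (h : ∀ i j, ⁅x i, x j⁆ ∈ N) (a b : F) : ⁅a, b⁆ ∈ N :=
  kl_right x hx N a (fun i => kl_swap (kl_right x hx N (x i) (h i) a)) b

theorem kl_triple {ι : Type*} (x : ι → F) (hx : Subgroup.closure (Set.range x) = ⊤)
    (N : Subgroup F) [N.Normal] (h : ∀ i j k, ⁅x i, ⁅x j, x k⁆⁆ ∈ N) :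
    (⊤ : Subgroup F).lowerCentralSeries 2 ≤ N := by
  set N' : Subgroup F := (Subgroup.center (F ⧸ N)).comap (QuotientGroup.mk' N) with hN'
  have hmem : ∀ g : F, (∀ a, ⁅g, a⁆ ∈ N) → g ∈ N' := by
    intro g hg
    rw [hN', Subgroup.mem_comap, Subgroup.mem_center_iff]
    intro q
    obtain ⟨a, rfl⟩ := QuotientGroup.mk'_surjective N q
    exact ((kl_mem_iff N _ _).1 (hg a)).symm
  have hmem' : ∀ g ∈ N', ∀ a, ⁅g, a⁆ ∈ N := by
    intro g hg a
    rw [hN', Subgroup.mem_comap, Subgroup.mem_center_iff] at hg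
    rw [kl_mem_iff]
    exact (hg _).symm
  have h1 : ∀ a b : F, ⁅a, b⁆ ∈ N' := by
    refine kl_comm x hx N' fun j k => hmem _ fun a => ?_
    exact kl_right x hx N _ (fun i => kl_swap (h i j k)) a
  rw [Subgroup.lowerCentralSeries_succ, Subgroup.commutator_le]
  intro g hg a _
  refine hmem' g ?_ a
  have h2 : (⊤ : Subgroup F).lowerCentralSeries 1 ≤ N' := by
    rw [Subgroup.lowerCentralSeries_succ, Subgroup.commutator_le]
    intro g _ a _
    exact h1 g a
  exact h2 hg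

/-- a consequence of the Hall-Witt identity in class three -/
theorem kl_jac (hZ : ∀ a b c d : F, Commute ⁅⁅a, b⁆, c⁆ d) (a b c : F) (h1 : Commute b ⁅a, c⁆)
    (h2 : Commute c ⁅a, b⁆) : Commute a ⁅b, c⁆ := by
  have aux : ∀ a b c : F, Commute c ⁅a, b⁆ → Commute c ⁅a, b⁻¹⁆ := by
    intro a b c h
    have e : ⁅a, b⁻¹⁆ = ⁅a, b⁆⁻¹ * ⁅⁅a, b⁆, b⁻¹⁆ := by
      simp only [commutatorElement_def]
      group
    rw [e]
    exact h.inv_right.mul_right (hZ a b b⁻¹ c).symm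
  have sw : ∀ a b c : F, Commute c ⁅a, b⁆ → Commute c ⁅b, a⁆ := by
    intro a b c h
    rw [← commutatorElement_inv]
    exact h.inv_right
  have e1 : Commute c ⁅a⁻¹, b⁻¹⁆ := sw _ _ _ (aux _ _ _ (sw _ _ _ (aux _ _ _ h2)))
  have e2 : Commute b⁻¹ ⁅c⁻¹, a⁆ := (sw _ _ _ (aux _ _ _ h1)).inv_left
  rw [← commutatorElement_eq_one_iff_commute] at e1 e2 ⊢
  have key : ⁅a, ⁅b, c⁆⁆ =
      b * a * ⁅c, ⁅a⁻¹, b⁻¹⁆⁆⁻¹ * a⁻¹ * c * ⁅b⁻¹, ⁅c⁻¹, a⁆⁆⁻¹ * c⁻¹ * b⁻¹ := by
    simp [commutatorElement_def, mul_assoc]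
  rw [key, e1, e2]
  group

theorem kl_normal (N : Subgroup F) (D : Subgroup F) (hND : N ≤ D)
    (h : ∀ v ∈ D, ∀ g : F, ⁅g, v⁆ ∈ N) : D.Normal := by
  refine ⟨fun v hv g => ?_⟩
  have e : g * v * g⁻¹ = ⁅g, v⁆ * v := by
    simp only [commutatorElement_def]
    group
  rw [e]
  exact D.mul_mem (hND (h v hv g)) hv

theorem kl_th {G : Type*} [Group G] {I : Type*} (f : I → G) (hf : ∀ i, f i ∈ Subgroup.center G) :
    ∃ th : (I →₀ ℤ) → G, th 0 = 1 ∧ (∀ n m, th (n + m) = th n * th m) ∧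
      ∀ i, th (Finsupp.single i 1) = f i := by
  classical
  let _inst : CommGroup (Subgroup.center G) :=
    { (inferInstance : Group (Subgroup.center G)) with
      mul_comm := fun a b => Subtype.ext (b.2.comm a).symm }
  let f' : I → Subgroup.center G := fun i => ⟨f i, hf i⟩
  have e0 : (0 : I →₀ ℤ).prod (fun i m => f' i ^ m) = 1 := Finsupp.prod_zero_index
  have e1 : ∀ n m : I →₀ ℤ, (n + m).prod (fun i m => f' i ^ m) =
      n.prod (fun i m => f' i ^ m) * m.prod (fun i m => f' i ^ m) := fun n m =>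
    Finsupp.prod_add_index' (fun i => zpow_zero _) (fun i a b => zpow_add _ _ _)
  have e2 : ∀ i : I, (Finsupp.single i (1 : ℤ)).prod (fun i m => f' i ^ m) = f' i := fun i => by
    rw [Finsupp.prod_single_index (h := fun i m => f' i ^ m) (zpow_zero _)]
    exact zpow_one _
  refine ⟨fun n => ((n.prod fun i m => f' i ^ m : Subgroup.center G) : G), ?_, ?_, ?_⟩
  · exact congrArg Subtype.val e0
  · intro n m
    exact congrArg Subtype.val (e1 n m)
  · intro i
    exact congrArg Subtype.val (e2 i)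

theorem kl_E (N : Subgroup F) [N.Normal] {I : Type*} (f : I → F) (hf : ∀ (i : I) (g : F), ⁅g, f i⁆ ∈ N)
    (w : F) (hw : w ∈ Subgroup.closure (Set.range f) ⊔ N) :
    ∃ n : I →₀ ℤ, (n = 0 → w ∈ N) ∧ ∀ (K : Subgroup F) (L : F → ℚ), (∀ i, f i ∈ K) → N ≤ K →
      (∀ g ∈ N, L g = 0) → (∀ a ∈ K, ∀ b ∈ K, L (a * b) = L a + L b) →
      w ∈ K ∧ L w = n.sum (fun i m => (m : ℚ) * L (f i)) := by
  classical
  have hc : ∀ i, QuotientGroup.mk' N (f i) ∈ Subgroup.center (F ⧸ N) := by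
    intro i
    rw [Subgroup.mem_center_iff]
    intro q
    obtain ⟨a, rfl⟩ := QuotientGroup.mk'_surjective N q
    exact (kl_mem_iff N _ _).1 (hf i a)
  obtain ⟨th, th0, thadd, thone⟩ := kl_th (fun i => QuotientGroup.mk' N (f i)) hc
  have thneg : ∀ n, th (-n) = (th n)⁻¹ := by
    intro n
    rw [eq_inv_iff_mul_eq_one, ← thadd, neg_add_cancel, th0]
  let sm : (F → ℚ) → (I →₀ ℤ) → ℚ := fun L n => n.sum (fun i m => (m : ℚ) * L (f i))
  have sm0 : ∀ L, sm L 0 = 0 := fun L => Finsupp.sum_zero_index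
  have smadd : ∀ L n m, sm L (n + m) = sm L n + sm L m := fun L n m =>
    Finsupp.sum_add_index' (fun i => by simp) (fun i a b => by push_cast; ring)
  have smneg : ∀ L n, sm L (-n) = - sm L n := by
    intro L n
    have := smadd L n (-n)
    rw [add_neg_cancel, sm0] at this
    linarith
  have key : ∃ n : I →₀ ℤ, QuotientGroup.mk' N w = th n ∧
      ∀ (K : Subgroup F) (L : F → ℚ), (∀ i, f i ∈ K) → N ≤ K →
      (∀ g ∈ N, L g = 0) → (∀ a ∈ K, ∀ b ∈ K, L (a * b) = L a + L b) →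
      w ∈ K ∧ L w = sm L n := by
    rw [← Subgroup.closure_eq N, ← Subgroup.closure_union] at hw
    induction hw using Subgroup.closure_induction with
    | mem w hw =>
      rcases hw with ⟨i, rfl⟩ | hw
      · refine ⟨Finsupp.single i 1, ?_, fun K L h1 _ _ _ => ⟨h1 i, ?_⟩⟩
        · exact (thone i).symm
        · change L (f i) = (Finsupp.single i (1 : ℤ)).sum (fun i m => (m : ℚ) * L (f i))
          rw [Finsupp.sum_single_index (by simp)]
          simp
      · refine ⟨0, ?_, fun K L _ h2 h3 _ => ⟨h2 hw, ?_⟩⟩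
        · rw [th0]
          exact (QuotientGroup.eq_one_iff w).2 hw
        · rw [sm0]
          exact h3 w hw
    | one =>
      refine ⟨0, ?_, fun K L _ _ h3 _ => ⟨K.one_mem, ?_⟩⟩
      · rw [th0, map_one]
      · rw [sm0]
        exact h3 1 N.one_mem
    | mul a b _ _ ha hb =>
      obtain ⟨n, h1, h2⟩ := ha
      obtain ⟨m, h3, h4⟩ := hb
      refine ⟨n + m, ?_, fun K L e1 e2 e3 e4 => ?_⟩
      · rw [map_mul, h1, h3, thadd]
      · obtain ⟨h5, h6⟩ := h2 K L e1 e2 e3 e4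
        obtain ⟨h7, h8⟩ := h4 K L e1 e2 e3 e4
        exact ⟨K.mul_mem h5 h7, by rw [e4 a h5 b h7, h6, h8, smadd]⟩
    | inv a _ ha =>
      obtain ⟨n, h1, h2⟩ := ha
      refine ⟨-n, ?_, fun K L e1 e2 e3 e4 => ?_⟩
      · rw [map_inv, h1, thneg]
      · obtain ⟨h5, h6⟩ := h2 K L e1 e2 e3 e4
        refine ⟨K.inv_mem h5, ?_⟩
        have h7 := e4 a h5 a⁻¹ (K.inv_mem h5)
        rw [mul_inv_cancel, e3 1 N.one_mem, h6] at h7
        rw [smneg]
        linarith
  obtain ⟨n, h1, h2⟩ := key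
  refine ⟨n, fun hn => ?_, h2⟩
  rw [hn, th0] at h1
  exact (QuotientGroup.eq_one_iff w).1 h1

end klsec

section klT

open scoped commutatorElement

theorem kl_cx (g h : T ℚ) : (⁅g, h⁆).x = 0 := by
  simp [commutatorElement_def]

theorem kl_cy (g h : T ℚ) : (⁅g, h⁆).y = 0 := by
  simp [commutatorElement_def]

theorem kl_cc (g h : T ℚ) : (⁅g, h⁆).c = g.x * h.y - g.y * h.x := by
  simp only [commutatorElement_def, T.mul_c, T.mul_x, T.mul_y, T.inv_x, T.inv_y, T.inv_c]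
  ring

theorem kl_cc0 (g h : T ℚ) (hx : h.x = 0) (hy : h.y = 0) : (⁅g, h⁆).c = 0 := by
  rw [kl_cc, hx, hy]; ring

theorem kl_cd0 (g h : T ℚ) (hx : h.x = 0) (hy : h.y = 0) : (⁅g, h⁆).d = g.x * h.c := by
  simp only [commutatorElement_def, T.mul_c, T.mul_d, T.mul_x, T.mul_y, T.inv_x, T.inv_y, T.inv_c,
    T.inv_d, hx, hy]
  ring

theorem kl_c1 (g h : T ℚ) (hx : g.x = 0) (hy : g.y = 0) (hc : g.c = 0) : ⁅g, h⁆ = 1 := by
  ext <;> simp only [commutatorElement_def, T.mul_c, T.mul_d, T.mul_e, T.mul_x, T.mul_y, T.inv_x,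
    T.inv_y, T.inv_c, T.inv_d, T.inv_e, T.one_x, T.one_y, T.one_c, T.one_d, T.one_e, hx, hy, hc] <;>
    ring

/-- elements with vanishing `x`, `y` -/
def klK1 : Subgroup (T ℚ) where
  carrier := {g | g.x = 0 ∧ g.y = 0}
  mul_mem' := by
    rintro a b ⟨h1, h2⟩ ⟨h3, h4⟩
    exact ⟨by rw [T.mul_x, h1, h3, add_zero], by rw [T.mul_y, h2, h4, add_zero]⟩
  one_mem' := ⟨rfl, rfl⟩
  inv_mem' := by
    rintro a ⟨h1, h2⟩
    exact ⟨by rw [T.inv_x, h1, neg_zero], by rw [T.inv_y, h2, neg_zero]⟩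

/-- elements with vanishing `x`, `y`, `c` -/
def klK2 : Subgroup (T ℚ) where
  carrier := {g | g.x = 0 ∧ g.y = 0 ∧ g.c = 0}
  mul_mem' := by
    rintro a b ⟨h1, h2, h3⟩ ⟨h4, h5, h6⟩
    exact ⟨by rw [T.mul_x, h1, h4, add_zero], by rw [T.mul_y, h2, h5, add_zero],
      by rw [T.mul_c, h1, h2, h3, h6]; ring⟩
  one_mem' := ⟨rfl, rfl, rfl⟩
  inv_mem' := by
    rintro a ⟨h1, h2, h3⟩
    exact ⟨by rw [T.inv_x, h1, neg_zero], by rw [T.inv_y, h2, neg_zero],
      by rw [T.inv_c, h3, neg_zero]⟩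

variable {F : Type*} [Group F] (φ : F →* T ℚ)

theorem kl_l1 : (⊤ : Subgroup F).lowerCentralSeries 1 ≤ klK1.comap φ := by
  rw [Subgroup.lowerCentralSeries_succ, Subgroup.commutator_le]
  intro g _ h _
  rw [Subgroup.mem_comap, map_commutatorElement]
  exact ⟨kl_cx _ _, kl_cy _ _⟩

theorem kl_l2 : (⊤ : Subgroup F).lowerCentralSeries 2 ≤ klK2.comap φ := by
  rw [Subgroup.lowerCentralSeries_succ, Subgroup.commutator_le]
  intro g hg h _
  obtain ⟨h1, h2⟩ := kl_l1 φ hg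
  rw [Subgroup.mem_comap, map_commutatorElement]
  refine ⟨kl_cx _ _, kl_cy _ _, ?_⟩
  rw [kl_cc, h1, h2]; ring

theorem kl_l3 : (⊤ : Subgroup F).lowerCentralSeries 3 ≤ φ.ker := by
  rw [Subgroup.lowerCentralSeries_succ, Subgroup.commutator_le]
  intro g hg h _
  obtain ⟨h1, h2, h3⟩ := kl_l2 φ hg
  rw [MonoidHom.mem_ker, map_commutatorElement]
  exact kl_c1 _ _ h1 h2 h3

end klT

section klF

open scoped commutatorElement

variable {ι : Type*} [LinearOrder ι]

/-- pairs `j < k` -/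
abbrev klI2 (ι : Type*) [LinearOrder ι] : Type _ := {p : ι × ι // p.1 < p.2}

/-- Hall triples -/
abbrev klI3 (ι : Type*) [LinearOrder ι] : Type _ :=
  {p : ι × ι × ι // p.2.1 < p.2.2 ∧ p.2.1 ≤ p.1}

/-- commutators -/
def klf2 (p : klI2 ι) : FreeGroup ι := ⁅FreeGroup.of p.1.1, FreeGroup.of p.1.2⁆

/-- triple commutators -/
def klf3 (p : klI3 ι) : FreeGroup ι :=
  ⁅FreeGroup.of p.1.1, ⁅FreeGroup.of p.1.2.1, FreeGroup.of p.1.2.2⁆⁆

theorem kl_lcs_swap {F : Type*} [Group F] (n : ℕ) (v : F)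
    (hv : v ∈ (⊤ : Subgroup F).lowerCentralSeries n) (g : F) :
    ⁅g, v⁆ ∈ (⊤ : Subgroup F).lowerCentralSeries (n + 1) := by
  apply kl_swap
  rw [Subgroup.lowerCentralSeries_succ]
  exact Subgroup.commutator_mem_commutator hv (Subgroup.mem_top g)

theorem klf2_mem (p : klI2 ι) : klf2 p ∈ (⊤ : Subgroup (FreeGroup ι)).lowerCentralSeries 1 :=
  kl_lcs_swap 0 _ (Subgroup.mem_top _) _

theorem klf3_mem (p : klI3 ι) : klf3 p ∈ (⊤ : Subgroup (FreeGroup ι)).lowerCentralSeries 2 :=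
  kl_lcs_swap 1 _ (kl_lcs_swap 0 _ (Subgroup.mem_top _) _) _

theorem kl_anti (F : Type*) [Group F] (n : ℕ) :
    (⊤ : Subgroup F).lowerCentralSeries (n + 1) ≤ (⊤ : Subgroup F).lowerCentralSeries n :=
  Subgroup.lowerCentralSeries_antitone _ (Nat.le_succ n)

theorem kl_gen2 : (⊤ : Subgroup (FreeGroup ι)).lowerCentralSeries 1 ≤
    Subgroup.closure (Set.range (klf2 (ι := ι))) ⊔
      (⊤ : Subgroup (FreeGroup ι)).lowerCentralSeries 2 := by
  set D := Subgroup.closure (Set.range (klf2 (ι := ι))) ⊔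
      (⊤ : Subgroup (FreeGroup ι)).lowerCentralSeries 2 with hDdef
  have hD1 : D ≤ (⊤ : Subgroup (FreeGroup ι)).lowerCentralSeries 1 := by
    refine sup_le ((Subgroup.closure_le _).2 ?_) (kl_anti _ 1)
    rintro _ ⟨p, rfl⟩
    exact klf2_mem p
  have hD : D.Normal := kl_normal _ D le_sup_right fun v hv g => kl_lcs_swap 1 v (hD1 hv) g
  have hlt : ∀ i j : ι, i < j → ⁅FreeGroup.of i, FreeGroup.of j⁆ ∈ D := fun i j hij =>
    (le_sup_left : _ ≤ D) (Subgroup.subset_closure ⟨⟨(i, j), hij⟩, rfl⟩)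
  have h : ∀ i j : ι, ⁅FreeGroup.of i, FreeGroup.of j⁆ ∈ D := by
    intro i j
    rcases lt_trichotomy i j with hij | hij | hij
    · exact hlt i j hij
    · rw [hij, commutatorElement_self]
      exact D.one_mem
    · exact kl_swap (hlt j i hij)
  rw [Subgroup.lowerCentralSeries_succ, Subgroup.commutator_le]
  intro a _ b _
  exact kl_comm _ (FreeGroup.closure_range_of ι) D h a b

theorem kl_gen3 : (⊤ : Subgroup (FreeGroup ι)).lowerCentralSeries 2 ≤
    Subgroup.closure (Set.range (klf3 (ι := ι))) ⊔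
      (⊤ : Subgroup (FreeGroup ι)).lowerCentralSeries 3 := by
  set D := Subgroup.closure (Set.range (klf3 (ι := ι))) ⊔
      (⊤ : Subgroup (FreeGroup ι)).lowerCentralSeries 3 with hDdef
  have hD1 : D ≤ (⊤ : Subgroup (FreeGroup ι)).lowerCentralSeries 2 := by
    refine sup_le ((Subgroup.closure_le _).2 ?_) (kl_anti _ 2)
    rintro _ ⟨p, rfl⟩
    exact klf3_mem p
  have hD : D.Normal := kl_normal _ D le_sup_right fun v hv g => kl_lcs_swap 2 v (hD1 hv) g
  have hD3 : (⊤ : Subgroup (FreeGroup ι)).lowerCentralSeries 3 ≤ D := le_sup_right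
  have hZ : ∀ a b c d : FreeGroup ι ⧸ D, Commute ⁅⁅a, b⁆, c⁆ d := by
    intro a b c d
    obtain ⟨a, rfl⟩ := QuotientGroup.mk'_surjective D a
    obtain ⟨b, rfl⟩ := QuotientGroup.mk'_surjective D b
    obtain ⟨c, rfl⟩ := QuotientGroup.mk'_surjective D c
    obtain ⟨d, rfl⟩ := QuotientGroup.mk'_surjective D d
    rw [← map_commutatorElement, ← map_commutatorElement]
    rw [← kl_mem_iff]
    apply hD3
    refine kl_swap (kl_lcs_swap 2 _ (kl_swap (kl_lcs_swap 1 _ ?_ _)) _)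
    exact kl_lcs_swap 0 _ (Subgroup.mem_top _) _
  set y : ι → FreeGroup ι ⧸ D := fun i => QuotientGroup.mk' D (FreeGroup.of i) with hy
  have hall : ∀ i j k : ι, j < k → j ≤ i → Commute (y i) ⁅y j, y k⁆ := by
    intro i j k h1 h2
    rw [hy]
    change Commute (QuotientGroup.mk' D (FreeGroup.of i))
      ⁅QuotientGroup.mk' D (FreeGroup.of j), QuotientGroup.mk' D (FreeGroup.of k)⁆
    rw [← map_commutatorElement, ← kl_mem_iff]
    exact (le_sup_left : _ ≤ D) (Subgroup.subset_closure ⟨⟨(i, j, k), h1, h2⟩, rfl⟩)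
  have hlt : ∀ i j k : ι, j < k → Commute (y i) ⁅y j, y k⁆ := by
    intro i j k h1
    rcases le_or_gt j i with h2 | h2
    · exact hall i j k h1 h2
    · exact kl_jac hZ _ _ _ (hall j i k (h2.trans h1) h2.le) (hall k i j h2 (h2.trans h1).le)
  refine kl_triple _ (FreeGroup.closure_range_of ι) D fun i j k => ?_
  rw [kl_mem_iff, map_commutatorElement]
  change Commute (y i) ⁅y j, y k⁆
  rcases lt_trichotomy j k with hjk | hjk | hjk
  · exact hlt i j k hjk
  · rw [hjk, commutatorElement_self]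
    exact Commute.one_right _
  · rw [← commutatorElement_inv]
    exact (hlt i k j hjk).inv_right

theorem kl_ite (P Q R S : Prop) [Decidable P] [Decidable Q] [Decidable R] [Decidable S]
    (h : ¬ ((P ∧ Q) ∨ (R ∧ S))) : ((if P then (1 : ℚ) else 0) * (if Q then 1 else 0) -
      (if R then 1 else 0) * (if S then 1 else 0)) = 0 := by
  by_cases hP : P <;> by_cases hQ : Q <;> by_cases hR : R <;> by_cases hS : S <;> simp_all

theorem kl_ite3 (A P Q R S : Prop) [Decidable A] [Decidable P] [Decidable Q] [Decidable R]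
    [Decidable S] (h : ¬ (A ∧ ((P ∧ Q) ∨ (R ∧ S)))) :
    (if A then (1 : ℚ) else 0) * ((if P then (1 : ℚ) else 0) * (if Q then 1 else 0) -
      (if R then 1 else 0) * (if S then 1 else 0)) = 0 := by
  by_cases hA : A
  · rw [kl_ite P Q R S (fun h' => h ⟨hA, h'⟩), mul_zero]
  · rw [if_neg hA, zero_mul]

theorem kl_comb2 (n : klI2 ι →₀ ℤ) (h : ∀ X Y : ι → ℚ,
    n.sum (fun p m => (m : ℚ) * (X p.1.1 * Y p.1.2 - Y p.1.1 * X p.1.2)) = 0) : n = 0 := by
  classical
  ext p0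
  obtain ⟨⟨j0, k0⟩, h0⟩ := p0
  change j0 < k0 at h0
  have h1 := h (fun i => if i = j0 then 1 else 0) (fun i => if i = k0 then 1 else 0)
  rw [Finsupp.sum, Finset.sum_eq_single ⟨(j0, k0), h0⟩] at h1
  · simp only [if_true, h0.ne, h0.ne', if_false] at h1
    simpa using h1
  · rintro ⟨⟨j, k⟩, hjk⟩ _ hne
    change j < k at hjk
    change ((n ⟨(j, k), hjk⟩ : ℤ) : ℚ) * ((if j = j0 then (1 : ℚ) else 0) * (if k = k0 then 1 else 0) -
      (if j = k0 then 1 else 0) * (if k = j0 then 1 else 0)) = 0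
    rw [kl_ite, mul_zero]
    rintro (⟨rfl, rfl⟩ | ⟨rfl, rfl⟩)
    · exact hne rfl
    · exact absurd h0 hjk.not_gt
  · intro hn
    rw [Finsupp.notMem_support_iff.1 hn]
    simp

theorem kl_comb3 (n : klI3 ι →₀ ℤ) (h : ∀ X Y : ι → ℚ,
    n.sum (fun p m => (m : ℚ) * (X p.1.1 * (X p.1.2.1 * Y p.1.2.2 - Y p.1.2.1 * X p.1.2.2))) = 0) :
    n = 0 := by
  classical
  -- triples `(j, j, k)`
  have ha : ∀ (j0 k0 : ι) (h0 : j0 < k0 ∧ j0 ≤ j0), n ⟨(j0, j0, k0), h0⟩ = 0 := by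
    intro j0 k0 h0
    have h1 := h (fun i => if i = j0 then 1 else 0) (fun i => if i = k0 then 1 else 0)
    rw [Finsupp.sum, Finset.sum_eq_single ⟨(j0, j0, k0), h0⟩] at h1
    · simp only [if_true, h0.1.ne, h0.1.ne', if_false] at h1
      simpa using h1
    · rintro ⟨⟨i, j, k⟩, hjk⟩ _ hne
      change j < k ∧ j ≤ i at hjk
      change ((n ⟨(i, j, k), hjk⟩ : ℤ) : ℚ) * ((if i = j0 then (1 : ℚ) else 0) *
        ((if j = j0 then (1 : ℚ) else 0) * (if k = k0 then 1 else 0) -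
        (if j = k0 then 1 else 0) * (if k = j0 then 1 else 0))) = 0
      rw [kl_ite3, mul_zero]
      rintro ⟨rfl, ⟨rfl, rfl⟩ | ⟨rfl, rfl⟩⟩
      · exact hne rfl
      · exact absurd h0.1 hjk.1.not_gt
    · intro hn
      rw [Finsupp.notMem_support_iff.1 hn]
      simp
  -- triples `(k, j, k)`
  have hb : ∀ (j0 k0 : ι) (h0 : j0 < k0 ∧ j0 ≤ k0), n ⟨(k0, j0, k0), h0⟩ = 0 := by
    intro j0 k0 h0
    have h1 := h (fun i => if i = k0 then 1 else 0) (fun i => if i = j0 then 1 else 0)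
    rw [Finsupp.sum, Finset.sum_eq_single ⟨(k0, j0, k0), h0⟩] at h1
    · simp only [if_true, h0.1.ne, h0.1.ne', if_false] at h1
      simpa using h1
    · rintro ⟨⟨i, j, k⟩, hjk⟩ _ hne
      change j < k ∧ j ≤ i at hjk
      change ((n ⟨(i, j, k), hjk⟩ : ℤ) : ℚ) * ((if i = k0 then (1 : ℚ) else 0) *
        ((if j = k0 then (1 : ℚ) else 0) * (if k = j0 then 1 else 0) -
        (if j = j0 then 1 else 0) * (if k = k0 then 1 else 0))) = 0
      rw [kl_ite3, mul_zero]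
      rintro ⟨rfl, ⟨rfl, rfl⟩ | ⟨rfl, rfl⟩⟩
      · exact absurd h0.1 hjk.1.not_gt
      · exact hne rfl
    · intro hn
      rw [Finsupp.notMem_support_iff.1 hn]
      simp
  ext p0
  obtain ⟨⟨i0, j0, k0⟩, h0⟩ := p0
  change j0 < k0 ∧ j0 ≤ i0 at h0
  change n ⟨(i0, j0, k0), h0⟩ = 0
  rcases eq_or_ne i0 j0 with rfl | hij
  · exact ha _ _ _
  rcases eq_or_ne i0 k0 with rfl | hik
  · exact hb _ _ _
  have h1 := h (fun i => if i = i0 ∨ i = j0 then 1 else 0) (fun i => if i = k0 then 1 else 0)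
  rw [Finsupp.sum, Finset.sum_eq_single ⟨(i0, j0, k0), h0⟩] at h1
  · simp only [if_true, h0.1.ne, h0.1.ne', hik, hik.symm, if_false, true_or, or_true, or_self] at h1
    simpa using h1
  · rintro ⟨⟨i, j, k⟩, hjk⟩ _ hne
    change j < k ∧ j ≤ i at hjk
    change ((n ⟨(i, j, k), hjk⟩ : ℤ) : ℚ) * ((if i = i0 ∨ i = j0 then (1 : ℚ) else 0) *
        ((if j = i0 ∨ j = j0 then (1 : ℚ) else 0) * (if k = k0 then 1 else 0) -
        (if j = k0 then 1 else 0) * (if k = i0 ∨ k = j0 then 1 else 0))) = 0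
    rcases eq_or_ne i j with rfl | hij'
    · rw [ha]
      simp
    rcases eq_or_ne i k with rfl | hik'
    · rw [hb]
      simp
    rw [kl_ite3, mul_zero]
    have hlt : j0 < i0 := lt_of_le_of_ne h0.2 hij.symm
    have hlt' : j < i := lt_of_le_of_ne hjk.2 hij'.symm
    rintro ⟨h2, ⟨h3, h4⟩ | ⟨h3, h4⟩⟩
    · rcases h2 with h2 | h2 <;> rcases h3 with h3 | h3
      · exact hij' (h2.trans h3.symm)
      · subst h2 h3 h4
        exact hne rfl
      · subst h2 h3
        exact absurd hlt hlt'.not_gt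
      · exact hij' (h2.trans h3.symm)
    · rcases h2 with h2 | h2 <;> rcases h4 with h4 | h4
      · exact hik' (h2.trans h4.symm)
      · subst h3 h4
        exact absurd h0.1 hjk.1.not_gt
      · subst h2 h3
        exact absurd h0.1 hlt'.not_gt
      · exact hik' (h2.trans h4.symm)
  · intro hn
    rw [Finsupp.notMem_support_iff.1 hn]
    simp

theorem kl_main (w : FreeGroup ι) (h : ∀ φ : FreeGroup ι →* T ℚ, φ w = 1) :
    w ∈ (⊤ : Subgroup (FreeGroup ι)).lowerCentralSeries 3 := by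
  classical
  have s1 : w ∈ (⊤ : Subgroup (FreeGroup ι)).lowerCentralSeries 1 := by
    obtain ⟨n, hn, hK⟩ := kl_E ((⊤ : Subgroup (FreeGroup ι)).lowerCentralSeries 1) FreeGroup.of
      (fun i g => kl_lcs_swap 0 _ (Subgroup.mem_top _) _) w (by
        rw [FreeGroup.closure_range_of, top_sup_eq]; exact Subgroup.mem_top _)
    apply hn
    ext j
    let φ : FreeGroup ι →* T ℚ :=
      FreeGroup.lift (fun i => (⟨if i = j then 1 else 0, 0, 0, 0, 0⟩ : T ℚ))
    obtain ⟨_, h2⟩ := hK ⊤ (fun w => (φ w).x) (fun i => Subgroup.mem_top _) le_top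
      (fun g hg => (kl_l1 φ hg).1) (fun a _ b _ => by rw [map_mul]; rfl)
    change (φ w).x = _ at h2
    rw [h φ, T.one_x] at h2
    have h3 : ∀ i, (φ (FreeGroup.of i)).x = if i = j then 1 else 0 := by
      intro i
      rw [FreeGroup.lift_apply_of]
    simp only [h3] at h2
    rw [Finsupp.sum, Finset.sum_eq_single j] at h2
    · simp only [if_true, mul_one] at h2
      exact_mod_cast h2.symm
    · intro b _ hb
      rw [if_neg hb, mul_zero]
    · intro hn
      rw [Finsupp.notMem_support_iff.1 hn]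
      simp
  have s2 : w ∈ (⊤ : Subgroup (FreeGroup ι)).lowerCentralSeries 2 := by
    obtain ⟨n, hn, hK⟩ := kl_E ((⊤ : Subgroup (FreeGroup ι)).lowerCentralSeries 2) klf2
      (fun i g => kl_lcs_swap 1 _ (klf2_mem i) _) w (kl_gen2 s1)
    apply hn
    apply kl_comb2
    intro X Y
    let φ : FreeGroup ι →* T ℚ := FreeGroup.lift (fun i => (⟨X i, Y i, 0, 0, 0⟩ : T ℚ))
    obtain ⟨_, h2⟩ := hK (klK1.comap φ) (fun w => (φ w).c) (fun i => kl_l1 φ (klf2_mem i))
      ((kl_anti _ 1).trans (kl_l1 φ)) (fun g hg => (kl_l2 φ hg).2.2) (fun a ha b hb => by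
        obtain ⟨a1, a2⟩ := ha
        obtain ⟨b1, b2⟩ := hb
        rw [map_mul, T.mul_c, a1, a2]
        ring)
    change (φ w).c = _ at h2
    rw [h φ, T.one_c] at h2
    rw [h2]
    refine Finsupp.sum_congr fun p _ => ?_
    congr 1
    change _ = (φ ⁅FreeGroup.of p.1.1, FreeGroup.of p.1.2⁆).c
    rw [map_commutatorElement, kl_cc, FreeGroup.lift_apply_of, FreeGroup.lift_apply_of]
  obtain ⟨n, hn, hK⟩ := kl_E ((⊤ : Subgroup (FreeGroup ι)).lowerCentralSeries 3) klf3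
    (fun i g => kl_lcs_swap 2 _ (klf3_mem i) _) w (kl_gen3 s2)
  apply hn
  apply kl_comb3
  intro X Y
  let φ : FreeGroup ι →* T ℚ := FreeGroup.lift (fun i => (⟨X i, Y i, 0, 0, 0⟩ : T ℚ))
  obtain ⟨_, h2⟩ := hK (klK2.comap φ) (fun w => (φ w).d) (fun i => kl_l2 φ (klf3_mem i))
    ((kl_anti _ 2).trans (kl_l2 φ)) (fun g hg => by
      have : φ g = 1 := kl_l3 φ hg
      change (φ g).d = 0
      rw [this, T.one_d]) (fun a ha b hb => by
      obtain ⟨a1, a2, a3⟩ := ha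
      obtain ⟨b1, b2, b3⟩ := hb
      rw [map_mul, T.mul_d, a1, a2, a3, b1, b2, b3]
      ring)
  change (φ w).d = _ at h2
  rw [h φ, T.one_d] at h2
  rw [h2]
  refine Finsupp.sum_congr fun p _ => ?_
  congr 1
  change _ = (φ ⁅FreeGroup.of p.1.1, ⁅FreeGroup.of p.1.2.1, FreeGroup.of p.1.2.2⁆⁆).d
  rw [map_commutatorElement, map_commutatorElement, kl_cd0 _ _ (kl_cx _ _) (kl_cy _ _), kl_cc,
    FreeGroup.lift_apply_of, FreeGroup.lift_apply_of, FreeGroup.lift_apply_of]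

end klF

/-- A word killed by all homomorphisms to `T ℚ` lies in the fourth term of the lower
central series. -/
theorem mem_lcs_of_killed {ι : Type*} (w : FreeGroup ι)
    (h : ∀ φ : FreeGroup ι →* T ℚ, φ w = 1) :
    w ∈ (⊤ : Subgroup (FreeGroup ι)).lowerCentralSeries 3 := by
  classical
  exact @kl_main ι (linearOrderOfSTO (WellOrderingRel (α := ι))) w h

end Pool.Agent.Helper877.QI
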