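import Pool.Agent.Helper877.QI.Base
import Pool.Agent.Helper877.QI.Residual

set_option autoImplicit false

namespace Pool.Agent.Helper877.QI



/-- Separation for the free nilpotent group of class 3. -/
theorem sep_N3 (ι : Type*)
    (g : FreeGroup ι ⧸ (⊤ : Subgroup (FreeGroup ι)).lowerCentralSeries 3) (hg : g ≠ 1) :
    ∃ φ : (FreeGroup ι ⧸ (⊤ : Subgroup (FreeGroup ι)).lowerCentralSeries 3) →* T ℚ, φ g ≠ 1 := by
  classical
  let L1 : Subgroup (T ℚ) :=
    { carrier := {g | g.x = 0 ∧ g.y = 0}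
      mul_mem' := by
        rintro a b ⟨h1, h2⟩ ⟨h3, h4⟩
        exact ⟨by rw [T.mul_x, h1, h3, add_zero], by rw [T.mul_y, h2, h4, add_zero]⟩
      one_mem' := ⟨rfl, rfl⟩
      inv_mem' := by
        rintro a ⟨h1, h2⟩
        exact ⟨by rw [T.inv_x, h1, neg_zero], by rw [T.inv_y, h2, neg_zero]⟩ }
  let L2 : Subgroup (T ℚ) :=
    { carrier := {g | g.x = 0 ∧ g.y = 0 ∧ g.c = 0}
      mul_mem' := by
        rintro a b ⟨h1, h2, h3⟩ ⟨h4, h5, h6⟩
        exact ⟨by rw [T.mul_x, h1, h4, add_zero], by rw [T.mul_y, h2, h5, add_zero],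
          by rw [T.mul_c, h1, h2, h3, h6]; ring⟩
      one_mem' := ⟨rfl, rfl, rfl⟩
      inv_mem' := by
        rintro a ⟨h1, h2, h3⟩
        exact ⟨by rw [T.inv_x, h1, neg_zero], by rw [T.inv_y, h2, neg_zero],
          by rw [T.inv_c, h3, neg_zero]⟩ }
  have h1 : (⊤ : Subgroup (T ℚ)).lowerCentralSeries 1 ≤ L1 := by
    rw [Subgroup.lowerCentralSeries_succ, Subgroup.commutator_le]
    intro p _ q _
    refine ⟨?_, ?_⟩
    · rw [commutatorElement_def]
      simp only [T.mul_x, T.inv_x]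
      ring
    · rw [commutatorElement_def]
      simp only [T.mul_y, T.inv_y]
      ring
  have h2 : (⊤ : Subgroup (T ℚ)).lowerCentralSeries 2 ≤ L2 := by
    rw [Subgroup.lowerCentralSeries_succ, Subgroup.commutator_le]
    intro p hp q _
    obtain ⟨hx, hy⟩ := h1 hp
    refine ⟨?_, ?_, ?_⟩
    · rw [commutatorElement_def]
      simp only [T.mul_x, T.inv_x]
      ring
    · rw [commutatorElement_def]
      simp only [T.mul_y, T.inv_y]
      ring
    · rw [commutatorElement_def]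
      simp only [T.mul_x, T.inv_x, T.mul_y, T.inv_y, T.mul_c, T.inv_c, hx, hy]
      ring
  have h3 : (⊤ : Subgroup (T ℚ)).lowerCentralSeries 3 ≤ ⊥ := by
    rw [Subgroup.lowerCentralSeries_succ, Subgroup.commutator_le]
    intro p hp q _
    obtain ⟨hx, hy, hc⟩ := h2 hp
    rw [Subgroup.mem_bot, commutatorElement_def]
    ext
    · simp only [T.mul_x, T.inv_x, T.one_x]
      ring
    · simp only [T.mul_y, T.inv_y, T.one_y]
      ring
    · simp only [T.mul_x, T.inv_x, T.mul_y, T.inv_y, T.mul_c, T.inv_c, T.one_c, hx, hy, hc]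
      ring
    · simp only [T.mul_x, T.inv_x, T.mul_y, T.inv_y, T.mul_c, T.inv_c, T.mul_d, T.inv_d,
        T.one_d, hx, hy, hc]
      ring
    · simp only [T.mul_x, T.inv_x, T.mul_y, T.inv_y, T.mul_c, T.inv_c, T.mul_e, T.inv_e,
        T.one_e, hx, hy, hc]
      ring
  obtain ⟨w, rfl⟩ := QuotientGroup.mk_surjective g
  have hw : w ∉ (⊤ : Subgroup (FreeGroup ι)).lowerCentralSeries 3 := by
    intro hw
    exact hg ((QuotientGroup.eq_one_iff w).mpr hw)
  obtain ⟨φ, hφ⟩ : ∃ φ : FreeGroup ι →* T ℚ, φ w ≠ 1 := by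
    by_contra hcon
    push Not at hcon
    exact hw (mem_lcs_of_killed w hcon)
  have hker : (⊤ : Subgroup (FreeGroup ι)).lowerCentralSeries 3 ≤ φ.ker := by
    intro v hv
    rw [MonoidHom.mem_ker]
    have h4 : φ v ∈ ((⊤ : Subgroup (FreeGroup ι)).lowerCentralSeries 3).map φ :=
      Subgroup.mem_map_of_mem φ hv
    rw [Subgroup.map_lowerCentralSeries] at h4
    have h5 : ∀ n, ((⊤ : Subgroup (FreeGroup ι)).map φ).lowerCentralSeries n ≤
        (⊤ : Subgroup (T ℚ)).lowerCentralSeries n := by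
      intro n
      induction n with
      | zero => exact le_top
      | succ n ih => exact Subgroup.commutator_mono ih le_top
    exact Subgroup.mem_bot.mp (h3 (h5 3 h4))
  refine ⟨QuotientGroup.lift _ φ hker, ?_⟩
  rw [QuotientGroup.lift_mk]
  exact hφ

end Pool.Agent.Helper877.QI
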