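import Pool.Agent.Helper877.QI.Base

set_option autoImplicit false

namespace Pool.Agent.Helper877.QI


theorem T_pow {V : Type*} [Field V] [CharZero V] (g : T V) (n : ℕ) :
    (g ^ n).x = n * g.x ∧ (g ^ n).y = n * g.y ∧ (g ^ n).c = n * g.c ∧ (g ^ n).d = n * g.d ∧
      (g ^ n).e = n * g.e := by
  induction n with
  | zero => simp
  | succ n ih =>
    obtain ⟨h1, h2, h3, h4, h5⟩ := ih
    rw [pow_succ]
    simp only [T.mul_x, T.mul_y, T.mul_c, T.mul_d, T.mul_e, h1, h2, h3, h4, h5]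
    push_cast
    refine ⟨by ring, by ring, by ring, by ring, by ring⟩

/-- `T V` is torsion-free. -/
theorem TorsionFree.T {V : Type*} [Field V] [CharZero V] : TorsionFree (T V) := by
  intro g n hn h
  obtain ⟨h1, h2, h3, h4, h5⟩ := T_pow g n
  rw [h] at h1 h2 h3 h4 h5
  have hn' : (n : V) ≠ 0 := Nat.cast_ne_zero.mpr hn.ne'
  have z : ∀ u : V, 0 = (n : V) * u → u = 0 := fun u hu => by
    rcases mul_eq_zero.mp hu.symm with h | h
    · exact absurd h hn'
    · exact h
  exact Pool.Agent.Helper877.QI.T.ext (z _ h1) (z _ h2) (z _ h3) (z _ h4) (z _ h5)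

open scoped commutatorElement in
theorem cm_mem_lcs {F : Type*} [Group F] (n : ℕ) (a w : F)
    (hw : w ∈ (⊤ : Subgroup F).lowerCentralSeries n) :
    cm a w ∈ (⊤ : Subgroup F).lowerCentralSeries (n + 1) := by
  have e : cm a w = (⁅w, a⁆)⁻¹ := by
    rw [commutatorElement_def, cm]; group
  rw [e]
  refine Subgroup.inv_mem _ ?_
  rw [Subgroup.lowerCentralSeries_succ]
  exact Subgroup.commutator_mem_commutator hw (Subgroup.mem_top a)

/-- The class 3 law in the free nilpotent group. -/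
theorem N3.law {ι : Type*}
    (a b c d : FreeGroup ι ⧸ (⊤ : Subgroup (FreeGroup ι)).lowerCentralSeries 3) :
    cm a (cm b (cm c d)) = 1 := by
  obtain ⟨a, rfl⟩ := QuotientGroup.mk_surjective a
  obtain ⟨b, rfl⟩ := QuotientGroup.mk_surjective b
  obtain ⟨c, rfl⟩ := QuotientGroup.mk_surjective c
  obtain ⟨d, rfl⟩ := QuotientGroup.mk_surjective d
  have h : cm a (cm b (cm c d)) ∈ (⊤ : Subgroup (FreeGroup ι)).lowerCentralSeries 3 :=
    cm_mem_lcs 2 _ _ (cm_mem_lcs 1 _ _ (cm_mem_lcs 0 _ _ (Subgroup.mem_top d)))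
  exact (QuotientGroup.eq_one_iff _).mpr h

end Pool.Agent.Helper877.QI
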