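import Pool.Agent.Helper877.QI.Base

set_option autoImplicit false

namespace Pool.Agent.Helper877.QI


universe v

theorem Sv_dep (w : FreeGroup ℕ) : ∃ d : ℕ, ∀ (H : Type v) [Group H] (a a' : ℕ → H),
    (∀ i < d, a i = a' i) → FreeGroup.lift a w = FreeGroup.lift a' w := by
  induction w using FreeGroup.induction_on with
  | C1 => exact ⟨0, fun H _ a a' _ => by rw [map_one, map_one]⟩
  | of x =>
    refine ⟨x + 1, fun H _ a a' h => ?_⟩
    rw [FreeGroup.lift_apply_of, FreeGroup.lift_apply_of]
    exact h x (Nat.lt_succ_self x)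
  | inv_of x ih =>
    obtain ⟨d, hd⟩ := ih
    refine ⟨d, fun H _ a a' h => ?_⟩
    rw [map_inv, map_inv, hd H a a' h]
  | mul x y ihx ihy =>
    obtain ⟨d, hd⟩ := ihx
    obtain ⟨e, he⟩ := ihy
    refine ⟨max d e, fun H _ a a' h => ?_⟩
    rw [map_mul, map_mul, hd H a a' fun i hi => h i (lt_of_lt_of_le hi (le_max_left _ _)),
      he H a a' fun i hi => h i (lt_of_lt_of_le hi (le_max_right _ _))]

theorem Sv_deps (l : List (FreeGroup ℕ)) : ∃ d : ℕ, ∀ w ∈ l, ∀ (H : Type v) [Group H]
    (a a' : ℕ → H), (∀ i < d, a i = a' i) → FreeGroup.lift a w = FreeGroup.lift a' w := by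
  induction l with
  | nil => exact ⟨0, fun w hw => absurd hw List.not_mem_nil⟩
  | cons x l ih =>
    obtain ⟨d, hd⟩ := ih
    obtain ⟨e, he⟩ := Sv_dep.{v} x
    refine ⟨max d e, fun w hw H _ a a' h => ?_⟩
    rcases List.mem_cons.1 hw with rfl | hw
    · exact he H a a' fun i hi => h i (lt_of_lt_of_le hi (le_max_right _ _))
    · exact hd w hw H a a' fun i hi => h i (lt_of_lt_of_le hi (le_max_left _ _))

/-- Each quasi-identity involves finitely many variables only. -/
theorem QuasiId.exists_vars (σ : QuasiId) : ∃ d : ℕ, ∀ (H : Type v) [Group H],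
    (∀ b : Fin d → H, σ.Holds (Subgroup.closure (Set.range b))) → σ.Holds H := by
  obtain ⟨d, hd⟩ := Sv_deps.{v} (σ.hyps.map Prod.fst ++ σ.hyps.map Prod.snd ++
    [σ.concl.1, σ.concl.2])
  refine ⟨d, fun H _ hb a ha => ?_⟩
  let b : Fin d → H := fun i => a i
  let a' : ℕ → Subgroup.closure (Set.range b) := fun i =>
    if h : i < d then ⟨a i, Subgroup.subset_closure ⟨⟨i, h⟩, rfl⟩⟩ else 1
  have key : ∀ w ∈ (σ.hyps.map Prod.fst ++ σ.hyps.map Prod.snd ++ [σ.concl.1, σ.concl.2]),
      ((FreeGroup.lift a' w : Subgroup.closure (Set.range b)) : H) = FreeGroup.lift a w := by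
    intro w hw
    have h1 : ((FreeGroup.lift a' w : Subgroup.closure (Set.range b)) : H)
        = FreeGroup.lift (fun i => (a' i : H)) w := by
      have : ((Subgroup.closure (Set.range b)).subtype.comp (FreeGroup.lift a'))
          = FreeGroup.lift (fun i => (a' i : H)) := by
        ext i
        simp
      exact DFunLike.congr_fun this w
    rw [h1]
    refine hd w hw H _ _ fun i hi => ?_
    simp only [a', dif_pos hi]
  have h2 := hb b a' (by
    intro p hp
    apply Subtype.ext
    rw [key, key, ha p hp]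
    · exact List.mem_append_left _ (List.mem_append_right _ (List.mem_map_of_mem hp))
    · exact List.mem_append_left _ (List.mem_append_left _ (List.mem_map_of_mem hp)))
  have h3 := congrArg (Subtype.val) h2
  rwa [key, key] at h3
  · simp
  · simp

end Pool.Agent.Helper877.QI
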