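import Pool.Agent.Helper877.QI.SatT
import Pool.Agent.Helper877.QI.KeyLemma
import Pool.Agent.Helper877.QI.Vars
import Pool.Agent.Helper877.QI.Separate
import Pool.Agent.Helper877.QI.Torsion

set_option autoImplicit false

namespace Pool.Agent.Helper877.QI

universe u v

theorem QuasiId.Holds.of_injective {σ : QuasiId} {H H' : Type*} [Group H] [Group H'] (φ : H →* H')
    (hφ : Function.Injective φ) (h : σ.Holds H') : σ.Holds H := by
  intro a ha
  have key : ∀ w : FreeGroup ℕ, φ (FreeGroup.lift a w) = FreeGroup.lift (fun i => φ (a i)) w := by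
    intro w
    have : (φ.comp (FreeGroup.lift a)) = FreeGroup.lift (fun i => φ (a i)) := by
      ext i
      simp
    exact DFunLike.congr_fun this w
  apply hφ
  rw [key, key]
  apply h
  intro p hp
  rw [← key, ← key, ha p hp]

/-- The quasi-identity `x ^ n = 1 → x = 1`. -/
def tfq (n : ℕ) : QuasiId := ⟨[(FreeGroup.of 0 ^ n, 1)], (FreeGroup.of 0, 1)⟩

theorem tfq_holds_iff (n : ℕ) (H : Type*) [Group H] :
    (tfq n).Holds H ↔ ∀ g : H, g ^ n = 1 → g = 1 := by
  constructor
  · intro h g hg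
    have := h (fun _ => g) (by
      intro p hp
      simp only [tfq, List.mem_singleton] at hp
      subst hp
      simpa using hg)
    simpa [tfq] using this
  · intro h a ha
    have h1 := ha (FreeGroup.of 0 ^ n, 1) (by simp [tfq])
    simp only [map_pow, FreeGroup.lift_apply_of, map_one] at h1
    simpa [tfq] using h (a 0) h1

theorem torsionFree_iff (H : Type*) [Group H] :
    TorsionFree H ↔ ∀ n : ℕ, 0 < n → (tfq n).Holds H := by
  constructor
  · intro h n hn
    rw [tfq_holds_iff]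
    intro g hg
    exact h g n hn hg
  · intro h g n hn hg
    exact (tfq_holds_iff n H).mp (h n hn) g hg

/-- The law of class 3. -/
def lawq : QuasiId :=
  ⟨[], (cm (FreeGroup.of 0) (cm (FreeGroup.of 1) (cm (FreeGroup.of 2) (FreeGroup.of 3))), 1)⟩

theorem map_cm {H H' : Type*} [Group H] [Group H'] (φ : H →* H') (a b : H) :
    φ (cm a b) = cm (φ a) (φ b) := by
  simp [cm]

theorem lawq_holds_iff (H : Type*) [Group H] :
    lawq.Holds H ↔ ∀ a b c d : H, cm a (cm b (cm c d)) = 1 := by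
  constructor
  · intro h a b c d
    have := h (fun n => if n = 0 then a else if n = 1 then b else if n = 2 then c else d) (by
      intro p hp
      simp [lawq] at hp)
    simpa [lawq, map_cm] using this
  · intro h a _
    simpa [lawq, map_cm] using h (a 0) (a 1) (a 2) (a 3)

/-- Functions with finite support in a product of groups. -/
def finSupp {I : Type*} (A : I → Type*) [∀ i, Group (A i)] : Subgroup (∀ i, A i) where
  carrier := {f | {i | f i ≠ 1}.Finite}
  mul_mem' := by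
    intro f g hf hg
    refine (hf.union hg).subset ?_
    intro i hi
    by_contra h
    simp only [Set.mem_union, Set.mem_setOf_eq, not_or, not_not] at h
    apply hi
    rw [Pi.mul_apply, h.1, h.2, mul_one]
  one_mem' := by simp
  inv_mem' := by
    intro f hf
    refine hf.subset ?_
    intro i hi h
    apply hi
    rw [Pi.inv_apply, h, inv_one]

instance finSupp.normal {I : Type*} (A : I → Type*) [∀ i, Group (A i)] : (finSupp A).Normal := by
  refine ⟨fun f hf g => ?_⟩
  refine Set.Finite.subset (s := {i | f i ≠ 1}) hf ?_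
  intro i hi h
  apply hi
  rw [Pi.mul_apply, Pi.mul_apply, h, mul_one, Pi.inv_apply, mul_inv_cancel]

/-- The reduced product modulo finite sets. -/
abbrev RP {I : Type*} (A : I → Type*) [∀ i, Group (A i)] := (∀ i, A i) ⧸ finSupp A

theorem RP.lift_mk {I : Type*} (A : I → Type*) [∀ i, Group (A i)] (a : ℕ → ∀ i, A i)
    (w : FreeGroup ℕ) :
    FreeGroup.lift (fun n => (QuotientGroup.mk (a n) : RP A)) w =
      QuotientGroup.mk (fun i => FreeGroup.lift (fun n => a n i) w) := by
  have h1 : FreeGroup.lift (fun n => (QuotientGroup.mk (a n) : RP A)) =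
      (QuotientGroup.mk' (finSupp A)).comp (FreeGroup.lift a) := by
    ext n
    simp
  rw [h1]
  have h2 : FreeGroup.lift a w = fun i => FreeGroup.lift (fun n => a n i) w := by
    funext i
    have : (Pi.evalMonoidHom A i).comp (FreeGroup.lift a) = FreeGroup.lift (fun n => a n i) := by
      ext n
      simp
    exact DFunLike.congr_fun this w
  rw [MonoidHom.comp_apply, h2]
  rfl

theorem RP.mk_eq_mk_iff {I : Type*} (A : I → Type*) [∀ i, Group (A i)] (f g : ∀ i, A i) :
    (QuotientGroup.mk f : RP A) = QuotientGroup.mk g ↔ {i | f i ≠ g i}.Finite := by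
  rw [QuotientGroup.eq]
  have : {i | (f⁻¹ * g) i ≠ 1} = {i | f i ≠ g i} := by
    ext i
    simp only [Pi.mul_apply, Pi.inv_apply, ne_eq, Set.mem_setOf_eq, inv_mul_eq_one]
  constructor
  · intro h
    rw [← this]
    exact h
  · intro h
    rw [← this] at h
    exact h

theorem RP.holds {I : Type*} (A : I → Type*) [∀ i, Group (A i)] (σ : QuasiId)
    (h : {i | ¬ σ.Holds (A i)}.Finite) : σ.Holds (RP A) := by
  intro b hb
  choose a ha using fun n => QuotientGroup.mk_surjective (b n)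
  have hb' : b = fun n => (QuotientGroup.mk (a n) : RP A) := by
    funext n
    rw [ha]
  subst hb'
  rw [RP.lift_mk, RP.lift_mk, RP.mk_eq_mk_iff]
  have h2 : (⋃ p ∈ {p | p ∈ σ.hyps}, {i | FreeGroup.lift (fun n => a n i) p.1 ≠
      FreeGroup.lift (fun n => a n i) p.2}).Finite := by
    refine Set.Finite.biUnion (List.finite_toSet _) ?_
    intro p hp
    have := hb p hp
    rw [RP.lift_mk, RP.lift_mk, RP.mk_eq_mk_iff] at this
    exact this
  refine (h.union h2).subset ?_
  intro i hi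
  by_contra hcon
  simp only [Set.mem_union, Set.mem_setOf_eq, not_or, not_not, Set.mem_iUnion, not_exists] at hcon
  apply hi
  apply hcon.1
  intro p hp
  exact hcon.2 p hp

theorem RP.not_holds {I : Type*} [Infinite I] (A : I → Type*) [∀ i, Group (A i)] (σ : QuasiId)
    (h : ∀ i, ¬ σ.Holds (A i)) : ¬ σ.Holds (RP A) := by
  intro hcon
  have h' : ∀ i, ∃ a : ℕ → A i, (∀ p ∈ σ.hyps, FreeGroup.lift a p.1 = FreeGroup.lift a p.2) ∧
      FreeGroup.lift a σ.concl.1 ≠ FreeGroup.lift a σ.concl.2 := by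
    intro i
    by_contra hne
    apply h i
    intro a ha
    by_contra hne2
    exact hne ⟨a, ha, hne2⟩
  choose a ha1 ha2 using h'
  have := hcon (fun n => (QuotientGroup.mk (fun i => a i n) : RP A)) (by
    intro p hp
    rw [RP.lift_mk, RP.lift_mk, RP.mk_eq_mk_iff]
    convert Set.finite_empty
    ext i
    simp only [Set.mem_setOf_eq, Set.mem_empty_iff_false, iff_false, not_not]
    exact ha1 i p hp)
  rw [RP.lift_mk, RP.lift_mk, RP.mk_eq_mk_iff] at this
  have h3 : {i | FreeGroup.lift (fun n => a i n) σ.concl.1 ≠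
      FreeGroup.lift (fun n => a i n) σ.concl.2} = Set.univ := by
    ext i
    simp only [ne_eq, Set.mem_setOf_eq, Set.mem_univ, iff_true]
    exact ha2 i
  rw [h3] at this
  exact Set.infinite_univ this
/-- Separation transfers quasi-identities from `T ℚ` to the free nilpotent group. -/
theorem th_T_sub (ι : Type u) {τ : QuasiId} (h : τ.Holds (T ℚ)) :
    τ.Holds (FreeGroup ι ⧸ (⊤ : Subgroup (FreeGroup ι)).lowerCentralSeries 3) := by
  have hS : Sat {τ} (FreeGroup ι ⧸ (⊤ : Subgroup (FreeGroup ι)).lowerCentralSeries 3) := by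
    apply Sat.of_sep
    intro z hz
    obtain ⟨φ, hφ⟩ := sep_N3 ι z hz
    refine ⟨T ℚ, inferInstance, φ, ?_, hφ⟩
    intro σ hσ
    rw [Set.mem_singleton_iff] at hσ
    subst hσ
    exact h
  exact hS τ rfl

theorem tfq_N3 (ι : Type u) (n : ℕ) (hn : 0 < n) :
    (tfq n).Holds (FreeGroup ι ⧸ (⊤ : Subgroup (FreeGroup ι)).lowerCentralSeries 3) :=
  th_T_sub ι ((torsionFree_iff _).mp TorsionFree.T n hn)

/-- Members of a basis with one removed, in torsion-free groups of class 3. -/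
theorem holds_of_class_three (ι : Type u) [Nontrivial ι] (S : Set QuasiId)
    (hS : IsBasis.{u, v} (FreeGroup ι ⧸ (⊤ : Subgroup (FreeGroup ι)).lowerCentralSeries 3) S)
    (σ : QuasiId) (hσ : σ ∈ S) (A : Type v) [Group A] (htf : TorsionFree A)
    (hlaw : lawq.Holds A) (hA : ∀ τ ∈ S \ {σ}, τ.Holds A) : σ.Holds A := by
  set G := FreeGroup ι ⧸ (⊤ : Subgroup (FreeGroup ι)).lowerCentralSeries 3 with hG
  obtain ⟨d, hd⟩ := QuasiId.exists_vars.{v} σ
  apply hd A
  intro b
  by_contra hne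
  set A0 := Subgroup.closure (Set.range b) with hA0
  have hfg : Group.FG A0 := Group.closure_finite_fg (Set.range b)
  have hsub : ∀ {τ : QuasiId}, τ.Holds A → τ.Holds A0 := fun h =>
    h.of_injective A0.subtype A0.subtype_injective
  have htf0 : TorsionFree A0 := by
    rw [torsionFree_iff] at htf ⊢
    intro n hn
    exact hsub (htf n hn)
  have hσG : σ ∈ Th G := hS.1 σ hσ
  have hnK : ¬ Sat (Th G) A0 := fun h => hne (h σ hσG)
  obtain ⟨C, _, hC1, hC2, hC3⟩ := key_lemma (G := G) (sep_N3 ι) (sat_T ι) (Th A0 ∩ Th G)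
    (fun τ hτ => sat_T ι τ hτ.2) A0 htf0 ((lawq_holds_iff A0).mp (hsub hlaw))
    (fun τ hτ => hτ.1) hnK d
  apply hC2
  have hCtf : TorsionFree C := by
    rw [torsionFree_iff]
    intro n hn
    exact hC1 (tfq n) ⟨(torsionFree_iff _).mp htf0 n hn, tfq_N3 ι n hn⟩
  have hCS : ∀ τ ∈ S, τ.Holds C := by
    intro τ hτ
    by_cases h : τ = σ
    · subst h
      apply hd C
      intro c
      exact hC3 c τ hσG
    · exact hC1 τ ⟨hsub (hA τ ⟨hτ, h⟩), hS.1 τ hτ⟩
  intro τ hτ
  exact ((hS.2 C hCtf).mp hCS) τ hτ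

/-- For an independent basis, each member fails in some group violating the class 3 law. -/
theorem exists_witness (ι : Type u) [Nontrivial ι] (S : Set QuasiId)
    (hS : IsIndependentBasis.{u, v}
      (FreeGroup ι ⧸ (⊤ : Subgroup (FreeGroup ι)).lowerCentralSeries 3) S)
    (σ : QuasiId) (hσ : σ ∈ S) :
    ∃ (A : Type v) (_ : Group A), TorsionFree A ∧ (∀ τ ∈ S \ {σ}, τ.Holds A) ∧
      ¬ lawq.Holds A := by
  have h1 := hS.2 σ hσ
  by_contra hcon
  apply h1
  refine ⟨fun τ hτ => hS.1.1 τ hτ.1, ?_⟩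
  intro H _ hH
  constructor
  · intro h
    apply (hS.1.2 H hH).mp
    intro τ hτ
    by_cases hts : τ = σ
    · subst hts
      apply holds_of_class_three ι S hS.1 τ hσ H hH _ h
      by_contra hlaw
      exact hcon ⟨H, inferInstance, hH, h, hlaw⟩
    · exact h τ ⟨hτ, hts⟩
  · intro h τ hτ
    exact h τ (hS.1.1 τ hτ.1)

theorem lawq_N3 (ι : Type u) :
    lawq.Holds (FreeGroup ι ⧸ (⊤ : Subgroup (FreeGroup ι)).lowerCentralSeries 3) :=
  (lawq_holds_iff _).mpr N3.law

/-- An independent basis is finite. -/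
theorem finite_of_independent (ι : Type u) [Nontrivial ι] (S : Set QuasiId)
    (hS : IsIndependentBasis.{u, v}
      (FreeGroup ι ⧸ (⊤ : Subgroup (FreeGroup ι)).lowerCentralSeries 3) S) : S.Finite := by
  by_contra hinf
  have : Infinite S := Set.infinite_coe_iff.mpr hinf
  choose A hA1 hA2 hA3 hA4 using fun σ : S => exists_witness.{u, v} ι S hS σ σ.2
  have hne : ¬ lawq.Holds (RP A) := RP.not_holds A lawq hA4
  apply hne
  refine (hS.1.2 (RP A) ?_).mp ?_ lawq (lawq_N3 ι)
  · rw [torsionFree_iff]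
    intro n hn
    apply RP.holds
    convert Set.finite_empty
    ext σ
    simp only [Set.mem_setOf_eq, Set.mem_empty_iff_false, iff_false, not_not]
    exact (torsionFree_iff _).mp (hA2 σ) n hn
  · intro τ hτ
    apply RP.holds
    refine (Set.finite_singleton (⟨τ, hτ⟩ : S)).subset ?_
    intro σ hσ
    by_contra hne'
    apply hσ
    refine hA3 σ τ ⟨hτ, ?_⟩
    intro h
    apply hne'
    rw [Set.mem_singleton_iff]
    rw [Set.mem_singleton_iff] at h
    exact Subtype.ext h.symm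
/-- The integral Heisenberg group of rank five. -/
@[ext] structure H5 where
  a1 : ℤ
  a2 : ℤ
  b1 : ℤ
  b2 : ℤ
  z : ℤ

namespace H5

instance : Mul H5 := ⟨fun g h =>
  ⟨g.a1 + h.a1, g.a2 + h.a2, g.b1 + h.b1, g.b2 + h.b2, g.z + h.z + g.a1 * h.b1 + g.a2 * h.b2⟩⟩

instance : One H5 := ⟨⟨0, 0, 0, 0, 0⟩⟩

instance : Inv H5 := ⟨fun g =>
  ⟨-g.a1, -g.a2, -g.b1, -g.b2, -g.z + g.a1 * g.b1 + g.a2 * g.b2⟩⟩

theorem mul_def (g h : H5) : g * h =
  ⟨g.a1 + h.a1, g.a2 + h.a2, g.b1 + h.b1, g.b2 + h.b2,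
    g.z + h.z + g.a1 * h.b1 + g.a2 * h.b2⟩ := rfl

theorem one_def : (1 : H5) = ⟨0, 0, 0, 0, 0⟩ := rfl

theorem inv_def (g : H5) :
    g⁻¹ = ⟨-g.a1, -g.a2, -g.b1, -g.b2, -g.z + g.a1 * g.b1 + g.a2 * g.b2⟩ := rfl

instance : Group H5 where
  mul_assoc a b c := by
    ext <;> simp only [mul_def] <;> ring
  one_mul a := by
    ext <;> simp [mul_def, one_def]
  mul_one a := by
    ext <;> simp [mul_def, one_def]
  inv_mul_cancel a := by
    ext <;> simp only [mul_def, one_def, inv_def] <;> ring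

theorem pow_coord (g : H5) (n : ℕ) : (g ^ n).a1 = n * g.a1 ∧ (g ^ n).a2 = n * g.a2 ∧
    (g ^ n).b1 = n * g.b1 ∧ (g ^ n).b2 = n * g.b2 := by
  induction n with
  | zero => simp [one_def]
  | succ n ih =>
    obtain ⟨h1, h2, h3, h4⟩ := ih
    rw [pow_succ, mul_def]
    refine ⟨?_, ?_, ?_, ?_⟩
    · simp only [h1]; push_cast; ring
    · simp only [h2]; push_cast; ring
    · simp only [h3]; push_cast; ring
    · simp only [h4]; push_cast; ring

theorem pow_z (g : H5) (h1 : g.a1 = 0) (h2 : g.a2 = 0) (n : ℕ) : (g ^ n).z = n * g.z := by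
  induction n with
  | zero => simp [one_def]
  | succ n ih =>
    have := pow_coord g n
    rw [pow_succ, mul_def]
    simp only [ih, this.1, this.2.1, h1, h2]
    push_cast
    ring

theorem torsionFree : TorsionFree H5 := by
  intro g n hn hg
  have hn' : (n : ℤ) ≠ 0 := by exact_mod_cast hn.ne'
  obtain ⟨h1, h2, h3, h4⟩ := pow_coord g n
  rw [hg] at h1 h2 h3 h4
  have e1 : g.a1 = 0 := by
    have : (n : ℤ) * g.a1 = 0 := h1.symm
    exact (mul_eq_zero.mp this).resolve_left hn'
  have e2 : g.a2 = 0 := by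
    have : (n : ℤ) * g.a2 = 0 := h2.symm
    exact (mul_eq_zero.mp this).resolve_left hn'
  have e3 : g.b1 = 0 := by
    have : (n : ℤ) * g.b1 = 0 := h3.symm
    exact (mul_eq_zero.mp this).resolve_left hn'
  have e4 : g.b2 = 0 := by
    have : (n : ℤ) * g.b2 = 0 := h4.symm
    exact (mul_eq_zero.mp this).resolve_left hn'
  have h5 := pow_z g e1 e2 n
  rw [hg] at h5
  have e5 : g.z = 0 := by
    have : (n : ℤ) * g.z = 0 := h5.symm
    exact (mul_eq_zero.mp this).resolve_left hn'
  exact H5.ext e1 e2 e3 e4 e5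

theorem law (a b c d : H5) : cm a (cm b (cm c d)) = 1 := by
  ext <;> simp only [cm, mul_def, inv_def, one_def] <;> ring

end H5

/-- A quasi-identity true in `T ℚ` and false in the Heisenberg group of rank five. -/
def heisq : QuasiId :=
  ⟨[(cm (FreeGroup.of 0) (FreeGroup.of 2), 1), (cm (FreeGroup.of 0) (FreeGroup.of 3), 1),
    (cm (FreeGroup.of 1) (FreeGroup.of 2), 1), (cm (FreeGroup.of 1) (FreeGroup.of 3), 1),
    (cm (FreeGroup.of 0) (FreeGroup.of 1), cm (FreeGroup.of 2) (FreeGroup.of 3))],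
    (cm (FreeGroup.of 0) (FreeGroup.of 1), 1)⟩

theorem heisq_holds_iff (H : Type*) [Group H] :
    heisq.Holds H ↔ ∀ a b c d : H, cm a c = 1 → cm a d = 1 → cm b c = 1 → cm b d = 1 →
      cm a b = cm c d → cm a b = 1 := by
  constructor
  · intro h a b c d h1 h2 h3 h4 h5
    have := h (fun n => if n = 0 then a else if n = 1 then b else if n = 2 then c else d) (by
      intro p hp
      simp only [heisq, List.mem_cons, List.not_mem_nil, or_false] at hp
      rcases hp with rfl | rfl | rfl | rfl | rfl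
      · simpa [map_cm] using h1
      · simpa [map_cm] using h2
      · simpa [map_cm] using h3
      · simpa [map_cm] using h4
      · simpa [map_cm] using h5)
    simpa [heisq, map_cm] using this
  · intro h a ha
    have h1 := ha (cm (FreeGroup.of 0) (FreeGroup.of 2), 1) (by simp [heisq])
    have h2 := ha (cm (FreeGroup.of 0) (FreeGroup.of 3), 1) (by simp [heisq])
    have h3 := ha (cm (FreeGroup.of 1) (FreeGroup.of 2), 1) (by simp [heisq])
    have h4 := ha (cm (FreeGroup.of 1) (FreeGroup.of 3), 1) (by simp [heisq])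
    have h5 := ha (cm (FreeGroup.of 0) (FreeGroup.of 1), cm (FreeGroup.of 2) (FreeGroup.of 3))
      (by simp [heisq])
    simp only [map_cm, FreeGroup.lift_apply_of, map_one] at h1 h2 h3 h4 h5
    simpa [heisq, map_cm] using h (a 0) (a 1) (a 2) (a 3) h1 h2 h3 h4 h5

theorem cm_eq_one_iff {H : Type*} [Group H] (a b : H) : cm a b = 1 ↔ a * b = b * a := by
  rw [cm]
  constructor
  · intro h
    have h1 : a * b * a⁻¹ = b := mul_inv_eq_one.mp h
    exact mul_inv_eq_iff_eq_mul.mp h1
  · intro h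
    rw [h]
    group

theorem heisq_T : heisq.Holds (T ℚ) := by
  rw [heisq_holds_iff]
  intro a b c d h1 h2 h3 h4 h5
  by_contra hne
  have hcd : c * d ≠ d * c := by
    intro h
    apply hne
    rw [h5, cm_eq_one_iff]
    exact h
  obtain ⟨e1, e2, e3⟩ := T.central_of_commute a c d ((cm_eq_one_iff _ _).mp h1)
    ((cm_eq_one_iff _ _).mp h2) hcd
  obtain ⟨f1, f2, f3⟩ := T.central_of_commute b c d ((cm_eq_one_iff _ _).mp h3)
    ((cm_eq_one_iff _ _).mp h4) hcd
  apply hne
  rw [cm_eq_one_iff]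
  ext <;> simp only [T.mul_x, T.mul_y, T.mul_c, T.mul_d, T.mul_e, e1, e2, e3, f1, f2, f3] <;> ring

/-- The group used against finite bases. -/
theorem exists_A5 : ∃ (A : Type v) (_ : Group A), Group.FG A ∧ TorsionFree A ∧
    (∀ a b c d : A, cm a (cm b (cm c d)) = 1) ∧ ¬ heisq.Holds A := by
  let b : Fin 4 → ULift.{v} H5 := ![⟨⟨1, 0, 0, 0, 0⟩⟩, ⟨⟨0, 0, 1, 0, 0⟩⟩, ⟨⟨0, 1, 0, 0, 0⟩⟩,
    ⟨⟨0, 0, 0, 1, 0⟩⟩]
  let A := Subgroup.closure (Set.range b)
  let φ : A →* H5 := (MulEquiv.ulift.toMonoidHom : ULift.{v} H5 →* H5).comp A.subtype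
  have hφ : Function.Injective φ := by
    intro x y hxy
    exact Subtype.ext (MulEquiv.ulift.injective hxy)
  refine ⟨A, inferInstance, Group.closure_finite_fg (Set.range b), ?_, ?_, ?_⟩
  · have h := H5.torsionFree
    rw [torsionFree_iff] at h ⊢
    intro n hn
    exact (h n hn).of_injective φ hφ
  · rw [← lawq_holds_iff]
    exact QuasiId.Holds.of_injective φ hφ ((lawq_holds_iff H5).mpr H5.law)
  · intro h
    rw [heisq_holds_iff] at h
    have hb : ∀ i, b i ∈ A := fun i => Subgroup.subset_closure ⟨i, rfl⟩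
    have key := h ⟨b 0, hb 0⟩ ⟨b 1, hb 1⟩ ⟨b 2, hb 2⟩ ⟨b 3, hb 3⟩
    have hc : ∀ x y : A, cm x y = 1 ↔ cm (φ x) (φ y) = 1 := by
      intro x y
      rw [← map_cm, ← map_one φ, hφ.eq_iff]
    have hc2 : ∀ x y z w : A, cm x y = cm z w ↔ cm (φ x) (φ y) = cm (φ z) (φ w) := by
      intro x y z w
      rw [← map_cm, ← map_cm, hφ.eq_iff]
    simp only [hc, hc2] at key
    have f0 : φ ⟨b 0, hb 0⟩ = ⟨1, 0, 0, 0, 0⟩ := rfl
    have f1 : φ ⟨b 1, hb 1⟩ = ⟨0, 0, 1, 0, 0⟩ := rfl
    have f2 : φ ⟨b 2, hb 2⟩ = ⟨0, 1, 0, 0, 0⟩ := rfl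
    have f3 : φ ⟨b 3, hb 3⟩ = ⟨0, 0, 0, 1, 0⟩ := rfl
    rw [f0, f1, f2, f3] at key
    have h5 := key (by rfl) (by rfl) (by rfl) (by rfl) (by rfl)
    have h6 := congrArg H5.z h5
    simp [cm, H5.mul_def, H5.inv_def, H5.one_def] at h6

theorem exists_vars_le (σ : QuasiId) : ∃ d : ℕ, ∀ d', d ≤ d' → ∀ (H : Type v) [Group H],
    (∀ b : Fin d' → H, σ.Holds (Subgroup.closure (Set.range b))) → σ.Holds H := by
  obtain ⟨d, hd⟩ := QuasiId.exists_vars.{v} σ
  refine ⟨d, ?_⟩
  intro d' hdd H _ h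
  apply hd H
  intro b
  let b' : Fin d' → H := fun i => if hi : i.1 < d then b ⟨i.1, hi⟩ else 1
  have hsub : Subgroup.closure (Set.range b) ≤ Subgroup.closure (Set.range b') := by
    rw [Subgroup.closure_le]
    rintro _ ⟨i, rfl⟩
    apply Subgroup.subset_closure
    refine ⟨⟨i.1, lt_of_lt_of_le i.2 hdd⟩, ?_⟩
    simp [b']
  exact (h b').of_injective (Subgroup.inclusion hsub) (Subgroup.inclusion_injective hsub)

/-- There is no finite basis. -/
theorem no_finite_basis (ι : Type u) [Nontrivial ι] (S : Set QuasiId) (hfin : S.Finite)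
    (hS : IsBasis.{u, v} (FreeGroup ι ⧸ (⊤ : Subgroup (FreeGroup ι)).lowerCentralSeries 3) S) :
    False := by
  set G := FreeGroup ι ⧸ (⊤ : Subgroup (FreeGroup ι)).lowerCentralSeries 3 with hG
  choose d hd using fun σ : QuasiId => exists_vars_le.{v} σ
  obtain ⟨D, hD⟩ : ∃ D : ℕ, ∀ σ ∈ S, d σ ≤ D := by
    obtain ⟨D, hD⟩ := (hfin.image d).bddAbove
    exact ⟨D, fun σ hσ => hD ⟨σ, hσ, rfl⟩⟩
  obtain ⟨A, _, hfg, htf, hlaw, hne⟩ := exists_A5.{v}
  have hheis : heisq.Holds G := th_T_sub ι heisq_T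
  obtain ⟨C, _, hC1, hC2, hC3⟩ := key_lemma (G := G) (sep_N3 ι) (sat_T ι) (Th A ∩ Th G)
    (fun τ hτ => sat_T ι τ hτ.2) A htf hlaw (fun τ hτ => hτ.1) (fun h => hne (h heisq hheis)) D
  apply hC2
  have hCtf : TorsionFree C := by
    rw [torsionFree_iff]
    intro n hn
    exact hC1 (tfq n) ⟨(torsionFree_iff _).mp htf n hn, tfq_N3 ι n hn⟩
  have hCS : ∀ τ ∈ S, τ.Holds C := by
    intro τ hτ
    apply hd τ D (hD τ hτ) C
    intro b
    exact hC3 b τ (hS.1 τ hτ)
  intro τ hτ
  exact ((hS.2 C hCtf).mp hCS) τ hτ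

/-- The free nilpotent groups of class 3 have no independent basis. -/
theorem main (ι : Type u) [Nontrivial ι] : ¬ ∃ S : Set QuasiId, IsIndependentBasis.{u, v}
    (FreeGroup ι ⧸ (⊤ : Subgroup (FreeGroup ι)).lowerCentralSeries 3) S := by
  rintro ⟨S, hS⟩
  exact no_finite_basis ι S (finite_of_independent ι S hS) hS.1

end Pool.Agent.Helper877.QI
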