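import Pool.Agent.Helper877.QI.Base
import Pool.Agent.Helper877.QI.Residual
import Pool.Agent.Helper877.QI.Dilation

set_option autoImplicit false

namespace Pool.Agent.Helper877.QI



universe u

/-- elements of `T ℚ` with `x = y = 0` -/
def satK1 : Subgroup (T ℚ) where
  carrier := {g | g.x = 0 ∧ g.y = 0}
  mul_mem' := by
    rintro a b ⟨h1, h2⟩ ⟨h3, h4⟩
    exact ⟨by rw [T.mul_x, h1, h3, add_zero], by rw [T.mul_y, h2, h4, add_zero]⟩
  one_mem' := ⟨rfl, rfl⟩
  inv_mem' := by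
    rintro a ⟨h1, h2⟩
    exact ⟨by rw [T.inv_x, h1, neg_zero], by rw [T.inv_y, h2, neg_zero]⟩

/-- elements of `T ℚ` with `x = y = c = 0` -/
def satK2 : Subgroup (T ℚ) where
  carrier := {g | g.x = 0 ∧ g.y = 0 ∧ g.c = 0}
  mul_mem' := by
    rintro a b ⟨h1, h2, h5⟩ ⟨h3, h4, h6⟩
    exact ⟨by rw [T.mul_x, h1, h3, add_zero], by rw [T.mul_y, h2, h4, add_zero],
      by rw [T.mul_c, h1, h2, h5, h6]; ring⟩
  one_mem' := ⟨rfl, rfl, rfl⟩
  inv_mem' := by
    rintro a ⟨h1, h2, h3⟩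
    exact ⟨by rw [T.inv_x, h1, neg_zero], by rw [T.inv_y, h2, neg_zero],
      by rw [T.inv_c, h3, neg_zero]⟩

theorem sat_lcs : (⊤ : Subgroup (T ℚ)).lowerCentralSeries 3 = ⊥ := by
  have h1 : (⊤ : Subgroup (T ℚ)).lowerCentralSeries 1 ≤ satK1 := by
    rw [Subgroup.lowerCentralSeries_succ, Subgroup.commutator_le]
    intro g _ h _
    rw [commutatorElement_def]
    constructor
    · simp only [T.mul_x, T.inv_x]; ring
    · simp only [T.mul_y, T.inv_y]; ring
  have h2 : (⊤ : Subgroup (T ℚ)).lowerCentralSeries 2 ≤ satK2 := by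
    rw [Subgroup.lowerCentralSeries_succ, Subgroup.commutator_le]
    intro g hg h _
    obtain ⟨g1, g2⟩ := h1 hg
    rw [commutatorElement_def]
    refine ⟨?_, ?_, ?_⟩
    · simp only [T.mul_x, T.inv_x]; ring
    · simp only [T.mul_y, T.inv_y]; ring
    · simp only [T.mul_c, T.inv_c, T.mul_x, T.mul_y, T.inv_x, T.inv_y, g1, g2]; ring
  rw [eq_bot_iff, Subgroup.lowerCentralSeries_succ, Subgroup.commutator_le]
  intro g hg h _
  obtain ⟨g1, g2, g3⟩ := h2 hg
  rw [Subgroup.mem_bot, commutatorElement_def]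
  ext
  · simp only [T.mul_x, T.inv_x, T.one_x]; ring
  · simp only [T.mul_y, T.inv_y, T.one_y]; ring
  · simp only [T.mul_c, T.inv_c, T.mul_x, T.mul_y, T.inv_x, T.inv_y, T.one_c, g1, g2, g3]; ring
  · simp only [T.mul_d, T.inv_d, T.mul_c, T.inv_c, T.mul_x, T.mul_y, T.inv_x, T.inv_y, T.one_d,
      g1, g2, g3]
    ring
  · simp only [T.mul_e, T.inv_e, T.mul_c, T.inv_c, T.mul_x, T.mul_y, T.inv_x, T.inv_y, T.one_e,
      g1, g2, g3]
    ring

theorem sat_supp (w : FreeGroup ℕ) : ∃ d : ℕ, ∀ a a' : ℕ → T ℚ, (∀ i < d, a i = a' i) →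
    FreeGroup.lift a w = FreeGroup.lift a' w := by
  induction w using FreeGroup.induction_on with
  | C1 => exact ⟨0, fun a a' _ => by rw [map_one, map_one]⟩
  | of n =>
    refine ⟨n + 1, fun a a' h => ?_⟩
    rw [FreeGroup.lift_apply_of, FreeGroup.lift_apply_of]
    exact h n (Nat.lt_succ_self n)
  | inv_of n ih =>
    obtain ⟨d, hd⟩ := ih
    refine ⟨d, fun a a' h => ?_⟩
    rw [map_inv, map_inv, hd a a' h]
  | mul x y ihx ihy =>
    obtain ⟨d1, h1⟩ := ihx
    obtain ⟨d2, h2⟩ := ihy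
    refine ⟨max d1 d2, fun a a' h => ?_⟩
    rw [map_mul, map_mul, h1 a a' (fun i hi => h i (lt_max_of_lt_left hi)),
      h2 a a' (fun i hi => h i (lt_max_of_lt_right hi))]

theorem sat_supp_list (l : List (FreeGroup ℕ × FreeGroup ℕ)) : ∃ d : ℕ, ∀ a a' : ℕ → T ℚ,
    (∀ i < d, a i = a' i) → ∀ p ∈ l, FreeGroup.lift a p.1 = FreeGroup.lift a' p.1 ∧
      FreeGroup.lift a p.2 = FreeGroup.lift a' p.2 := by
  induction l with
  | nil => exact ⟨0, fun a a' _ p hp => absurd hp (List.not_mem_nil)⟩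
  | cons q l ih =>
    obtain ⟨d0, h0⟩ := ih
    obtain ⟨d1, h1⟩ := sat_supp q.1
    obtain ⟨d2, h2⟩ := sat_supp q.2
    refine ⟨max d0 (max d1 d2), fun a a' h p hp => ?_⟩
    rcases List.mem_cons.1 hp with rfl | hp
    · exact ⟨h1 a a' (fun i hi => h i (lt_max_of_lt_right (lt_max_of_lt_left hi))),
        h2 a a' (fun i hi => h i (lt_max_of_lt_right (lt_max_of_lt_right hi)))⟩
    · exact h0 a a' (fun i hi => h i (lt_max_of_lt_left hi)) p hp

theorem sat_comp {A B : Type*} [Group A] [Group B] (φ : A →* B) (a : ℕ → A) (w : FreeGroup ℕ) :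
    φ (FreeGroup.lift a w) = FreeGroup.lift (fun i => φ (a i)) w := by
  have : (φ.comp (FreeGroup.lift a)) = FreeGroup.lift (fun i => φ (a i)) := by
    ext i
    simp
  exact DFunLike.congr_fun this w

/-- Quasi-identities of the free nilpotent group of class 3 are true in `T ℚ`. -/
theorem sat_T (ι : Type u) [Nontrivial ι] :
    Sat (Th (FreeGroup ι ⧸ (⊤ : Subgroup (FreeGroup ι)).lowerCentralSeries 3)) (T ℚ) := by
  classical
  intro σ hσ a ha
  obtain ⟨i0, i1, hne⟩ := exists_pair_ne ι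
  obtain ⟨d, hd⟩ := sat_supp_list (σ.concl :: σ.hyps)
  set a' : ℕ → T ℚ := fun i => if i < d then a i else 1 with ha'
  have haa : ∀ i < d, a i = a' i := fun i hi => by rw [ha']; simp [hi]
  have hcl := hd a a' haa
  obtain ⟨hc1, hc2⟩ := hcl σ.concl List.mem_cons_self
  have hh : ∀ p ∈ σ.hyps, FreeGroup.lift a' p.1 = FreeGroup.lift a' p.2 := by
    intro p hp
    obtain ⟨h1, h2⟩ := hcl p (List.mem_cons_of_mem _ hp)
    rw [← h1, ← h2]
    exact ha p hp
  rw [hc1, hc2]
  obtain ⟨N, hN, hNs⟩ := exists_dil ((Finset.range d).image a')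
  let ρ : FreeGroup Bool →* T ℚ := FreeGroup.lift (fun b => if b = true then TX else TY)
  have hρ1 : ρ (FreeGroup.of true) = TX := by simp [ρ]
  have hρ2 : ρ (FreeGroup.of false) = TY := by simp [ρ]
  have hrange : Subgroup.closure {TX, TY} ≤ ρ.range := by
    rw [Subgroup.closure_le]
    rintro t (rfl | rfl)
    · exact ⟨_, hρ1⟩
    · exact ⟨_, hρ2⟩
  have hw : ∀ i, ∃ w : FreeGroup Bool, ρ w = dil N (a' i) := by
    intro i
    by_cases hi : i < d
    · exact hrange (hNs _ (Finset.mem_image.2 ⟨i, Finset.mem_range.2 hi, rfl⟩))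
    · refine ⟨1, ?_⟩
      have : a' i = 1 := by rw [ha']; simp [hi]
      rw [this, map_one, map_one]
  choose w hw using hw
  have hker : ∀ v, ρ v = 1 → v ∈ (⊤ : Subgroup (FreeGroup Bool)).lowerCentralSeries 3 := by
    intro v hv
    apply mem_lcs_of_killed
    intro φ
    obtain ⟨ψ, h1, h2⟩ := exists_endo (φ (FreeGroup.of true)) (φ (FreeGroup.of false))
    have h3 : φ = ψ.comp ρ := by
      apply FreeGroup.ext_hom
      intro b
      cases b
      · rw [MonoidHom.comp_apply, hρ2, h2]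
      · rw [MonoidHom.comp_apply, hρ1, h1]
    rw [h3, MonoidHom.comp_apply, hv, map_one]
  have hker' : ∀ v ∈ (⊤ : Subgroup (FreeGroup Bool)).lowerCentralSeries 3, ρ v = 1 := by
    intro v hv
    have h1 : ρ v ∈ ((⊤ : Subgroup (FreeGroup Bool)).lowerCentralSeries 3).map ρ := ⟨v, hv, rfl⟩
    rw [Subgroup.map_lowerCentralSeries] at h1
    have h2 := Subgroup.lowerCentralSeries_mono 3 (le_top (a := (⊤ : Subgroup (FreeGroup Bool)).map ρ)) h1
    simp only at h2
    rw [sat_lcs] at h2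
    exact (Subgroup.mem_bot).1 h2
  let j : FreeGroup Bool →* FreeGroup ι :=
    FreeGroup.lift (fun b => if b = true then FreeGroup.of i0 else FreeGroup.of i1)
  let r : FreeGroup ι →* FreeGroup Bool :=
    FreeGroup.lift (fun i => if i = i0 then FreeGroup.of true else
      if i = i1 then FreeGroup.of false else 1)
  have hrj : ∀ v, r (j v) = v := by
    have h1 : r.comp j = MonoidHom.id _ := by
      apply FreeGroup.ext_hom
      intro b
      cases b
      · simp [r, j, hne.symm]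
      · simp [r, j]
    intro v
    exact DFunLike.congr_fun h1 v
  have hjm : ∀ v ∈ (⊤ : Subgroup (FreeGroup Bool)).lowerCentralSeries 3,
      j v ∈ (⊤ : Subgroup (FreeGroup ι)).lowerCentralSeries 3 := by
    intro v hv
    have h1 : j v ∈ ((⊤ : Subgroup (FreeGroup Bool)).lowerCentralSeries 3).map j := ⟨v, hv, rfl⟩
    rw [Subgroup.map_lowerCentralSeries] at h1
    exact Subgroup.lowerCentralSeries_mono 3 le_top h1
  have hrm : ∀ v ∈ (⊤ : Subgroup (FreeGroup ι)).lowerCentralSeries 3,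
      r v ∈ (⊤ : Subgroup (FreeGroup Bool)).lowerCentralSeries 3 := by
    intro v hv
    have h1 : r v ∈ ((⊤ : Subgroup (FreeGroup ι)).lowerCentralSeries 3).map r := ⟨v, hv, rfl⟩
    rw [Subgroup.map_lowerCentralSeries] at h1
    exact Subgroup.lowerCentralSeries_mono 3 le_top h1
  have hdil : ∀ v : FreeGroup ℕ, dil N (FreeGroup.lift a' v) = ρ (FreeGroup.lift w v) := by
    intro v
    rw [sat_comp, sat_comp]
    congr 1
    congr 1
    funext i
    exact (hw i).symm
  let mkι := QuotientGroup.mk' ((⊤ : Subgroup (FreeGroup ι)).lowerCentralSeries 3)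
  have hg : ∀ v : FreeGroup ℕ, FreeGroup.lift (fun i => mkι (j (w i))) v =
      mkι (j (FreeGroup.lift w v)) := by
    intro v
    rw [sat_comp, sat_comp]
  have hconc := hσ (fun i => mkι (j (w i))) (by
    intro p hp
    rw [hg, hg]
    have h1 : ρ ((FreeGroup.lift w p.1)⁻¹ * FreeGroup.lift w p.2) = 1 := by
      rw [map_mul, map_inv, ← hdil, ← hdil, hh p hp, inv_mul_cancel]
    have h2 := hjm _ (hker _ h1)
    rw [map_mul, map_inv] at h2
    exact (QuotientGroup.eq).2 h2)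
  rw [hg, hg] at hconc
  have h1 := hrm _ ((QuotientGroup.eq).1 hconc)
  rw [map_mul, map_inv, hrj, hrj] at h1
  have h2 := hker' _ h1
  rw [map_mul, map_inv, ← hdil, ← hdil, inv_mul_eq_one] at h2
  exact dil_injective hN h2

end Pool.Agent.Helper877.QI
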